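import Pool.Agent.W_c81d44_h88.KValid

/-!
# The exchange property for arbitrary weights follows from the one for the weights `1`, `2`
-/

set_option autoImplicit false
set_option maxHeartbeats 1000000

namespace Pool.Agent.W_c81d44_h88

open Pool.Agent.W_c81d44_h82

/-- The exchange property for arbitrary weights: whenever `i` and `j` are two adjacent edges of
weight at least `2` and there are faithful circuit covers if the weight of `i` is lowered by `2`
and if the weight of `j` is lowered by `2`, then there is one for the weights as they are. -/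
def ExchangeW : Prop :=
  ∀ (G : KG) (i j : ℕ), i ≠ j → 2 ≤ KG.wt G i → 2 ≤ KG.wt G j → (KG.shape G).Adjacent i j →
    KG.HasFC (KG.dec G i) → KG.HasFC (KG.dec G j) → KG.HasFC G

/-- Lower the weight of an edge by `2`. -/
def low (e : (ℕ × ℕ) × ℕ) : (ℕ × ℕ) × ℕ := (e.1, e.2 - 2)

/-- `v` is an end of `e`. -/
def At (e : (ℕ × ℕ) × ℕ) (v : ℕ) : Prop := e.1.1 = v ∨ e.1.2 = v

/-- The exchange property for lists, weights at most `M`. -/
def ExP (M : ℕ) : Prop :=
  ∀ (e f : (ℕ × ℕ) × ℕ) (R : KG) (v : ℕ), 2 ≤ e.2 → 2 ≤ f.2 → At e v → At f v →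
    (∀ x ∈ e :: f :: R, x.2 ≤ M) →
    KG.HasFC (low e :: f :: R) → KG.HasFC (e :: low f :: R) → KG.HasFC (e :: f :: R)

theorem Blk.perm {n : ℕ} {B B' : KG} {e : (ℕ × ℕ) × ℕ} (h : Blk n B e) (hp : B.Perm B') :
    Blk n B' e where
  supp := fun x hx => h.supp x (hp.mem_iff.2 hx)
  real := fun γ hγ => by
    rw [← realP_perm hp]
    exact h.real γ hγ

/-- The selected edge of a block. -/
theorem sel (m n : ℕ) (e : (ℕ × ℕ) × ℕ) (v : ℕ) (h2 : 2 ≤ e.2) (hv : At e v) :
    ∃ (e' : (ℕ × ℕ) × ℕ) (D : KG), (blk m n e).Perm (e' :: D) ∧ 2 ≤ e'.2 ∧ At e' (9 * v) ∧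
      Blk n (low e' :: D) (low e) := by
  obtain ⟨⟨a, b⟩, w⟩ := e
  simp only at h2
  by_cases h : w = m + 3
  · subst h
    have e1 : blk m n ((a, b), m + 3) =
        kgad m (m + 2) (m + 2) (9 * a) (9 * b) (9 * n + 1) := by
      unfold blk
      rw [if_pos rfl]
    have e2 : low ((a, b), m + 3) = ((a, b), m + 1) := rfl
    rw [e1, e2]
    rcases hv with hv | hv
    · have hv' : a = v := hv
      subst hv'
      exact ⟨((9 * a, 9 * n + 1 + 4), m + 2), _, List.Perm.refl _, by simp, Or.inl rfl,
        blk_dec1 n m a b⟩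
    · have hv' : b = v := hv
      subst hv'
      exact ⟨((9 * b, 9 * n + 1 + 5), m + 2), _, List.Perm.swap _ _ _, by simp, Or.inl rfl,
        (blk_dec2 n m a b).perm (List.Perm.swap _ _ _)⟩
  · have e1 : blk m n ((a, b), w) = [((9 * a, 9 * b), w)] := by
      unfold blk
      rw [if_neg h]
    rw [e1]
    refine ⟨((9 * a, 9 * b), w), [], List.Perm.refl _, h2, ?_, blk_edge n a b (w - 2)⟩
    rcases hv with hv | hv
    · left
      show 9 * a = 9 * v
      rw [show a = v from hv]
    · right
      show 9 * b = 9 * v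
      rw [show b = v from hv]

theorem blk_le (m n : ℕ) (e : (ℕ × ℕ) × ℕ) (h : e.2 ≤ m + 3) : ∀ x ∈ blk m n e, x.2 ≤ m + 2 := by
  intro x hx
  unfold blk at hx
  split_ifs at hx with h3
  · unfold kgad at hx
    simp only [List.mem_cons, List.not_mem_nil, or_false] at hx
    rcases hx with rfl | rfl | rfl | rfl | rfl | rfl | rfl | rfl | rfl | rfl | rfl | rfl |
      rfl | rfl
    all_goals
      simp only
      omega
  · rw [List.mem_singleton] at hx
    subst hx
    simp only
    omega

theorem step_le (m : ℕ) (G : KG) (h : ∀ e ∈ G, e.2 ≤ m + 3) :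
    ∀ n, ∀ e ∈ stepFrom m n G, e.2 ≤ m + 2 := by
  induction G with
  | nil =>
    intro n e he
    exact absurd he (List.not_mem_nil)
  | cons e0 G ih =>
    intro n e he
    have he' : e ∈ blk m n e0 ++ stepFrom m (n + 1) G := he
    rcases List.mem_append.1 he' with h1 | h1
    · exact blk_le m n e0 (h e0 List.mem_cons_self) e h1
    · exact ih (fun e he => h e (List.mem_cons_of_mem _ he)) (n + 1) e h1

theorem perm_two {α : Type} {A B C D E : List α} {a b : α} (h1 : A.Perm (a :: D))
    (h2 : B.Perm (b :: E)) : (A ++ (B ++ C)).Perm (a :: b :: (D ++ (E ++ C))) := by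
  refine (h1.append (h2.append_right C)).trans ?_
  show (a :: (D ++ (b :: (E ++ C)))).Perm _
  exact List.Perm.cons a List.perm_middle

theorem exP_step {m : ℕ} (H : ExP (m + 2)) : ExP (m + 3) := by
  intro e f R v he hf hev hfv hle h1 h2
  obtain ⟨e', D, pe, e2, ea, eb⟩ := sel m 0 e v he hev
  obtain ⟨f', E, pf, f2, fa, fb⟩ := sel m 1 f v hf hfv
  have le1 := blk_le m 0 e (hle e (by simp))
  have le2 := blk_le m 1 f (hle f (by simp))
  have le3 := step_le m R (fun x hx => hle x (by simp [hx])) 2
  have b0 := blk_ok m 0 e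
  have b1 := blk_ok m 1 f
  have b2 := blks_step m R 2
  have k0 : KG.HasFC (e' :: f' :: (D ++ (E ++ stepFrom m 2 R))) ↔ KG.HasFC (e :: f :: R) := by
    rw [← hasFC_perm (perm_two pe pf)]
    exact (Blks.cons b0 (Blks.cons b1 b2)).hasFC
  have k1 : KG.HasFC (low e' :: f' :: (D ++ (E ++ stepFrom m 2 R))) ↔
      KG.HasFC (low e :: f :: R) := by
    rw [← hasFC_perm (perm_two (List.Perm.refl (low e' :: D)) pf)]
    exact (Blks.cons eb (Blks.cons b1 b2)).hasFC
  have k2 : KG.HasFC (e' :: low f' :: (D ++ (E ++ stepFrom m 2 R))) ↔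
      KG.HasFC (e :: low f :: R) := by
    rw [← hasFC_perm (perm_two pe (List.Perm.refl (low f' :: E)))]
    exact (Blks.cons b0 (Blks.cons fb b2)).hasFC
  rw [← k1] at h1
  rw [← k2] at h2
  rw [← k0]
  refine H e' f' _ (9 * v) e2 f2 ea fa ?_ h1 h2
  intro x hx
  have hx' : x ∈ blk m 0 e ++ (blk m 1 f ++ stepFrom m 2 R) :=
    (perm_two (C := stepFrom m 2 R) pe pf).mem_iff.2 hx
  rcases List.mem_append.1 hx' with h | h
  · exact le1 x h
  · rcases List.mem_append.1 h with h | h
    · exact le2 x h
    · exact le3 x h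

/-- Edges of weight `0` may be deleted. -/
theorem real_clean (G : KG) : ∀ β : Bd,
    RealP PK (G.filter (fun x => decide (x.2 ≠ 0))) β ↔ RealP PK G β := by
  induction G with
  | nil => exact fun β => Iff.rfl
  | cons e G ih =>
    intro β
    by_cases h : e.2 = 0
    · rw [List.filter_cons_of_neg (by simp [h]), ih]
      have h0 : bdE e.1 ∅ = 0 := by
        funext v c
        simp [bdE]
      constructor
      · intro h1
        refine ⟨∅, ?_, ?_⟩
        · show (∅ : Finset ℕ).card = e.2
          rw [h]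
          rfl
        · rw [h0, add_zero]
          exact h1
      · rintro ⟨S, hS, h1⟩
        have h2 : S.card = e.2 := hS
        rw [h, Finset.card_eq_zero] at h2
        rw [h2, h0, add_zero] at h1
        exact h1
    · rw [List.filter_cons_of_pos (by simp [h])]
      constructor
      · rintro ⟨S, hS, h1⟩
        exact ⟨S, hS, (ih _).1 h1⟩
      · rintro ⟨S, hS, h1⟩
        exact ⟨S, hS, (ih _).2 h1⟩

theorem hasFC_clean (G : KG) :
    KG.HasFC (G.filter (fun x => decide (x.2 ≠ 0))) ↔ KG.HasFC G := by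
  rw [hasFC_iff_real, hasFC_iff_real]
  exact real_clean G 0

theorem exP_two (H : Exchange) : ExP 2 := by
  intro e f R v he hf hev hfv hle h1 h2
  have he2 : e.2 = 2 := by
    have := hle e (by simp)
    omega
  have hf2 : f.2 = 2 := by
    have := hle f (by simp)
    omega
  set R' := R.filter (fun x => decide (x.2 ≠ 0)) with hR'
  have hw : ∀ x ∈ R', 1 ≤ x.2 ∧ x.2 ≤ 2 := by
    intro x hx
    rw [hR', List.mem_filter] at hx
    have h3 := hle x (by simp [hx.1])
    have h4 : x.2 ≠ 0 := by simpa using hx.2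
    omega
  have c0 : KG.HasFC (e :: f :: R') ↔ KG.HasFC (e :: f :: R) := by
    rw [← hasFC_clean (e :: f :: R), List.filter_cons_of_pos (by simp [he2]),
      List.filter_cons_of_pos (by simp [hf2])]
  have c1 : KG.HasFC (f :: R') ↔ KG.HasFC (low e :: f :: R) := by
    rw [← hasFC_clean (low e :: f :: R), List.filter_cons_of_neg (by simp [low, he2]),
      List.filter_cons_of_pos (by simp [hf2])]
  have c2 : KG.HasFC (e :: R') ↔ KG.HasFC (e :: low f :: R) := by
    rw [← hasFC_clean (e :: low f :: R), List.filter_cons_of_pos (by simp [he2]),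
      List.filter_cons_of_neg (by simp [low, hf2])]
  rw [← c0, ← toWG_hasFCC (by
    intro x hx
    rcases List.mem_cons.1 hx with rfl | hx
    · omega
    · rcases List.mem_cons.1 hx with rfl | hx
      · omega
      · exact hw x hx)]
  rw [← c1, ← toWG_hasFCC (by
    intro x hx
    rcases List.mem_cons.1 hx with rfl | hx
    · omega
    · exact hw x hx)] at h1
  rw [← c2, ← toWG_hasFCC (by
    intro x hx
    rcases List.mem_cons.1 hx with rfl | hx
    · omega
    · exact hw x hx)] at h2
  have g : toWG (e :: f :: R') = (e.1, true) :: (f.1, true) :: toWG R' := by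
    unfold toWG
    simp [he2, hf2]
  have g1 : toWG (f :: R') = (f.1, true) :: toWG R' := by
    unfold toWG
    simp [hf2]
  have g2 : toWG (e :: R') = (e.1, true) :: toWG R' := by
    unfold toWG
    simp [he2]
  rw [g]
  rw [g1] at h1
  rw [g2] at h2
  refine H _ 0 1 (by norm_num) rfl rfl ⟨v, ?_, ?_⟩ h1 h2
  · show ends (e.1, true) v ≠ 0
    unfold ends
    rcases hev with h | h <;> simp [h]
  · show ends (f.1, true) v ≠ 0
    unfold ends
    rcases hfv with h | h <;> simp [h]

theorem exP_all (H : Exchange) : ∀ m, ExP (m + 2) := by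
  intro m
  induction m with
  | zero => exact exP_two H
  | succ m ih => exact exP_step ih

theorem pick {α : Type} (g : α → α) : ∀ (l : List α) (i : ℕ) (a : α), l[i]? = some a →
    ∃ A B, l = A ++ a :: B ∧ A.length = i ∧ l.modify i g = A ++ g a :: B := by
  intro l
  induction l with
  | nil =>
    intro i a h
    simp at h
  | cons x l ih =>
    intro i a h
    cases i with
    | zero =>
      simp only [List.getElem?_cons_zero, Option.some.injEq] at h
      subst h
      exact ⟨[], l, rfl, rfl, by simp⟩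
    | succ i =>
      rw [List.getElem?_cons_succ] at h
      obtain ⟨A, B, h1, h2, h3⟩ := ih i a h
      refine ⟨x :: A, B, by rw [h1]; rfl, by rw [List.length_cons, h2], ?_⟩
      rw [List.modify_succ_cons, h3]
      rfl

theorem modify_right {α : Type} (g : α → α) (A B : List α) (k : ℕ) :
    (A ++ B).modify (A.length + k) g = A ++ B.modify k g := by
  induction A with
  | nil => simp
  | cons x A ih =>
    rw [List.length_cons, show A.length + 1 + k = (A.length + k) + 1 by omega,
      List.cons_append, List.modify_succ_cons, ih]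
    rfl

theorem exchangeW_lt (H : Exchange) (G : KG) (i j : ℕ) (hij : i < j) (hi : 2 ≤ KG.wt G i)
    (hj : 2 ≤ KG.wt G j) (ha : (KG.shape G).Adjacent i j) (h1 : KG.HasFC (KG.dec G i))
    (h2 : KG.HasFC (KG.dec G j)) : KG.HasFC G := by
  have hge : ∀ k, 2 ≤ KG.wt G k → ∃ e, G[k]? = some e ∧ 2 ≤ e.2 := by
    intro k hk
    unfold KG.wt at hk
    cases h : G[k]? with
    | none =>
      rw [h] at hk
      simp at hk
    | some e =>
      rw [h] at hk
      exact ⟨e, rfl, hk⟩
  obtain ⟨e, he, he2⟩ := hge i hi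
  obtain ⟨f, hf, hf2⟩ := hge j hj
  obtain ⟨v, hv1, hv2⟩ := ha
  have hsh : ∀ k x, G[k]? = some x → (KG.shape G).endsAt k v ≠ 0 → At x v := by
    intro k x hx hne
    unfold KG.shape WG.endsAt at hne
    rw [List.getElem?_map, hx] at hne
    by_contra hcon
    unfold At at hcon
    push Not at hcon
    apply hne
    show ends (x.1, false) v = 0
    unfold ends
    rw [if_neg hcon.1, if_neg hcon.2]
  have hev := hsh i e he hv1
  have hfv := hsh j f hf hv2
  obtain ⟨A, B, g1, g2, g3⟩ := pick low G i e he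
  obtain ⟨k, rfl⟩ : ∃ k, j = i + (k + 1) := ⟨j - i - 1, by omega⟩
  have hf' : B[k]? = some f := by
    rw [g1, ← g2, List.getElem?_append_right (by omega)] at hf
    rw [show A.length + (k + 1) - A.length = k + 1 by omega, List.getElem?_cons_succ] at hf
    exact hf
  obtain ⟨B1, B2, b1, b2, b3⟩ := pick low B k f hf'
  have d1 : KG.dec G i = A ++ low e :: (B1 ++ f :: B2) := by
    rw [← b1]
    exact g3
  have d2 : KG.dec G (i + (k + 1)) = A ++ e :: (B1 ++ low f :: B2) := by
    show G.modify (i + (k + 1)) low = _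
    rw [← b3]
    conv_lhs => rw [g1]
    rw [← g2, modify_right, List.modify_succ_cons]
  have p : ∀ x y : (ℕ × ℕ) × ℕ,
      (A ++ x :: (B1 ++ y :: B2)).Perm (x :: y :: (A ++ (B1 ++ B2))) := by
    intro x y
    refine List.perm_middle.trans (List.Perm.cons x ?_)
    rw [← List.append_assoc, ← List.append_assoc]
    exact List.perm_middle
  rw [d1, hasFC_perm (p _ _)] at h1
  rw [d2, hasFC_perm (p _ _)] at h2
  rw [g1, b1, hasFC_perm (p _ _)]
  obtain ⟨M, hM⟩ : ∃ M, ∀ x ∈ e :: f :: (A ++ (B1 ++ B2)), x.2 ≤ M + 2 := by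
    generalize e :: f :: (A ++ (B1 ++ B2)) = L
    clear * -
    induction L with
    | nil => exact ⟨0, by simp⟩
    | cons y L ih =>
      obtain ⟨M, hM⟩ := ih
      refine ⟨M + y.2, fun x hx => ?_⟩
      rcases List.mem_cons.1 hx with rfl | hx
      · omega
      · have := hM x hx
        omega
  exact exP_all H M e f _ v he2 hf2 hev hfv hM h1 h2

/-- The exchange property for arbitrary weights. -/
theorem exchangeW (H : Exchange) : ExchangeW := by
  intro G i j hij hi hj ha h1 h2
  rcases Nat.lt_or_gt_of_ne hij with h | h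
  · exact exchangeW_lt H G i j h hi hj ha h1 h2
  · obtain ⟨v, hv1, hv2⟩ := ha
    exact exchangeW_lt H G j i h hj hi ⟨v, hv2, hv1⟩ h2 h1

end Pool.Agent.W_c81d44_h88
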