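import Pool.Agent.W_c81d44_h88.Rail2

/-!
# Circuits
-/

set_option autoImplicit false

namespace Pool.Agent.W_c81d44_h88

open Pool.Agent.W_c81d44_h82

/-- The values of the wires of a NAND circuit.  The gates are given by the pairs of their input
wires; the first gate of the list has the output wire `m`, the next one `m + 1` and so on. -/
def evalC : List (ℕ × ℕ) → ℕ → (ℕ → Bool) → ℕ → Bool
  | [], _, v => v
  | g :: C, m, v => evalC C (m + 1) (Function.update v m (!(v g.1 && v g.2)))

/-- Every gate reads wires defined before. -/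
def WFC : List (ℕ × ℕ) → ℕ → Prop
  | [], _ => True
  | g :: C, m => g.1 < m ∧ g.2 < m ∧ WFC C (m + 1)

/-- Two rails for every wire: one is forced if the value is true, the other one if it is
false. -/
def valOf (v : ℕ → Bool) (j : ℕ) : Bool := if j % 2 = 0 then v (j / 2) else !v (j / 2)

/-- A transformation of graphs with rails which does not depend on the values. -/
def US (N k : ℕ) (env : ℕ → ℕ × ℕ) (N' k' : ℕ) (env' : ℕ → ℕ × ℕ) (L : WG ℕ)
    (F : (ℕ → Bool) → ℕ → Bool) : Prop :=
  ∀ (C : Prop) (G : WG ℕ) (val : ℕ → Bool), Good C G N k env val →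
    Good C (G ++ L) N' k' env' (F val)

theorem US.trans {N k N1 k1 N2 k2 : ℕ} {env env1 env2 : ℕ → ℕ × ℕ} {L1 L2 : WG ℕ}
    {F1 F2 : (ℕ → Bool) → ℕ → Bool} (h1 : US N k env N1 k1 env1 L1 F1)
    (h2 : US N1 k1 env1 N2 k2 env2 L2 F2) :
    US N k env N2 k2 env2 (L1 ++ L2) (fun val => F2 (F1 val)) := by
  intro C G val h
  rw [← List.append_assoc]
  exact h2 C _ _ (h1 C G val h)

theorem us_tap (N : ℕ) {k : ℕ} (env : ℕ → ℕ × ℕ) {i : ℕ} (hi : i < k) :
    US N k env (N + 12 + 10) (k + 1)
      (Function.update (Function.update env i (N + 12, N + 12 + 1)) k (N, N + 1))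
      (tapG N (env i).1 (env i).2) (fun val => Function.update val k (val i)) :=
  fun _ _ _ h => h.tap hi

theorem us_merge (N k : ℕ) (env : ℕ → ℕ × ℕ) :
    US N (k + 1 + 1) env (N + 16) (k + 1) (Function.update env k (N, N + 1))
      (merge (N + 2) (env k).1 (env k).2 (env (k + 1)).1 (env (k + 1)).2 N (N + 1))
      (fun val => Function.update val k (val k || val (k + 1))) :=
  fun _ _ _ h => Good.merge (k := k) h

theorem us_join (N k : ℕ) (env : ℕ → ℕ × ℕ) :
    US N (k + 1 + 1) env N (k + 1) (Function.update env k ((env k).1, (env (k + 1)).2))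
      [(((env k).2, (env (k + 1)).1), false)]
      (fun val => Function.update val k (val k && val (k + 1))) :=
  fun _ _ _ h => Good.join (k := k) h

theorem length_tapG (N p q : ℕ) : (tapG N p q).length = 30 := rfl

theorem length_merge (M p q u v e f : ℕ) : (merge M p q u v e f).length = 24 := rfl

theorem gate_val (val : ℕ → Bool) {k i i' j j' : ℕ} (hi' : i' < k) (hj : j < k)
    (hj' : j' < k) (n : ℕ) (hn : n < k + 2) (val1 val2 val3 val4 val5 val6 : ℕ → Bool)
    (h1 : val1 = Function.update val k (val i))
    (h2 : val2 = Function.update val1 (k + 1) (val1 i'))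
    (h3 : val3 = Function.update val2 k (val2 k || val2 (k + 1)))
    (h4 : val4 = Function.update val3 (k + 1) (val3 j))
    (h5 : val5 = Function.update val4 (k + 1 + 1) (val4 j'))
    (h6 : val6 = Function.update val5 (k + 1) (val5 (k + 1) && val5 (k + 1 + 1))) :
    val6 n = if n = k then (val i || val i') else if n = k + 1 then (val j && val j')
      else val n := by
  have a1 : ∀ t, t ≠ k → val1 t = val t := fun t ht => by
    rw [h1, Function.update_of_ne ht]
  have a1' : val1 k = val i := by rw [h1, Function.update_self]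
  have a2 : ∀ t, t ≠ k + 1 → val2 t = val1 t := fun t ht => by
    rw [h2, Function.update_of_ne ht]
  have a2' : val2 (k + 1) = val1 i' := by rw [h2, Function.update_self]
  have a3 : ∀ t, t ≠ k → val3 t = val2 t := fun t ht => by
    rw [h3, Function.update_of_ne ht]
  have a3' : val3 k = (val2 k || val2 (k + 1)) := by rw [h3, Function.update_self]
  have a4 : ∀ t, t ≠ k + 1 → val4 t = val3 t := fun t ht => by
    rw [h4, Function.update_of_ne ht]
  have a4' : val4 (k + 1) = val3 j := by rw [h4, Function.update_self]
  have a5 : ∀ t, t ≠ k + 1 + 1 → val5 t = val4 t := fun t ht => by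
    rw [h5, Function.update_of_ne ht]
  have a5' : val5 (k + 1 + 1) = val4 j' := by rw [h5, Function.update_self]
  have a6 : ∀ t, t ≠ k + 1 → val6 t = val5 t := fun t ht => by
    rw [h6, Function.update_of_ne ht]
  have a6' : val6 (k + 1) = (val5 (k + 1) && val5 (k + 1 + 1)) := by
    rw [h6, Function.update_self]
  by_cases hnk : n = k
  · rw [if_pos hnk, hnk, a6 k (by omega), a5 k (by omega), a4 k (by omega), a3', a2 k (by omega),
      a1', a2', a1 i' (by omega)]
  · rw [if_neg hnk]
    by_cases hnk' : n = k + 1
    · rw [if_pos hnk', hnk', a6', a5 (k + 1) (by omega), a4', a5', a4 j' (by omega),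
        a3 j (by omega), a3 j' (by omega), a2 j (by omega), a2 j' (by omega), a1 j (by omega),
        a1 j' (by omega)]
    · rw [if_neg hnk', a6 n hnk', a5 n (by omega), a4 n hnk', a3 n hnk, a2 n hnk', a1 n hnk]

/-- One gate. -/
theorem gate_step (N m : ℕ) (env : ℕ → ℕ × ℕ) {a b : ℕ} (ha : a < m) (hb : b < m) :
    ∃ (L : WG ℕ) (N' : ℕ) (env' : ℕ → ℕ × ℕ), L.length = 145 ∧
      ∀ (C : Prop) (G : WG ℕ) (v : ℕ → Bool), Good C G N (2 * m) env (valOf v) →
        Good C (G ++ L) N' (2 * (m + 1)) env'
          (valOf (Function.update v m (!(v a && v b)))) := by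
  have u1 := us_tap N (k := 2 * m) env (i := 2 * a + 1) (by omega)
  have u2 := u1.trans (us_tap _ (k := 2 * m + 1) _ (i := 2 * b + 1) (by omega))
  have u3 := u2.trans (us_merge _ (2 * m) _)
  have u4 := u3.trans (us_tap _ (k := 2 * m + 1) _ (i := 2 * a) (by omega))
  have u5 := u4.trans (us_tap _ (k := 2 * m + 1 + 1) _ (i := 2 * b) (by omega))
  have u6 := u5.trans (us_join _ (2 * m + 1) _)
  refine ⟨_, _, _, ?_, fun C G v h => (u6 C G (valOf v) h).congr (fun _ _ => rfl) ?_⟩
  · simp only [List.length_append, length_tapG, length_merge, List.length_cons, List.length_nil]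
  · intro n hn
    refine Eq.trans (gate_val (valOf v) (k := 2 * m) (i := 2 * a + 1) (i' := 2 * b + 1)
      (j := 2 * a) (j' := 2 * b) (by omega) (by omega) (by omega) n hn _ _ _ _ _ _ rfl rfl
      rfl rfl rfl rfl) ?_
    unfold valOf
    by_cases h1 : n = 2 * m
    · subst h1
      have e1 : (2 * a + 1) % 2 = 1 := by omega
      have e2 : (2 * b + 1) % 2 = 1 := by omega
      have e3 : (2 * a + 1) / 2 = a := by omega
      have e4 : (2 * b + 1) / 2 = b := by omega
      have e5 : 2 * m % 2 = 0 := by omega
      have e6 : 2 * m / 2 = m := by omega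
      simp only [e1, e2, e3, e4, e5, e6, if_true, Function.update_self]
      cases v a <;> cases v b <;> rfl
    · by_cases h2 : n = 2 * m + 1
      · subst h2
        have e1 : 2 * a % 2 = 0 := by omega
        have e2 : 2 * b % 2 = 0 := by omega
        have e3 : 2 * a / 2 = a := by omega
        have e4 : 2 * b / 2 = b := by omega
        have e5 : (2 * m + 1) % 2 = 1 := by omega
        have e6 : (2 * m + 1) / 2 = m := by omega
        have e7 : 2 * m + 1 ≠ 2 * m := by omega
        simp only [e1, e2, e3, e4, e5, e6, e7, if_true, Function.update_self]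
        cases v a <;> cases v b <;> rfl
      · have e1 : n / 2 ≠ m := by omega
        rw [if_neg h1, if_neg h2, Function.update_of_ne e1]

/-- All gates. -/
theorem circuit_step (gs : List (ℕ × ℕ)) : ∀ (N m : ℕ) (env : ℕ → ℕ × ℕ), WFC gs m →
    ∃ (L : WG ℕ) (N' : ℕ) (env' : ℕ → ℕ × ℕ), L.length = 145 * gs.length ∧
      ∀ (C : Prop) (G : WG ℕ) (v : ℕ → Bool), Good C G N (2 * m) env (valOf v) →
        Good C (G ++ L) N' (2 * (m + gs.length)) env' (valOf (evalC gs m v)) := by
  induction gs with
  | nil =>
    intro N m env _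
    exact ⟨[], N, env, rfl, fun C G v h => by
      rw [List.append_nil]
      exact h⟩
  | cons g gs ih =>
    intro N m env hW
    obtain ⟨L1, N1, env1, l1, h1⟩ := gate_step N m env hW.1 hW.2.1
    obtain ⟨L2, N2, env2, l2, h2⟩ := ih N1 (m + 1) env1 hW.2.2
    refine ⟨L1 ++ L2, N2, env2, ?_, fun C G v h => ?_⟩
    · rw [List.length_append, l1, l2, List.length_cons]
      ring
    · have h3 := h2 C _ _ (h1 C G v h)
      rw [List.append_assoc] at h3
      have e : 2 * (m + (g :: gs).length) = 2 * (m + 1 + gs.length) := by
        rw [List.length_cons]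
        ring
      rw [e]
      exact h3

/-- The sources. -/
theorem input_step (n : ℕ) :
    ∃ (T : List ((ℕ → Bool) → (ℕ × ℕ) × Bool)) (N : ℕ) (env : ℕ → ℕ × ℕ), T.length = 4 * n ∧
      (∀ t ∈ T, ∃ i < n, ∀ x y : ℕ → Bool, x i = y i → t x = t y) ∧
      ∀ x : ℕ → Bool, Good True (T.map (fun t => t x)) N (2 * n) env (valOf x) := by
  induction n with
  | zero =>
    refine ⟨[], 1, fun _ => (0, 0), rfl, by simp, fun x => ?_⟩
    exact good_nil _ _
  | succ n ih =>
    obtain ⟨T, N, env, h1, h2, h3⟩ := ih
    refine ⟨T ++ [fun x => ((N, if x n then N + 2 else 0), false),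
      fun x => ((N + 1, if x n then N + 2 else 0), false),
      fun x => ((N + 3, if !x n then N + 3 + 2 else 0), false),
      fun x => ((N + 3 + 1, if !x n then N + 3 + 2 else 0), false)], N + 3 + 3,
      Function.update (Function.update env (2 * n) (N, N + 1)) (2 * n + 1) (N + 3, N + 3 + 1),
      ?_, ?_, fun x => ?_⟩
    · rw [List.length_append, h1]
      simp only [List.length_cons, List.length_nil]
      ring
    · intro t ht
      rcases List.mem_append.1 ht with ht | ht
      · obtain ⟨i, hi, h4⟩ := h2 t ht
        exact ⟨i, by omega, h4⟩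
      · refine ⟨n, by omega, fun x y hxy => ?_⟩
        simp only [List.mem_cons, List.not_mem_nil, or_false] at ht
        rcases ht with rfl | rfl | rfl | rfl <;> simp only [hxy]
    · have h4 := ((h3 x).src (x n)).src (!x n)
      rw [List.map_append]
      have e : List.map (fun t => t x) T ++ src N (x n) ++ src (N + 3) (!x n) =
          List.map (fun t => t x) T ++ List.map (fun t => t x)
            [fun x : ℕ → Bool => ((N, if x n then N + 2 else 0), false),
            fun x => ((N + 1, if x n then N + 2 else 0), false),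
            fun x => ((N + 3, if !x n then N + 3 + 2 else 0), false),
            fun x => ((N + 3 + 1, if !x n then N + 3 + 2 else 0), false)] := by
        rw [List.append_assoc]
        rfl
      rw [← e]
      refine h4.congr (fun _ _ => rfl) (fun j hj => ?_)
      unfold valOf
      by_cases h5 : j = 2 * n + 1
      · subst h5
        have e5 : (2 * n + 1) % 2 = 1 := by omega
        have e6 : (2 * n + 1) / 2 = n := by omega
        rw [Function.update_self, e5, e6]
        rfl
      · rw [Function.update_of_ne h5]
        by_cases h6 : j = 2 * n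
        · subst h6
          have e5 : 2 * n % 2 = 0 := by omega
          have e6 : 2 * n / 2 = n := by omega
          rw [Function.update_self, if_pos e5, e6]
        · rw [Function.update_of_ne h6]

end Pool.Agent.W_c81d44_h88
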