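import Pool.Agent.W_c81d44_h88.Circuit
import Pool.Agent.W_c81d44_h82.Circ2

/-!
# Closing the graph of a circuit
-/

set_option autoImplicit false

namespace Pool.Agent.W_c81d44_h88

open Pool.Agent.W_c81d44_h82

/-- Two light edges to a new vertex. -/
theorem gad_close {N p q : ℕ} (hp : 0 < p ∧ p < N) (hq : 0 < q ∧ q < N) (hpq : p ≠ q) :
    Gadget [((p, N), false), ((q, N), false)] N (N + 1) {p, q} ∅ (fun κ => κ p = κ q) := by
  refine ⟨by omega, ?_, by simp, ?_, ?_, ?_, ?_⟩
  · rintro v (rfl | rfl)
    · exact hp
    · exact hq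
  · intro e he
    simp only [List.mem_cons, List.not_mem_nil, or_false] at he
    rcases he with rfl | rfl <;> simp
  · intro κ κ' h1 _ h
    rw [← h1 p (by simp), ← h1 q (by simp)]
    exact h
  · rintro η ⟨S, hS, S', hS', h⟩ h0
    obtain ⟨x, rfl⟩ := Finset.card_eq_one.1 hS
    obtain ⟨y, rfl⟩ := Finset.card_eq_one.1 hS'
    have h' : η + bdE (p, N) {x} + bdE (q, N) {y} = 0 := h
    simp only [bdE_eq] at h'
    have hs : η = dl p x + dl q y + dl N x + dl N y := by
      linear_combination h' - (dl p x + dl q y + dl N x + dl N y) * two_bd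
    have h2 := h0 N le_rfl (by simp)
    rw [hs] at h2
    simp (disch := omega) only [Pi.add_apply, st_ne, st_self, zero_add] at h2
    have hxy := ch_single_inj (fn_eq h2)
    subst hxy
    refine ⟨fun _ => x, rfl, ?_, by simp⟩
    rintro v (rfl | rfl)
    · rw [hs]
      simp (disch := omega) only [Pi.add_apply, st_ne, st_self, add_zero]
    · rw [hs]
      simp (disch := omega) only [Pi.add_apply, st_ne, st_self, add_zero, zero_add]
  · intro κ h
    refine ⟨dl p (κ p) + dl q (κ q), ⟨{κ p}, rfl, {κ q}, rfl, ?_⟩, ?_, by simp, ?_⟩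
    · show _ = (0 : Bd)
      simp only [bdE_eq, h]
      linear_combination (dl p (κ q) + dl q (κ q) + dl N (κ q)) * two_bd
    · rintro v (rfl | rfl) <;>
        simp (disch := omega) only [Pi.add_apply, st_ne, st_self, add_zero, zero_add]
    · intro v hv hT _
      simp only [Set.mem_insert_iff, Set.mem_singleton_iff, not_or] at hT
      simp (disch := omega) only [Pi.add_apply, st_ne, add_zero]

variable {C : Prop} {G : WG ℕ} {N k : ℕ} {env : ℕ → ℕ × ℕ} {val : ℕ → Bool}

/-- Closing the last rail. -/
theorem Good.close (h : Good C G N (k + 1) env val) :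
    Good C (G ++ [(((env k).1, N), false), (((env k).2, N), false)]) (N + 1) k env val := by
  have a1 := h.lt1 (i := k) (by omega)
  have a2 := h.lt2 (i := k) (by omega)
  have hinj := h.inj
  have hne := (hinj k (by omega) k (by omega)).1
  refine ⟨(glue h.pole (gad_close a1 a2 hne) ?_).congr ?_ ?_, ?_⟩
  · rintro v (rfl | rfl)
    · exact ⟨k, by omega, Or.inl rfl⟩
    · exact ⟨k, by omega, Or.inr rfl⟩
  · ext v
    rw [Set.union_empty, Set.mem_sdiff, mem_oset, mem_oset, Set.mem_insert_iff,
      Set.mem_singleton_iff]
    constructor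
    · rintro ⟨⟨i, hi, h1⟩, h2⟩
      refine ⟨i, ?_, h1⟩
      rcases Nat.lt_or_ge i k with h3 | h3
      · exact h3
      · have h4 : i = k := by omega
        subst h4
        exact absurd h1 h2
    · rintro ⟨i, hi, h1⟩
      refine ⟨⟨i, by omega, h1⟩, ?_⟩
      have b1 := hinj i (by omega) k (by omega)
      have b2 := hinj k (by omega) i (by omega)
      have b3 := b1.2 (by omega)
      rcases h1 with rfl | rfl
      · exact fun h => h.elim b3.1 b1.1
      · exact fun h => h.elim (fun h => b2.1 h.symm) b3.2
  · intro κ
    constructor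
    · rintro ⟨κ0, h1, _, ⟨hC, h3⟩, h4⟩
      refine ⟨hC, fun i hi hv => ?_⟩
      have b1 := hinj i (by omega) k (by omega)
      have b2 := hinj k (by omega) i (by omega)
      have b3 := b1.2 (by omega)
      rw [← h1 _ ⟨⟨i, by omega, Or.inl rfl⟩, fun h => h.elim b3.1 b1.1⟩,
        ← h1 _ ⟨⟨i, by omega, Or.inr rfl⟩, fun h => h.elim (fun h => b2.1 h.symm) b3.2⟩]
      exact h3 i (by omega) hv
    · rintro ⟨hC, h1⟩
      refine ⟨Function.update κ (env k).2 (κ (env k).1), ?_, by simp, ⟨hC, ?_⟩, ?_⟩
      · rintro v ⟨_, hv⟩
        exact Function.update_of_ne (fun h => hv (Or.inr h)) _ _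
      · intro i hi hv
        have b1 := hinj i (by omega) k (by omega)
        rw [Function.update_of_ne b1.1]
        by_cases hik : i = k
        · rw [hik, Function.update_self]
        · have b3 := b1.2 hik
          rw [Function.update_of_ne b3.2]
          exact h1 i (by omega) hv
      · rw [Function.update_self, Function.update_of_ne hne]
  · intro i hi j hj
    exact hinj i (by omega) j (by omega)

/-- The edges from the rails to the hub. -/
def dropG : ℕ → (ℕ → ℕ × ℕ) → WG ℕ
  | 0, _ => []
  | k + 1, env => [(((env k).1, 0), false), (((env k).2, 0), false)] ++ dropG k env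

theorem length_dropG (k : ℕ) (env : ℕ → ℕ × ℕ) : (dropG k env).length = 2 * k := by
  induction k with
  | zero => rfl
  | succ k ih =>
    rw [dropG, List.length_append, ih]
    simp only [List.length_cons, List.length_nil]
    ring

theorem Good.dropAll : ∀ {k : ℕ} {G : WG ℕ}, Good C G N k env val →
    Good C (G ++ dropG k env) N 0 env val := by
  intro k
  induction k with
  | zero =>
    intro G h
    rw [dropG, List.append_nil]
    exact h
  | succ k ih =>
    intro G h
    rw [dropG, ← List.append_assoc]
    exact ih h.drop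

theorem Good.col (h : Good C G N 0 env val) : G.Col ↔ C := by
  have hO : Oset 0 env = ∅ := by
    ext v
    rw [mem_oset]
    simp
  have h1 := h.pole
  rw [hO] at h1
  rw [h1.col]
  constructor
  · rintro ⟨_, hC, _⟩
    exact hC
  · intro hC
    exact ⟨fun _ => 0, hC, fun i hi => absurd hi (Nat.not_lt_zero _)⟩

theorem realP_insert {P : (ℕ × ℕ) × Bool → Finset ℕ → Prop} {A D : WG ℕ} {β : Bd}
    (h : RealP P (A ++ D) β) (e : (ℕ × ℕ) × Bool) (he : P e ∅) : RealP P (A ++ [e] ++ D) β := by
  obtain ⟨γ, h1, h2⟩ := (realP_append _ _ _).1 h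
  refine (realP_append _ _ _).2 ⟨γ, (realP_append _ _ _).2 ⟨γ, h1, ∅, he, ?_⟩, h2⟩
  show _ = (0 : Bd)
  rw [bd_self, zero_add]
  funext v c
  simp [bdE]

theorem realP_empty {P : (ℕ × ℕ) × Bool → Finset ℕ → Prop} {A : WG ℕ}
    (h : ∀ e ∈ A, P e ∅) : RealP P A 0 := by
  induction A with
  | nil => rfl
  | cons e A ih =>
    refine ⟨∅, h e List.mem_cons_self, ?_⟩
    have e1 : (0 : Bd) + bdE e.1 ∅ = 0 := by
      funext v c
      simp [bdE]
    rw [e1]
    exact ih fun e he => h e (List.mem_cons_of_mem _ he)

theorem bdE_empty (e : ℕ × ℕ) : bdE e ∅ = 0 := by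
  funext v c
  simp [bdE]

/-- A closed trail through the test edge. -/
theorem loc_cycle (N p q : ℕ) :
    RealP (fun e S => e = ((N + 22, 0), true) → S.Nonempty)
      (tapG N p q ++ [((N, N + 22), false), ((N + 1, N + 22), false), ((N + 22, 0), true)]) 0 := by
  refine ⟨{1}, fun he => absurd he (by simp), ∅, fun he => absurd he (by simp),
    ∅, fun he => absurd he (by simp), ∅, fun he => absurd he (by simp),
    {1}, fun he => absurd he (by simp), {1}, fun he => absurd he (by simp),
    ∅, fun he => absurd he (by simp), ∅, fun he => absurd he (by simp),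
    ∅, fun he => absurd he (by simp), ∅, fun he => absurd he (by simp),
    ∅, fun he => absurd he (by simp), {1}, fun he => absurd he (by simp),
    ∅, fun he => absurd he (by simp), {1}, fun he => absurd he (by simp),
    ∅, fun he => absurd he (by simp), {1}, fun he => absurd he (by simp),
    ∅, fun he => absurd he (by simp), ∅, fun he => absurd he (by simp),
    ∅, fun he => absurd he (by simp), ∅, fun he => absurd he (by simp),
    ∅, fun he => absurd he (by simp), ∅, fun he => absurd he (by simp),
    ∅, fun he => absurd he (by simp), ∅, fun he => absurd he (by simp),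
    {1}, fun he => absurd he (by simp), ∅, fun he => absurd he (by simp),
    {1}, fun he => absurd he (by simp), ∅, fun he => absurd he (by simp),
    ∅, fun he => absurd he (by simp), ∅, fun he => absurd he (by simp),
    {1}, fun he => absurd he (by simp), ∅, fun he => absurd he (by simp),
    {1}, fun _ => ⟨1, by simp⟩, ?_⟩
  show _ = (0 : Bd)
  simp only [bdE_empty, bdE_eq, add_zero, zero_add]
  linear_combination (dl N 1 + dl (N + 22) 1 + dl (N + 4 + 1) 1 + dl (N + 4) 1 + dl (N + 4 + 2) 1 +
    dl (N + 4 + 4) 1 + dl (N + 2) 1 + dl (N + 12 + 2) 1 + dl (N + 12 + 2 + 1) 1 + dl 0 1) * two_bd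

theorem mem_dropG {k : ℕ} {env : ℕ → ℕ × ℕ} {e : (ℕ × ℕ) × Bool} (h : e ∈ dropG k env) :
    e.2 = false := by
  induction k with
  | zero => simp [dropG] at h
  | succ k ih =>
    rw [dropG, List.mem_append] at h
    rcases h with h | h
    · simp only [List.mem_cons, List.not_mem_nil, or_false] at h
      rcases h with rfl | rfl <;> rfl
    · exact ih h

/-- The closed graph of a graph with rails: a copy of the rail `i` is tested, all rails are
dropped. -/
def closeG (G : WG ℕ) (N k : ℕ) (env : ℕ → ℕ × ℕ) (i : ℕ) : WG ℕ :=
  G ++ tapG N (env i).1 (env i).2 ++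
    [((N, N + 22), false), ((N + 1, N + 22), false), ((N + 22, 0), true)] ++
    dropG k (Function.update (Function.update env i (N + 12, N + 12 + 1)) k (N, N + 1))

theorem closeG_col (h : Good True G N k env val) {i : ℕ} (hi : i < k) :
    (closeG G N k env i).Col ↔ val i = false := by
  have h1 := (h.tap hi).check.dropAll.col
  rw [Function.update_self, Function.update_self] at h1
  unfold closeG
  rw [true_and] at h1
  exact h1

theorem closeG_valid (h : Good True G N k env val) {i : ℕ} (hi : i < k) :
    (closeG G N k env i).Bridgeless ∧ (closeG G N k env i).Eulerian := by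
  have hN := h.pole.pos
  have hlt := h.pole.lt
  -- a cover of the graph without the test edge
  have h1 := (col_iff_real _).1 ((h.tap hi).close.dropAll.col.2 trivial)
  rw [Function.update_self] at h1
  obtain ⟨T, hT⟩ : ∃ T : (ℕ × ℕ) × Bool, T = ((N + 22, 0), true) := ⟨_, rfl⟩
  have hGT : ∀ e ∈ G, e ≠ T := by
    rintro e he rfl
    have h2 := (hlt _ he).1
    rw [hT] at h2
    simp only at h2
    omega
  have htapT : ∀ e ∈ tapG N (env i).1 (env i).2, e ≠ T := by
    rintro e he rfl
    rw [hT] at he
    simp [tapG, piece] at he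
  have hR1 : RealP (fun e S => if e = T then S = ∅ else PW e S) (closeG G N k env i) 0 := by
    unfold closeG
    have h2 : G ++ tapG N (env i).1 (env i).2 ++
        [((N, N + 22), false), ((N + 1, N + 22), false), ((N + 22, 0), true)] =
        (G ++ tapG N (env i).1 (env i).2 ++ [((N, N + 22), false), ((N + 1, N + 22), false)]) ++
        [T] := by
      rw [hT, List.append_assoc (G ++ tapG N (env i).1 (env i).2)]
      rfl
    rw [h2]
    refine realP_insert (realP_mono (fun e he S hS => ?_) h1) T (by simp)
    rw [if_neg]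
    · exact hS
    · rintro rfl
      rw [List.mem_append, List.mem_append, List.mem_append] at he
      rcases he with ((he | he) | he) | he
      · exact hGT _ he rfl
      · exact htapT _ he rfl
      · rw [hT] at he
        simp at he
      · have := mem_dropG he
        rw [hT] at this
        exact absurd this (by simp)
  have hR2 : RealP (fun e S => e = T → S.Nonempty) (closeG G N k env i) 0 := by
    unfold closeG
    rw [List.append_assoc G]
    refine (realP_append _ _ _).2 ⟨0, (realP_append _ _ _).2 ⟨0, ?_, ?_⟩, ?_⟩
    · exact realP_empty fun e he h2 => absurd h2 (hGT e he)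
    · rw [add_zero, hT]
      exact loc_cycle N _ _
    · rw [add_zero]
      refine realP_empty fun e he h2 => ?_
      have := mem_dropG he
      rw [h2, hT] at this
      exact absurd this (by simp)
  constructor
  · refine bridgeless_of_partial _ fun j hj => ?_
    have hj' : (closeG G N k env i)[j]? = some (closeG G N k env i)[j] :=
      List.getElem?_eq_getElem hj
    by_cases hT' : (closeG G N k env i)[j] = T
    · obtain ⟨ψ, p1, p2⟩ := evenP_of hR2
      exact ⟨ψ, p1, p2 j _ hj' hT'⟩
    · obtain ⟨ψ, p1, p2⟩ := evenP_of hR1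
      refine ⟨ψ, p1, ?_⟩
      have h3 := p2 j _ hj'
      rw [if_neg hT'] at h3
      rw [← Finset.card_pos, h3]
      split_ifs <;> norm_num
  · obtain ⟨ψ, p1, p2⟩ := evenP_of hR1
    refine eulerian_of_partial _ ψ p1 (fun j hj => ?_) (fun j hj => ?_)
    · unfold WG.weight at hj
      cases hg : (closeG G N k env i)[j]? with
      | none =>
        rw [hg] at hj
        simp at hj
      | some e =>
        rw [hg] at hj
        have he2 : e.2 = false := by
          by_contra hcon
          rw [Bool.not_eq_false] at hcon
          simp [hcon] at hj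
        have h3 := p2 j e hg
        rw [if_neg (by
          rintro rfl
          rw [hT] at he2
          simp at he2)] at h3
        unfold PW at h3
        rw [he2] at h3
        simpa using h3
    · unfold WG.weight at hj
      cases hg : (closeG G N k env i)[j]? with
      | none =>
        rw [hg] at hj
        simp at hj
      | some e =>
        rw [hg] at hj
        have he2 : e.2 = true := by
          by_contra hcon
          rw [Bool.not_eq_true] at hcon
          simp [hcon] at hj
        have h3 := p2 j e hg
        by_cases he : e = T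
        · rw [if_pos he] at h3
          exact Or.inr h3
        · rw [if_neg he] at h3
          unfold PW at h3
          rw [he2] at h3
          exact Or.inl (by simpa using h3)

/-- The main theorem: circuits are projections of FCC(1,2). -/
theorem projection (n : ℕ) (gs : List (ℕ × ℕ)) (o : ℕ) (hW : WFC gs n) (ho : o < n + gs.length) :
    ∃ T : List ((ℕ → Bool) → (ℕ × ℕ) × Bool),
      T.length = 8 * n + 149 * gs.length + 33 ∧
      (∀ t ∈ T, (∀ x y, t x = t y) ∨ ∃ i < n, ∀ x y : ℕ → Bool, x i = y i → t x = t y) ∧
      ∀ x : ℕ → Bool, WG.Bridgeless (T.map (fun t => t x)) ∧ WG.Eulerian (T.map (fun t => t x)) ∧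
        (WG.HasFCC (T.map (fun t => t x)) ↔ evalC gs n x o = true) := by
  obtain ⟨T, N, env, t1, t2, t3⟩ := input_step n
  obtain ⟨L, N', env', l1, l2⟩ := circuit_step gs N n env hW
  obtain ⟨R, hR⟩ : ∃ R : WG ℕ, R = tapG N' (env' (2 * o + 1)).1 (env' (2 * o + 1)).2 ++
    [((N', N' + 22), false), ((N' + 1, N' + 22), false), ((N' + 22, 0), true)] ++
    dropG (2 * (n + gs.length)) (Function.update (Function.update env' (2 * o + 1)
      (N' + 12, N' + 12 + 1)) (2 * (n + gs.length)) (N', N' + 1)) := ⟨_, rfl⟩
  refine ⟨T ++ (L ++ R).map (fun e (_ : ℕ → Bool) => e), ?_, ?_, fun x => ?_⟩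
  · rw [List.length_append, List.length_map, List.length_append, t1, l1, hR, List.length_append,
      List.length_append, length_tapG, length_dropG]
    simp only [List.length_cons, List.length_nil]
    ring
  · intro t ht
    rcases List.mem_append.1 ht with ht | ht
    · exact Or.inr (t2 t ht)
    · obtain ⟨e, _, rfl⟩ := List.mem_map.1 ht
      exact Or.inl fun _ _ => rfl
  · have hg := l2 True _ x (t3 x)
    have hE : (T ++ (L ++ R).map (fun e (_ : ℕ → Bool) => e)).map (fun t => t x) =
        closeG (T.map (fun t => t x) ++ L) N' (2 * (n + gs.length)) env' (2 * o + 1) := by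
      unfold closeG
      rw [List.map_append, List.map_map, hR]
      have e1 : ((fun t : (ℕ → Bool) → (ℕ × ℕ) × Bool => t x) ∘
          (fun (e : (ℕ × ℕ) × Bool) (_ : ℕ → Bool) => e)) = id := rfl
      rw [e1, List.map_id]
      simp only [List.append_assoc]
    rw [hE]
    have hi : 2 * o + 1 < 2 * (n + gs.length) := by omega
    obtain ⟨v1, v2⟩ := closeG_valid hg hi
    refine ⟨v1, v2, ?_⟩
    rw [hasFCC_iff_col, closeG_col hg hi]
    unfold valOf
    have e5 : (2 * o + 1) % 2 = 1 := by omega
    have e6 : (2 * o + 1) / 2 = o := by omega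
    rw [e5, e6]
    cases evalC gs n x o <;> simp

end Pool.Agent.W_c81d44_h88
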