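import Pool.Agent.W_c81d44_h88.Pole

/-!
# Gluing gadgets to poles
-/

set_option autoImplicit false

namespace Pool.Agent.W_c81d44_h88

open Pool.Agent.W_c81d44_h82

/-- A graph with open vertices `O` (each ends exactly one strand) in which the colours `κ` at the
open vertices can be realised iff `Φ κ`; there is no condition at the hub `0`. -/
structure Pole (G : WG ℕ) (N : ℕ) (O : Set ℕ) (Φ : (ℕ → ℕ) → Prop) : Prop where
  pos : 0 < N
  lt : ∀ e ∈ G, e.1.1 < N ∧ e.1.2 < N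
  olt : ∀ v ∈ O, 0 < v ∧ v < N
  loc : ∀ κ κ' : ℕ → ℕ, (∀ v ∈ O, κ v = κ' v) → Φ κ → Φ κ'
  sound : ∀ β, RealP PW G β → (∀ v, v ≠ 0 → v ∉ O → β v = 0) →
    ∃ κ : ℕ → ℕ, Φ κ ∧ ∀ v ∈ O, β v = ch {κ v}
  compl : ∀ κ, Φ κ → ∃ β, RealP PW G β ∧ (∀ v ∈ O, β v = ch {κ v}) ∧
    ∀ v, v ≠ 0 → v ∉ O → β v = 0

/-- A gadget attached at the open vertices `T`, with new vertices in `[N, N')` and new open
vertices `W`. -/
structure Gadget (H : WG ℕ) (N N' : ℕ) (T W : Set ℕ) (Ψ : (ℕ → ℕ) → Prop) : Prop where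
  le : N ≤ N'
  tlt : ∀ v ∈ T, 0 < v ∧ v < N
  wlt : ∀ v ∈ W, N ≤ v ∧ v < N'
  supp : ∀ e ∈ H, (e.1.1 = 0 ∨ e.1.1 ∈ T ∨ (N ≤ e.1.1 ∧ e.1.1 < N')) ∧
    (e.1.2 = 0 ∨ e.1.2 ∈ T ∨ (N ≤ e.1.2 ∧ e.1.2 < N'))
  loc : ∀ κ κ' : ℕ → ℕ, (∀ v ∈ T, κ v = κ' v) → (∀ v ∈ W, κ v = κ' v) → Ψ κ → Ψ κ'
  sound : ∀ η, RealP PW H η → (∀ v, N ≤ v → v ∉ W → η v = 0) →
    ∃ κ : ℕ → ℕ, Ψ κ ∧ (∀ v ∈ T, η v = ch {κ v}) ∧ ∀ v ∈ W, η v = ch {κ v}
  compl : ∀ κ, Ψ κ → ∃ η, RealP PW H η ∧ (∀ v ∈ T, η v = ch {κ v}) ∧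
    (∀ v ∈ W, η v = ch {κ v}) ∧ ∀ v, v ≠ 0 → v ∉ T → v ∉ W → η v = 0

theorem ch_self (S : Finset ℕ) : ch S + ch S = 0 := by
  funext c
  exact CharTwo.add_self_eq_zero _

theorem fn_eq {f g : ℕ → ZMod 2} (h : f + g = 0) : f = g := by
  funext c
  have := congrFun h c
  exact CharTwo.add_eq_zero.1 this

theorem ch_single_inj {x y : ℕ} (h : ch {x} = ch {y}) : x = y :=
  Finset.singleton_injective (ch_inj h)

theorem glue {G H : WG ℕ} {N N' : ℕ} {O T W : Set ℕ} {Φ Ψ : (ℕ → ℕ) → Prop}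
    (hG : Pole G N O Φ) (hH : Gadget H N N' T W Ψ) (hT : T ⊆ O) :
    Pole (G ++ H) N' ((O \ T) ∪ W) (fun κ => ∃ κ0 : ℕ → ℕ, (∀ v ∈ O \ T, κ0 v = κ v) ∧
      (∀ v ∈ W, κ0 v = κ v) ∧ Φ κ0 ∧ Ψ κ0) := by
  have hNN := hH.le
  have hpos := hG.pos
  have htouch : ∀ v, v ≠ 0 → v < N → v ∉ T → ∀ η, RealP PW H η → η v = 0 := by
    intro v hv hvN hvT η hη
    refine realP_supp (fun e he => ?_) hη
    have h1 := hH.supp e he
    constructor
    · rintro rfl
      rcases h1.1 with h2 | h2 | h2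
      · exact hv h2
      · exact hvT h2
      · omega
    · rintro rfl
      rcases h1.2 with h2 | h2 | h2
      · exact hv h2
      · exact hvT h2
      · omega
  have hbig : ∀ v, N ≤ v → ∀ γ, RealP PW G γ → γ v = 0 := by
    intro v hv γ hγ
    refine realP_supp (fun e he => ?_) hγ
    have h1 := hG.lt e he
    omega
  have hON : ∀ v ∈ O, v < N := fun v hv => (hG.olt v hv).2
  have hWN : ∀ v ∈ W, N ≤ v := fun v hv => (hH.wlt v hv).1
  refine ⟨by omega, ?_, ?_, ?_, ?_, ?_⟩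
  · intro e he
    rcases List.mem_append.1 he with he | he
    · have := hG.lt e he
      omega
    · have h1 := hH.supp e he
      constructor
      · rcases h1.1 with h2 | h2 | h2
        · omega
        · have := hH.tlt _ h2
          omega
        · exact h2.2
      · rcases h1.2 with h2 | h2 | h2
        · omega
        · have := hH.tlt _ h2
          omega
        · exact h2.2
  · rintro v (hv | hv)
    · have := hG.olt v hv.1
      omega
    · have := hH.wlt v hv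
      omega
  · rintro κ κ' h ⟨κ0, h1, h2, h3⟩
    exact ⟨κ0, fun v hv => (h1 v hv).trans (h v (Or.inl hv)),
      fun v hv => (h2 v hv).trans (h v (Or.inr hv)), h3⟩
  · intro β hβ h0
    obtain ⟨γ, hγ, hη⟩ := (realP_append _ _ _).1 hβ
    have e1 : ∀ v, N ≤ v → (β + γ) v = β v := by
      intro v hv
      rw [Pi.add_apply, hbig v hv γ hγ, add_zero]
    obtain ⟨κ1, hΨ, hT1, hW1⟩ := hH.sound (β + γ) hη (by
      intro v hv hvW
      rw [e1 v hv]
      refine h0 v (by omega) ?_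
      rintro (h | h)
      · have := hON v h.1
        omega
      · exact hvW h)
    have e2 : ∀ v, v ≠ 0 → v < N → v ∉ T → γ v = β v := by
      intro v hv hvN hvT
      have h3 := htouch v hv hvN hvT _ hη
      rw [Pi.add_apply] at h3
      exact (fn_eq h3).symm
    obtain ⟨κG, hΦ, hO1⟩ := hG.sound γ hγ (by
      intro v hv hvO
      by_cases hvN : v < N
      · rw [e2 v hv hvN (fun h => hvO (hT h))]
        refine h0 v hv ?_
        rintro (h | h)
        · exact hvO h.1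
        · have := hWN v h
          omega
      · exact hbig v (by omega) γ hγ)
    have e3 : ∀ v ∈ T, κG v = κ1 v := by
      intro v hv
      have hvN := hH.tlt v hv
      have h3 : β v = 0 := by
        refine h0 v (by omega) ?_
        rintro (h | h)
        · exact h.2 hv
        · have := hWN v h
          omega
      have h4 := hT1 v hv
      rw [Pi.add_apply, h3, zero_add, hO1 v (hT hv)] at h4
      exact ch_single_inj h4
    refine ⟨fun v => if v < N then κG v else κ1 v, ⟨fun v => if v < N then κG v else κ1 v,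
      fun _ _ => rfl, fun _ _ => rfl, ?_, ?_⟩, ?_⟩
    · refine hG.loc κG _ (fun v hv => ?_) hΦ
      simp only [if_pos (hON v hv)]
    · refine hH.loc κ1 _ (fun v hv => ?_) (fun v hv => ?_) hΨ
      · simp only [if_pos (hH.tlt v hv).2]
        exact (e3 v hv).symm
      · simp only [if_neg (not_lt.2 (hWN v hv))]
    · rintro v (hv | hv)
      · have h5 := hG.olt v hv.1
        simp only [if_pos h5.2]
        rw [← e2 v (by omega) h5.2 hv.2]
        exact hO1 v hv.1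
      · simp only [if_neg (not_lt.2 (hWN v hv))]
        rw [← e1 v (hWN v hv)]
        exact hW1 v hv
  · rintro κ ⟨κ0, h1, h2, hΦ, hΨ⟩
    obtain ⟨γ, hγ, g1, g2⟩ := hG.compl κ0 hΦ
    obtain ⟨η, hη, t1, t2, t3⟩ := hH.compl κ0 hΨ
    refine ⟨γ + η, (realP_append _ _ _).2 ⟨γ, hγ, ?_⟩, ?_, ?_⟩
    · have e1 : γ + η + γ = η + (γ + γ) := by ring
      rw [e1, bd_self, add_zero]
      exact hη
    · rintro v (hv | hv)
      · have h5 := hG.olt v hv.1
        rw [Pi.add_apply, g1 v hv.1, t3 v (by omega) hv.2 (fun h => by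
          have := hWN v h
          omega), add_zero, h1 v hv]
      · have h5 := hWN v hv
        rw [Pi.add_apply, hbig v h5 γ hγ, zero_add, t2 v hv, h2 v hv]
    · intro v hv hvO
      rw [Pi.add_apply]
      by_cases hvT : v ∈ T
      · rw [g1 v (hT hvT), t1 v hvT]
        exact ch_self _
      · have h6 : v ∉ O := fun h => hvO (Or.inl ⟨h, hvT⟩)
        have h7 : v ∉ W := fun h => hvO (Or.inr h)
        rw [g2 v hv h6, t3 v hv hvT h7, add_zero]

/-- Change of the description. -/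
theorem Pole.congr {G : WG ℕ} {N : ℕ} {O O' : Set ℕ} {Φ Φ' : (ℕ → ℕ) → Prop}
    (h : Pole G N O Φ) (hO : O = O') (hΦ : ∀ κ, Φ κ ↔ Φ' κ) : Pole G N O' Φ' := by
  subst hO
  have e : Φ = Φ' := funext fun κ => propext (hΦ κ)
  subst e
  exact h

/-- The empty graph. -/
theorem pole_nil : Pole [] 1 ∅ (fun _ => True) := by
  refine ⟨one_pos, by simp, by simp, fun _ _ _ h => h, ?_, ?_⟩
  · intro β _ _
    exact ⟨fun _ => 0, trivial, by simp⟩
  · intro κ _
    exact ⟨0, rfl, by simp, fun _ _ _ => rfl⟩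

/-- A closed graph. -/
theorem Pole.col {G : WG ℕ} {N : ℕ} {Φ : (ℕ → ℕ) → Prop} (h : Pole G N ∅ Φ) :
    G.Col ↔ ∃ κ, Φ κ := by
  rw [col_iff_real]
  constructor
  · intro hr
    obtain ⟨κ, hκ, _⟩ := h.sound 0 hr (fun _ _ _ => rfl)
    exact ⟨κ, hκ⟩
  · rintro ⟨κ, hκ⟩
    obtain ⟨β, hβ, _, h0⟩ := h.compl κ hκ
    have h1 := realP_hub hβ (fun v hv => h0 v hv (by simp))
    rw [h1] at hβ
    exact hβ

end Pool.Agent.W_c81d44_h88
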