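import Pool.Agent.W_c81d44_h88.Pole
import Pool.Agent.W_c81d44_h82.Circ2

/-!
# Faithful circuit covers for arbitrary weights
-/

set_option autoImplicit false

namespace Pool.Agent.W_c81d44_h88

open Pool.Agent.W_c81d44_h82

/-- A finite multigraph with edge weights in `ℕ`, given as the list of its edges: an edge is a pair
of ends (equal for a loop) together with its weight. -/
abbrev KG := List ((ℕ × ℕ) × ℕ)

namespace KG

/-- The multigraph without its weights (all flags are `false`, they are not used). -/
def shape (G : KG) : WG ℕ := G.map (fun e => (e.1, false))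

/-- The weight of the edge `i`. -/
def wt (G : KG) (i : ℕ) : ℕ := (G[i]?).elim 0 Prod.snd

/-- `(G, w)` has a faithful circuit cover: a family of circuits (repetitions allowed) such that
every edge lies in exactly as many members of the family as its weight says. -/
def HasFC (G : KG) : Prop :=
  ∃ F : List (Finset ℕ), (∀ C ∈ F, (shape G).IsCircuit C) ∧
    ∀ i < G.length, F.countP (fun C => decide (i ∈ C)) = wt G i

/-- Every vertex meets an even total weight (loops count twice). -/
def Eulerian (G : KG) : Prop :=
  ∀ v, Even (∑ i ∈ Finset.range G.length, wt G i * (shape G).endsAt i v)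

/-- The weight of the edge `i` is lowered by `2`. -/
def dec (G : KG) (i : ℕ) : KG := G.modify i (fun e => (e.1, e.2 - 2))

@[simp] theorem length_shape (G : KG) : (shape G).length = G.length := by
  unfold shape
  rw [List.length_map]

/-- Colourings for arbitrary weights. -/
def Col (G : KG) : Prop :=
  ∃ φ : ℕ → Finset ℕ, (∀ i < G.length, (φ i).card = wt G i) ∧ ∀ v c, Even ((shape G).par φ v c)

/-- Faithful circuit covers are colourings (as for weights `1`, `2`). -/
theorem hasFC_iff_col (G : KG) : HasFC G ↔ Col G := by
  constructor
  · rintro ⟨F, hF1, hF2⟩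
    refine ⟨fun i => (Finset.range F.length).filter (fun k => i ∈ F.getD k ∅), ?_, ?_⟩
    · intro i hi
      rw [← hF2 i hi]
      have key : ∀ L : List (Finset ℕ),
          ((Finset.range L.length).filter (fun k => i ∈ L.getD k ∅)).card =
            L.countP (fun C => decide (i ∈ C)) := by
        intro L
        induction L with
        | nil => simp
        | cons C L ih =>
          rw [List.countP_cons, ← ih, Finset.card_filter, Finset.card_filter, List.length_cons,
            Finset.sum_range_succ']
          simp
      exact key F
    · intro v c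
      by_cases hc : c < F.length
      · have h1 : (shape G).par
            (fun i => (Finset.range F.length).filter (fun k => i ∈ F.getD k ∅)) v c
            = (shape G).deg F[c] v := by
          unfold WG.par WG.deg
          rw [← Finset.sum_filter]
          apply Finset.sum_congr
          · ext i
            simp only [Finset.mem_filter, Finset.mem_range]
            rw [List.getD_eq_getElem _ _ hc]
            constructor
            · rintro ⟨_, _, h⟩
              exact h
            · intro h
              exact ⟨(hF1 F[c] (List.getElem_mem hc)).edges i h, hc, h⟩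
          · intro i _
            rfl
        rw [h1]
        rcases (hF1 F[c] (List.getElem_mem hc)).regular v with h | h <;> rw [h] <;> decide
      · have h1 : (shape G).par
            (fun i => (Finset.range F.length).filter (fun k => i ∈ F.getD k ∅)) v c = 0 := by
          unfold WG.par
          apply Finset.sum_eq_zero
          intro i _
          simp [hc]
        rw [h1]
        decide
  · rintro ⟨φ, hφ1, hφ2⟩
    have hdeg : ∀ v c, (shape G).deg ((Finset.range G.length).filter (fun i => c ∈ φ i)) v =
        (shape G).par φ v c := fun v c => by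
      unfold WG.par WG.deg
      rw [Finset.sum_filter, length_shape]
    have hex : ∀ c : ℕ, ∃ F : List (Finset ℕ), (∀ C ∈ F, (shape G).IsCircuit C) ∧
        ∀ i, F.countP (fun C => decide (i ∈ C)) =
          if i ∈ (Finset.range G.length).filter (fun i => c ∈ φ i) then 1 else 0 := fun c =>
      exists_circuits (shape G) _
        (fun i hi => by
          rw [length_shape]
          exact Finset.mem_range.mp (Finset.mem_filter.mp hi).1)
        (fun v => by rw [hdeg]; exact hφ2 v c)
    choose Fc hFc1 hFc2 using hex
    obtain ⟨m, hm⟩ : ∃ m : ℕ, ∀ i < G.length, ∀ c ∈ φ i, c < m := by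
      refine ⟨((Finset.range G.length).biUnion φ).sup id + 1, fun i hi c hc => ?_⟩
      have hmem : c ∈ (Finset.range G.length).biUnion φ :=
        Finset.mem_biUnion.mpr ⟨i, Finset.mem_range.mpr hi, hc⟩
      have := Finset.le_sup (f := id) hmem
      simp only [id] at this
      omega
    refine ⟨(List.range m).flatMap Fc, ?_, ?_⟩
    · intro C hC
      obtain ⟨c, _, hc⟩ := List.mem_flatMap.mp hC
      exact hFc1 c C hc
    · intro i hi
      have key : ∀ n : ℕ, ((List.range n).flatMap Fc).countP (fun C => decide (i ∈ C)) =
          ((Finset.range n).filter (fun c => c ∈ φ i)).card := by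
        intro n
        induction n with
        | zero => simp
        | succ n ih =>
          rw [List.range_succ, List.flatMap_append, List.countP_append, ih]
          simp only [List.flatMap_cons, List.flatMap_nil, List.append_nil]
          rw [hFc2 n i, Finset.range_add_one, Finset.filter_insert]
          by_cases hn : n ∈ φ i
          · rw [if_pos hn, Finset.card_insert_of_notMem (by simp)]
            simp [hi, hn]
          · rw [if_neg hn]
            simp [hn]
      rw [key m, ← hφ1 i hi]
      congr 1
      ext c
      simp only [Finset.mem_filter, Finset.mem_range]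
      exact ⟨fun h => h.2, fun h => ⟨hm i hi c h, h⟩⟩

end KG

/-- The condition on the colour sets: the edge `e` carries `e.2` colours. -/
def PK (e : (ℕ × ℕ) × ℕ) (S : Finset ℕ) : Prop := S.card = e.2

theorem realK_iff (G : KG) (β : Bd) :
    RealP PK G β ↔ ∃ ψ : ℕ → Finset ℕ, (∀ i e, G[i]? = some e → (ψ i).card = e.2) ∧
      ∀ v c, (((KG.shape G).par ψ v c : ℕ) : ZMod 2) = β v c := by
  induction G generalizing β with
  | nil =>
    constructor
    · intro h
      have h3 : β = 0 := h
      subst h3
      exact ⟨fun _ => ∅, by simp, by simp [WG.par, KG.shape]⟩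
    · rintro ⟨ψ, _, h⟩
      show β = 0
      funext v c
      rw [← h]
      simp [WG.par, KG.shape]
  | cons e G ih =>
    have hsh : KG.shape (e :: G) = (e.1, false) :: KG.shape G := rfl
    constructor
    · rintro ⟨S, hS, h⟩
      obtain ⟨ψ, h1, h2⟩ := (ih _).1 h
      refine ⟨fun i => if i = 0 then S else ψ (i - 1), ?_, ?_⟩
      · intro i e' hi
        cases i with
        | zero =>
          simp only [List.getElem?_cons_zero, Option.some.injEq] at hi
          subst hi
          have hS2 : S.card = e.2 := hS
          simpa using hS2
        | succ i =>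
          simp only [List.getElem?_cons_succ] at hi
          simpa using h1 i e' hi
      · intro v c
        rw [hsh, par_cons]
        have h3 := h2 v c
        simp only [Nat.add_sub_cancel, Nat.succ_ne_zero, if_false, if_true]
        push_cast
        have h4 : (fun i => ψ i) = ψ := rfl
        rw [h4, h3]
        simp only [Pi.add_apply, bdE, ends_cast]
        rw [add_assoc, CharTwo.add_self_eq_zero, add_zero]
    · rintro ⟨ψ, h1, h2⟩
      refine ⟨ψ 0, h1 0 e (by simp), (ih _).2 ⟨fun i => ψ (i + 1), ?_, ?_⟩⟩
      · intro i e' hi
        exact h1 (i + 1) e' (by simpa using hi)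
      · intro v c
        have h3 := h2 v c
        rw [hsh, par_cons] at h3
        push_cast at h3
        simp only [ends_cast] at h3
        simp only [Pi.add_apply, bdE, ← h3]
        rw [add_assoc, CharTwo.add_self_eq_zero, add_zero]

theorem hasFC_iff_real (G : KG) : KG.HasFC G ↔ RealP PK G 0 := by
  rw [KG.hasFC_iff_col, realK_iff]
  constructor
  · rintro ⟨ψ, h1, h2⟩
    refine ⟨ψ, fun i e hi => ?_, fun v c => ?_⟩
    · have hlt : i < G.length := (List.getElem?_eq_some_iff.1 hi).1
      have h3 := h1 i hlt
      unfold KG.wt at h3
      rw [hi] at h3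
      exact h3
    · rw [(ZMod.natCast_eq_zero_iff_even).2 (h2 v c)]
      rfl
  · rintro ⟨ψ, h1, h2⟩
    refine ⟨ψ, fun i hi => ?_, fun v c => ?_⟩
    · have h3 := h1 i _ (List.getElem?_eq_getElem hi)
      unfold KG.wt
      rw [List.getElem?_eq_getElem hi]
      exact h3
    · exact (ZMod.natCast_eq_zero_iff_even).1 (h2 v c)

/-- `RealP` does not depend on the order of the edges. -/
theorem realP_perm {τ : Type} {P : (ℕ × ℕ) × τ → Finset ℕ → Prop}
    {G H : List ((ℕ × ℕ) × τ)} (h : G.Perm H) (β : Bd) : RealP P G β ↔ RealP P H β := by
  induction h generalizing β with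
  | nil => exact Iff.rfl
  | cons e _ ih =>
    constructor
    · rintro ⟨S, hS, h1⟩
      exact ⟨S, hS, (ih _).1 h1⟩
    · rintro ⟨S, hS, h1⟩
      exact ⟨S, hS, (ih _).2 h1⟩
  | swap e f l =>
    constructor
    · rintro ⟨S, hS, T, hT, h1⟩
      refine ⟨T, hT, S, hS, ?_⟩
      rw [add_right_comm]
      exact h1
    · rintro ⟨S, hS, T, hT, h1⟩
      refine ⟨T, hT, S, hS, ?_⟩
      rw [add_right_comm]
      exact h1
  | trans _ _ ih1 ih2 => exact (ih1 β).trans (ih2 β)

theorem hasFC_perm {G H : KG} (h : G.Perm H) : KG.HasFC G ↔ KG.HasFC H := by
  rw [hasFC_iff_real, hasFC_iff_real]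
  exact realP_perm h 0

end Pool.Agent.W_c81d44_h88
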