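import Pool.Agent.W_c81d44_h88.KDef

/-!
# The gadget for an edge of weight `n + 3`: the Petersen graph minus an edge
-/

set_option autoImplicit false
set_option maxHeartbeats 400000

namespace Pool.Agent.W_c81d44_h88

open Pool.Agent.W_c81d44_h82

/-- The gadget with terminals `a`, `b` and inner vertices `f, …, f + 7`. -/
def kgad (n w1 w2 a b f : ℕ) : KG :=
  [((a, f + 4), w1), ((b, f + 5), w2), ((f + 1, f + 6), n + 2), ((f + 2, f + 7), n + 2),
   ((f, f + 3), 2), ((f, a), 1), ((b, f + 1), 1), ((f + 2, f), 1), ((f + 1, f + 2), n + 1),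
   ((f + 4, f + 6), n + 1), ((f + 5, f + 7), n + 1), ((f + 3, f + 5), 1), ((f + 6, f + 3), 1),
   ((f + 7, f + 4), 1)]

theorem k_two_bd : (2 : Bd) = 0 := by
  funext v c
  rfl

theorem st_union (v : ℕ) {A B : Finset ℕ} (h : Disjoint A B) :
    st v (A ∪ B) = st v A + st v B := by
  funext w c
  simp only [st, Pi.add_apply, Finset.mem_union]
  by_cases h1 : c ∈ A
  · have h2 : c ∉ B := Finset.disjoint_left.1 h h1
    simp [h1, h2]
  · by_cases h2 : c ∈ B <;> simp [h1, h2]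

/-- Three sets at a vertex. -/
def tr3 (v : ℕ) (A B C : Finset ℕ) : Bd := st v A + st v B + st v C

theorem tr3_ne {u v : ℕ} (h : u ≠ v) (A B C : Finset ℕ) : tr3 u A B C v = 0 := by
  unfold tr3
  simp only [Pi.add_apply, st_ne h, add_zero]

theorem tr3_self (v : ℕ) (A B C : Finset ℕ) : tr3 v A B C v = ch A + ch B + ch C := by
  unfold tr3
  simp only [Pi.add_apply, st_self]

theorem tr3_zero {A B C : Finset ℕ} (h : ch A + ch B + ch C = 0) (v : ℕ) :
    tr3 v A B C = 0 := st_zero h v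

/-- The equations at the inner vertices of the gadget. -/
structure GEq (M1 M2 M3 M4 M0 A B C D E F H I J : Finset ℕ) : Prop where
  u0 : ch M0 + ch A + ch C = 0
  u3 : ch M3 + ch B + ch D = 0
  u4 : ch M4 + ch C + ch D = 0
  v0 : ch M0 + ch H + ch I = 0
  v1 : ch M1 + ch E + ch J = 0
  v2 : ch M2 + ch F + ch H = 0
  v3 : ch M3 + ch E + ch I = 0
  v4 : ch M4 + ch F + ch J = 0

theorem kgad_sets {n w1 w2 a b f : ℕ} (ha : a < f ∨ f + 8 ≤ a) (hb : b < f ∨ f + 8 ≤ b) {γ : Bd}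
    (h : RealP PK (kgad n w1 w2 a b f) γ) (h0 : ∀ i < 8, γ (f + i) = 0) :
    ∃ M1 M2 M3 M4 M0 A B C D E F H I J : Finset ℕ, GEq M1 M2 M3 M4 M0 A B C D E F H I J ∧
      M1.card = w1 ∧ M2.card = w2 ∧ M3.card = n + 2 ∧ M4.card = n + 2 ∧ M0.card = 2 ∧
      A.card = 1 ∧ B.card = 1 ∧ C.card = 1 ∧ D.card = n + 1 ∧ E.card = n + 1 ∧ F.card = n + 1 ∧
      H.card = 1 ∧ I.card = 1 ∧ J.card = 1 ∧
      γ = st a M1 + st a A + (st b M2 + st b B) := by
  obtain ⟨M1, h1, M2, h2, M3, h3, M4, h4, M0, h5, A, hA, B, hB, C, hC, D, hD, E, hE, F, hF, H, hH,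
    I, hI, J, hJ, h⟩ := h
  have hη : γ = (st a M1 + st a A + (st b M2 + st b B)) +
      (tr3 f M0 A C + tr3 (f + 1) M3 B D + tr3 (f + 2) M4 C D + tr3 (f + 3) M0 H I +
       tr3 (f + 4) M1 E J + tr3 (f + 5) M2 F H + tr3 (f + 6) M3 E I + tr3 (f + 7) M4 F J) := by
    have h' : γ + bdE (a, f + 4) M1 + bdE (b, f + 5) M2 + bdE (f + 1, f + 6) M3 +
      bdE (f + 2, f + 7) M4 + bdE (f, f + 3) M0 + bdE (f, a) A + bdE (b, f + 1) B +
      bdE (f + 2, f) C + bdE (f + 1, f + 2) D + bdE (f + 4, f + 6) E + bdE (f + 5, f + 7) F +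
      bdE (f + 3, f + 5) H + bdE (f + 6, f + 3) I + bdE (f + 7, f + 4) J = 0 := h
    simp only [bdE_eq] at h'
    unfold tr3
    linear_combination h' - ((st a M1 + st a A + (st b M2 + st b B)) +
      ((st f M0 + st f A + st f C) + (st (f + 1) M3 + st (f + 1) B + st (f + 1) D) +
       (st (f + 2) M4 + st (f + 2) C + st (f + 2) D) + (st (f + 3) M0 + st (f + 3) H +
       st (f + 3) I) + (st (f + 4) M1 + st (f + 4) E + st (f + 4) J) +
       (st (f + 5) M2 + st (f + 5) F + st (f + 5) H) +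
       (st (f + 6) M3 + st (f + 6) E + st (f + 6) I) +
       (st (f + 7) M4 + st (f + 7) F + st (f + 7) J))) * k_two_bd
  have v0 := h0 0 (by norm_num)
  have v1 := h0 1 (by norm_num)
  have v2 := h0 2 (by norm_num)
  have v3 := h0 3 (by norm_num)
  have v4 := h0 4 (by norm_num)
  have v5 := h0 5 (by norm_num)
  have v6 := h0 6 (by norm_num)
  have v7 := h0 7 (by norm_num)
  rw [hη] at v0 v1 v2 v3 v4 v5 v6 v7
  simp (disch := omega) only [Pi.add_apply, st_ne, tr3_ne, tr3_self, add_zero, zero_add]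
    at v0 v1 v2 v3 v4 v5 v6 v7
  refine ⟨M1, M2, M3, M4, M0, A, B, C, D, E, F, H, I, J, ⟨v0, v1, v2, v3, v4, v5, v6, v7⟩,
    h1, h2, h3, h4, h5, hA, hB, hC, hD, hE, hF, hH, hI, hJ, ?_⟩
  rw [hη, tr3_zero v0, tr3_zero v1, tr3_zero v2, tr3_zero v3, tr3_zero v4, tr3_zero v5,
    tr3_zero v6, tr3_zero v7]
  ring

theorem ch_two : (2 : ℕ → ZMod 2) = 0 := by
  funext c
  rfl

/-- The indicator with values in `ℕ`. -/
def ind (S : Finset ℕ) (c : ℕ) : ℕ := if c ∈ S then 1 else 0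

theorem ind_le (S : Finset ℕ) (c : ℕ) : ind S c ≤ 1 := by
  unfold ind
  split_ifs <;> omega

theorem sum_ind {S U : Finset ℕ} (h : S ⊆ U) : ∑ c ∈ U, ind S c = S.card := by
  unfold ind
  rw [Finset.sum_ite_mem, Finset.inter_eq_right.2 h]
  simp

theorem card_of_ch {A B C : Finset ℕ} (h : ch A + ch B + ch C = 0) :
    A.card + 2 * (B ∩ C).card = B.card + C.card ∧
      ((B ∩ C).card = 0 → ∀ c, ind A c = ind B c + ind C c) := by
  have hA : A = symmDiff B C := by
    apply ch_inj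
    have h1 : ch A = ch B + ch C := by
      linear_combination h - (ch B + ch C) * ch_two
    rw [h1]
    funext c
    simp only [ch, Pi.add_apply, Finset.mem_symmDiff]
    by_cases h1 : c ∈ B <;> by_cases h2 : c ∈ C <;> simp [h1, h2] <;> decide
  constructor
  · have h1 : A.card = (B \ C).card + (C \ B).card := by
      rw [hA, symmDiff_def, Finset.sup_eq_union, Finset.card_union_of_disjoint]
      exact disjoint_sdiff_sdiff
    have h2 := Finset.card_sdiff_add_card_inter B C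
    have h3 := Finset.card_sdiff_add_card_inter C B
    rw [Finset.inter_comm C B] at h3
    omega
  · intro h0 c
    have h1 : c ∉ B ∩ C := by
      rw [Finset.card_eq_zero.1 h0]
      simp
    rw [Finset.mem_inter] at h1
    unfold ind
    rw [hA]
    by_cases h2 : c ∈ B
    · by_cases h3 : c ∈ C
      · exact absurd ⟨h2, h3⟩ h1
      · simp [Finset.mem_symmDiff, h2, h3]
    · by_cases h3 : c ∈ C <;> simp [Finset.mem_symmDiff, h2, h3]

/-- The local condition at the ten vertices of the Petersen graph implies that the number of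
spokes is `0` or `4`. -/
theorem spokes {x a b c d e f h i j m0 m1 m2 m3 m4 : ℕ} (l0 : m0 ≤ 1) (l1 : m1 ≤ 1)
    (l2 : m2 ≤ 1) (l3 : m3 ≤ 1) (l4 : m4 ≤ 1)
    (e1 : m1 = x + a) (e2 : m2 = x + b) (u0 : m0 = a + c) (u3 : m3 = b + d) (u4 : m4 = c + d)
    (v0 : m0 = h + i) (v1 : m1 = e + j) (v2 : m2 = f + h) (v3 : m3 = e + i) (v4 : m4 = f + j) :
    4 ∣ m0 + m1 + m2 + m3 + m4 := by
  have hx : x = 0 ∨ x = 1 := by omega
  have ha : a = 0 ∨ a = 1 := by omega
  have hb : b = 0 ∨ b = 1 := by omega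
  have hc : c = 0 ∨ c = 1 := by omega
  have hd : d = 0 ∨ d = 1 := by omega
  rcases hx with rfl | rfl <;> rcases ha with rfl | rfl <;> rcases hb with rfl | rfl <;>
    rcases hc with rfl | rfl <;> rcases hd with rfl | rfl <;> omega

theorem ind_of_card {A B C : Finset ℕ} (h : ch A + ch B + ch C = 0)
    (hc : A.card = B.card + C.card) : ∀ c, ind A c = ind B c + ind C c := by
  have h1 := card_of_ch h
  exact h1.2 (by have := h1.1; omega)

/-- It is impossible that all vertices are tight. -/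
theorem kgad_tight {n : ℕ} {M1 M2 M3 M4 M0 A B C D E F H I J X : Finset ℕ}
    (g : GEq M1 M2 M3 M4 M0 A B C D E F H I J) (h1 : M1.card = n + 2) (h2 : M2.card = n + 2)
    (h3 : M3.card = n + 2) (h4 : M4.card = n + 2) (h5 : M0.card = 2) (hA : A.card = 1)
    (hB : B.card = 1) (hC : C.card = 1) (hD : D.card = n + 1) (hE : E.card = n + 1)
    (hF : F.card = n + 1) (hH : H.card = 1) (hI : I.card = 1) (hJ : J.card = 1)
    (s9 : ∀ c, ind M1 c = ind X c + ind A c) (s10 : ∀ c, ind M2 c = ind X c + ind B c) :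
    False := by
  have s1 := ind_of_card g.u0 (by rw [h5, hA, hC])
  have s2 := ind_of_card g.u3 (by rw [h3, hB, hD]; omega)
  have s3 := ind_of_card g.u4 (by rw [h4, hC, hD]; omega)
  have s4 := ind_of_card g.v0 (by rw [h5, hH, hI])
  have s5 := ind_of_card g.v1 (by rw [h1, hE, hJ])
  have s6 := ind_of_card g.v2 (by rw [h2, hF, hH])
  have s7 := ind_of_card g.v3 (by rw [h3, hE, hI])
  have s8 := ind_of_card g.v4 (by rw [h4, hF, hJ])
  have hdvd : 4 ∣ ∑ c ∈ M0 ∪ M1 ∪ M2 ∪ M3 ∪ M4,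
      (ind M0 c + ind M1 c + ind M2 c + ind M3 c + ind M4 c) := by
    apply Finset.dvd_sum
    intro c _
    exact spokes (ind_le _ _) (ind_le _ _) (ind_le _ _) (ind_le _ _)
      (ind_le _ _) (s9 c) (s10 c) (s1 c) (s2 c) (s3 c) (s4 c) (s5 c) (s6 c) (s7 c) (s8 c)
  rw [Finset.sum_add_distrib, Finset.sum_add_distrib, Finset.sum_add_distrib,
    Finset.sum_add_distrib] at hdvd
  have t0 : M0 ⊆ M0 ∪ M1 ∪ M2 ∪ M3 ∪ M4 := fun c hc => by
    simp only [Finset.mem_union]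
    exact Or.inl (Or.inl (Or.inl (Or.inl hc)))
  have t1 : M1 ⊆ M0 ∪ M1 ∪ M2 ∪ M3 ∪ M4 := fun c hc => by
    simp only [Finset.mem_union]
    exact Or.inl (Or.inl (Or.inl (Or.inr hc)))
  have t2 : M2 ⊆ M0 ∪ M1 ∪ M2 ∪ M3 ∪ M4 := fun c hc => by
    simp only [Finset.mem_union]
    exact Or.inl (Or.inl (Or.inr hc))
  have t3 : M3 ⊆ M0 ∪ M1 ∪ M2 ∪ M3 ∪ M4 := fun c hc => by
    simp only [Finset.mem_union]
    exact Or.inl (Or.inr hc)
  have t4 : M4 ⊆ M0 ∪ M1 ∪ M2 ∪ M3 ∪ M4 := fun c hc => by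
    simp only [Finset.mem_union]
    exact Or.inr hc
  rw [sum_ind t0, sum_ind t1, sum_ind t2, sum_ind t3, sum_ind t4, h1, h2, h3, h4, h5] at hdvd
  omega

theorem gq_x {M1 M2 M3 M4 M0 A B C D E F H I J : Finset ℕ}
    (g : GEq M1 M2 M3 M4 M0 A B C D E F H I J) : ch M1 + ch A = ch M2 + ch B := by
  obtain ⟨u0, u3, u4, v0, v1, v2, v3, v4⟩ := g
  linear_combination u0 + u3 + u4 + v0 + v1 + v2 + v3 + v4 -
      (ch M0 + ch C + ch M3 + ch D + ch M4 + ch H + ch I + ch E + ch J + ch F + ch M2 + ch B) *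
        ch_two

theorem kgad_card {n w1 w2 : ℕ} {M1 M2 M3 M4 M0 A B C D E F H I J : Finset ℕ}
    (g : GEq M1 M2 M3 M4 M0 A B C D E F H I J) (h1 : M1.card = w1) (h2 : M2.card = w2)
    (h3 : M3.card = n + 2) (h4 : M4.card = n + 2) (h5 : M0.card = 2) (hA : A.card = 1)
    (hB : B.card = 1) (hC : C.card = 1) (hD : D.card = n + 1) (hE : E.card = n + 1)
    (hF : F.card = n + 1) (hH : H.card = 1) (hI : I.card = 1) (hJ : J.card = 1) :
    ∃ X : Finset ℕ, ch X = ch M1 + ch A ∧ ch X = ch M2 + ch B ∧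
      (w1 = n + 2 → w2 = n + 2 → X.card = n + 3) ∧
      (w1 = n → w2 = n + 2 → X.card = n + 1) ∧ (w1 = n + 2 → w2 = n → X.card = n + 1) := by
  obtain ⟨X, hX⟩ : ∃ X : Finset ℕ, ch X = ch M1 + ch A := by
    refine ⟨symmDiff M1 A, ?_⟩
    funext c
    simp only [ch, Pi.add_apply, Finset.mem_symmDiff]
    by_cases h1 : c ∈ M1 <;> by_cases h2 : c ∈ A <;> simp [h1, h2] <;> decide
  have hX2 : ch X = ch M2 + ch B := by rw [hX, gq_x g]
  refine ⟨X, hX, hX2, ?_⟩
  have k1 : ch M1 + ch X + ch A = 0 := by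
    rw [hX]
    linear_combination (ch M1 + ch A) * ch_two
  have k2 : ch M2 + ch X + ch B = 0 := by
    rw [hX2]
    linear_combination (ch M2 + ch B) * ch_two
  have c1 := (card_of_ch k1).1
  have c2 := (card_of_ch k2).1
  have i1 : (X ∩ A).card ≤ 1 := by
    rw [← hA]
    exact Finset.card_le_card Finset.inter_subset_right
  have i2 : (X ∩ B).card ≤ 1 := by
    rw [← hB]
    exact Finset.card_le_card Finset.inter_subset_right
  rw [h1, hA] at c1
  rw [h2, hB] at c2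
  refine ⟨fun hw1 hw2 => ?_, fun hw1 hw2 => by omega, fun hw1 hw2 => by omega⟩
  by_contra hne
  subst hw1
  subst hw2
  exact kgad_tight g h1 h2 h3 h4 h5 hA hB hC hD hE hF hH hI hJ
    (ind_of_card k1 (by rw [h1, hA]; omega)) (ind_of_card k2 (by rw [h2, hB]; omega))

/-- The gadget is exact for an edge of weight `n + 3` (`w1 = w2 = n + 2`), and lowering the weight
`w1` or `w2` by `2` lowers the weight of the edge by `2`. -/
theorem kgad_sound {n w1 w2 a b f : ℕ} (ha : a < f ∨ f + 8 ≤ a) (hb : b < f ∨ f + 8 ≤ b)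
    {γ : Bd} (h : RealP PK (kgad n w1 w2 a b f) γ) (h0 : ∀ i < 8, γ (f + i) = 0) :
    ∃ X : Finset ℕ, γ = st a X + st b X ∧
      (w1 = n + 2 → w2 = n + 2 → X.card = n + 3) ∧
      (w1 = n → w2 = n + 2 → X.card = n + 1) ∧ (w1 = n + 2 → w2 = n → X.card = n + 1) := by
  obtain ⟨M1, M2, M3, M4, M0, A, B, C, D, E, F, H, I, J, g, h1, h2, h3, h4, h5, hA, hB, hC, hD,
    hE, hF, hH, hI, hJ, hγ⟩ := kgad_sets ha hb h h0
  obtain ⟨X, x1, x2, hX⟩ := kgad_card g h1 h2 h3 h4 h5 hA hB hC hD hE hF hH hI hJ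
  refine ⟨X, ?_, hX⟩
  have e1 : ∀ (v : ℕ) {P Q : Finset ℕ}, ch X = ch P + ch Q → st v X = st v P + st v Q := by
    intro v P Q hPQ
    funext w c
    have := congrFun hPQ c
    simp only [ch, Pi.add_apply] at this
    simp only [st, Pi.add_apply]
    by_cases hv : v = w
    · simp only [hv, if_true]
      exact this
    · simp [hv]
  rw [hγ, ← e1 a x1, ← e1 b x2]

end Pool.Agent.W_c81d44_h88
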