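import Pool.Agent.W_c81d44_h88.KGad

/-!
# The gadget for an edge of weight `n + 3`: all sets of `n + 3` colours are possible
-/

set_option autoImplicit false
set_option maxHeartbeats 1000000

namespace Pool.Agent.W_c81d44_h88

open Pool.Agent.W_c81d44_h82

theorem st_un1 (v : ℕ) {x : ℕ} {Z : Finset ℕ} (h : x ∉ Z) :
    st v ({x} ∪ Z) = dl v x + st v Z :=
  st_union v (Finset.disjoint_singleton_left.2 h)

theorem st_un2 (v : ℕ) {x y : ℕ} {Z : Finset ℕ} (hxy : x ≠ y) (h : x ∉ Z) (h' : y ∉ Z) :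
    st v ({x, y} ∪ Z) = dl v x + dl v y + st v Z := by
  rw [st_union v, st_pair v hxy]
  rw [Finset.disjoint_left]
  intro c hc
  simp only [Finset.mem_insert, Finset.mem_singleton] at hc
  rcases hc with rfl | rfl
  · exact h
  · exact h'

theorem cd_un1 {x : ℕ} {Z : Finset ℕ} (h : x ∉ Z) : (({x} : Finset ℕ) ∪ Z).card = Z.card + 1 := by
  rw [Finset.card_union_of_disjoint (Finset.disjoint_singleton_left.2 h), Finset.card_singleton,
    add_comm]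

theorem cd_un2 {x y : ℕ} {Z : Finset ℕ} (hxy : x ≠ y) (h : x ∉ Z) (h' : y ∉ Z) :
    (({x, y} : Finset ℕ) ∪ Z).card = Z.card + 2 := by
  rw [Finset.card_union_of_disjoint, Finset.card_pair hxy, add_comm]
  rw [Finset.disjoint_left]
  intro c hc
  simp only [Finset.mem_insert, Finset.mem_singleton] at hc
  rcases hc with rfl | rfl
  · exact h
  · exact h'

/-- Sets of colours for the gadget itself. -/
theorem kgad_main {n a b f p q r : ℕ} {Z : Finset ℕ} (hpq : p ≠ q) (hpr : p ≠ r) (hqr : q ≠ r)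
    (hp : p ∉ Z) (hq : q ∉ Z) (hr : r ∉ Z) (hZ : Z.card = n) :
    RealP PK (kgad n (n + 2) (n + 2) a b f)
      ((dl a p + dl a q + dl a r + st a Z) + (dl b p + dl b q + dl b r + st b Z)) := by
  refine ⟨{q, r} ∪ Z, (cd_un2 hqr hq hr).trans (by rw [hZ]), {q, r} ∪ Z,
    (cd_un2 hqr hq hr).trans (by rw [hZ]), {p, r} ∪ Z, (cd_un2 hpr hp hr).trans (by rw [hZ]),
    {q, r} ∪ Z, (cd_un2 hqr hq hr).trans (by rw [hZ]), {p, q}, Finset.card_pair hpq,
    {p}, rfl, {p}, rfl, {q}, rfl, {r} ∪ Z, (cd_un1 hr).trans (by rw [hZ]),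
    {r} ∪ Z, (cd_un1 hr).trans (by rw [hZ]), {r} ∪ Z, (cd_un1 hr).trans (by rw [hZ]),
    {q}, rfl, {p}, rfl, {q}, rfl, ?_⟩
  show _ = (0 : Bd)
  simp only [bdE_eq, st_un2 _ hqr hq hr, st_un2 _ hpr hp hr, st_pair _ hpq, st_un1 _ hr]
  linear_combination ((dl a p + dl a q + dl a r + st a Z) + (dl b p + dl b q + dl b r + st b Z) +
    (dl f p + dl f q) + (dl (f + 1) p + dl (f + 1) r + st (f + 1) Z) +
    (dl (f + 2) q + dl (f + 2) r + st (f + 2) Z) + (dl (f + 3) p + dl (f + 3) q) +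
    (dl (f + 4) q + dl (f + 4) r + st (f + 4) Z) + (dl (f + 5) q + dl (f + 5) r + st (f + 5) Z) +
    (dl (f + 6) p + dl (f + 6) r + st (f + 6) Z) +
    (dl (f + 7) q + dl (f + 7) r + st (f + 7) Z)) * k_two_bd

/-- Sets of colours if `w1` is lowered. -/
theorem kgad_dec1 {n a b f x y : ℕ} {Z : Finset ℕ} (hxy : x ≠ y) (hx : x ∉ Z) (hy : y ∉ Z)
    (hZ : Z.card = n) :
    RealP PK (kgad n n (n + 2) a b f) ((dl a x + st a Z) + (dl b x + st b Z)) := by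
  refine ⟨Z, hZ, {x, y} ∪ Z, (cd_un2 hxy hx hy).trans (by rw [hZ]),
    {x, y} ∪ Z, (cd_un2 hxy hx hy).trans (by rw [hZ]),
    {x, y} ∪ Z, (cd_un2 hxy hx hy).trans (by rw [hZ]), {x, y}, Finset.card_pair hxy,
    {x}, rfl, {y}, rfl, {y}, rfl, {x} ∪ Z, (cd_un1 hx).trans (by rw [hZ]),
    {x} ∪ Z, (cd_un1 hx).trans (by rw [hZ]), {y} ∪ Z, (cd_un1 hy).trans (by rw [hZ]),
    {x}, rfl, {y}, rfl, {x}, rfl, ?_⟩
  show _ = (0 : Bd)
  simp only [bdE_eq, st_un2 _ hxy hx hy, st_pair _ hxy, st_un1 _ hx, st_un1 _ hy]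
  linear_combination ((dl a x + st a Z) + (dl b x + dl b y + st b Z) +
    (dl f x + dl f y) + (dl (f + 1) x + dl (f + 1) y + st (f + 1) Z) +
    (dl (f + 2) x + dl (f + 2) y + st (f + 2) Z) + (dl (f + 3) x + dl (f + 3) y) +
    (dl (f + 4) x + st (f + 4) Z) + (dl (f + 5) x + dl (f + 5) y + st (f + 5) Z) +
    (dl (f + 6) x + dl (f + 6) y + st (f + 6) Z) +
    (dl (f + 7) x + dl (f + 7) y + st (f + 7) Z)) * k_two_bd

/-- Sets of colours if `w2` is lowered. -/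
theorem kgad_dec2 {n a b f x y : ℕ} {Z : Finset ℕ} (hxy : x ≠ y) (hx : x ∉ Z) (hy : y ∉ Z)
    (hZ : Z.card = n) :
    RealP PK (kgad n (n + 2) n a b f) ((dl a x + st a Z) + (dl b x + st b Z)) := by
  refine ⟨{x, y} ∪ Z, (cd_un2 hxy hx hy).trans (by rw [hZ]), Z, hZ,
    {x, y} ∪ Z, (cd_un2 hxy hx hy).trans (by rw [hZ]),
    {x, y} ∪ Z, (cd_un2 hxy hx hy).trans (by rw [hZ]), {x, y}, Finset.card_pair hxy,
    {y}, rfl, {x}, rfl, {x}, rfl, {y} ∪ Z, (cd_un1 hy).trans (by rw [hZ]),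
    {y} ∪ Z, (cd_un1 hy).trans (by rw [hZ]), {y} ∪ Z, (cd_un1 hy).trans (by rw [hZ]),
    {y}, rfl, {x}, rfl, {x}, rfl, ?_⟩
  show _ = (0 : Bd)
  simp only [bdE_eq, st_un2 _ hxy hx hy, st_pair _ hxy, st_un1 _ hx, st_un1 _ hy]
  linear_combination ((dl a x + dl a y + st a Z) + (dl b x + st b Z) +
    (dl f x + dl f y) + (dl (f + 1) x + dl (f + 1) y + st (f + 1) Z) +
    (dl (f + 2) x + dl (f + 2) y + st (f + 2) Z) + (dl (f + 3) x + dl (f + 3) y) +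
    (dl (f + 4) x + dl (f + 4) y + st (f + 4) Z) + (dl (f + 5) y + st (f + 5) Z) +
    (dl (f + 6) x + dl (f + 6) y + st (f + 6) Z) +
    (dl (f + 7) x + dl (f + 7) y + st (f + 7) Z)) * k_two_bd

theorem split_three {n : ℕ} {X : Finset ℕ} (h : X.card = n + 3) :
    ∃ p q r : ℕ, ∃ Z : Finset ℕ, p ≠ q ∧ p ≠ r ∧ q ≠ r ∧ p ∉ Z ∧ q ∉ Z ∧ r ∉ Z ∧ Z.card = n ∧
      ∀ v, st v X = dl v p + dl v q + dl v r + st v Z := by
  obtain ⟨p, X1, hp, rfl, h1⟩ := Finset.card_eq_succ.1 h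
  obtain ⟨q, X2, hq, rfl, h2⟩ := Finset.card_eq_succ.1 h1
  obtain ⟨r, Z, hr, rfl, hZ⟩ := Finset.card_eq_succ.1 h2
  simp only [Finset.mem_insert, not_or] at hp hq
  refine ⟨p, q, r, Z, hp.1, hp.2.1, hq.1, hp.2.2, hq.2, hr, hZ, fun v => ?_⟩
  have e1 : insert p (insert q (insert r Z)) = {p, q} ∪ ({r} ∪ Z) := by
    ext c
    simp only [Finset.mem_insert, Finset.mem_union, Finset.mem_singleton]
    tauto
  rw [e1, st_un2 v hp.1, st_un1 v hr]
  · ring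
  · simp only [Finset.mem_union, Finset.mem_singleton, not_or]
    exact hp.2
  · simp only [Finset.mem_union, Finset.mem_singleton, not_or]
    exact hq

theorem split_one {n : ℕ} {X : Finset ℕ} (h : X.card = n + 1) :
    ∃ x y : ℕ, ∃ Z : Finset ℕ, x ≠ y ∧ x ∉ Z ∧ y ∉ Z ∧ Z.card = n ∧
      ∀ v, st v X = dl v x + st v Z := by
  obtain ⟨x, Z, hx, rfl, hZ⟩ := Finset.card_eq_succ.1 h
  obtain ⟨y, hy⟩ := Infinite.exists_notMem_finset (insert x Z)
  rw [Finset.mem_insert, not_or] at hy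
  refine ⟨x, y, Z, fun h => hy.1 h.symm, hx, hy.2, hZ, fun v => ?_⟩
  rw [Finset.insert_eq, st_un1 v hx]

theorem kgad_complete {n a b f : ℕ} {X : Finset ℕ} (h : X.card = n + 3) :
    RealP PK (kgad n (n + 2) (n + 2) a b f) (st a X + st b X) := by
  obtain ⟨p, q, r, Z, h1, h2, h3, h4, h5, h6, h7, h8⟩ := split_three h
  rw [h8, h8]
  exact kgad_main h1 h2 h3 h4 h5 h6 h7

theorem kgad_complete1 {n a b f : ℕ} {X : Finset ℕ} (h : X.card = n + 1) :
    RealP PK (kgad n n (n + 2) a b f) (st a X + st b X) := by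
  obtain ⟨x, y, Z, h1, h2, h3, h4, h5⟩ := split_one h
  rw [h5, h5]
  exact kgad_dec1 h1 h2 h3 h4

theorem kgad_complete2 {n a b f : ℕ} {X : Finset ℕ} (h : X.card = n + 1) :
    RealP PK (kgad n (n + 2) n a b f) (st a X + st b X) := by
  obtain ⟨x, y, Z, h1, h2, h3, h4, h5⟩ := split_one h
  rw [h5, h5]
  exact kgad_dec2 h1 h2 h3 h4

end Pool.Agent.W_c81d44_h88
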