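import Pool.Agent.W_c81d44_h88.KValid
import Pool.Agent.W_c81d44_h82.CubMain

/-!
# The reduction of bounded weights to the weights `1`, `2` is computable in polynomial time
-/

set_option autoImplicit false
set_option maxHeartbeats 1000000

namespace Pool.Agent.W_c81d44_h88

open Pool.Agent.W_c81d44_h82 Pool.Agent.PolyTime

theorem step_eq (m : ℕ) (G : KG) : ∀ n, stepFrom m n G =
    (List.range G.length).flatMap (fun i => (G[i]?).elim [] (fun e => blk m (n + i) e)) := by
  induction G with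
  | nil => exact fun n => rfl
  | cons e G ih =>
    intro n
    rw [List.length_cons, List.range_succ_eq_map, List.flatMap_cons, List.flatMap_map]
    show blk m n e ++ stepFrom m (n + 1) G = _
    rw [ih (n + 1)]
    congr 1
    refine List.flatMap_congr fun i _ => ?_
    rw [Nat.succ_eq_add_one, List.getElem?_cons_succ, Nat.add_assoc, Nat.add_comm 1 i]

section

variable {α : Type*} [TEnc α]

theorem pf_nine {f : α → ℕ} (hf : PF f) : PF (fun x => 9 * f x) := PF.mul (PF.const 9) hf

theorem pf_kgad (m w1 w2 : ℕ) {a b f : α → ℕ} (ha : PF a) (hb : PF b) (hf : PF f) :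
    PF (fun x => kgad m w1 w2 (a x) (b x) (f x)) := by
  unfold kgad
  fun_prop

theorem pf_blk (m : ℕ) {n : α → ℕ} {e : α → (ℕ × ℕ) × ℕ} (hn : PF n) (he : PF e) :
    PF (fun x => blk m (n x) (e x)) := by
  unfold blk
  have h1 : PF (fun x => 9 * (e x).1.1) := pf_nine (by fun_prop)
  have h2 : PF (fun x => 9 * (e x).1.2) := pf_nine (by fun_prop)
  have h3 : PF (fun x => 9 * n x + 1) := (pf_nine hn).succ
  refine PF.ite (PF.eq (by fun_prop) (by fun_prop)) (pf_kgad m _ _ h1 h2 h3) ?_
  exact ((h1.pair h2).pair (by fun_prop)).cons (PF.const _)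

theorem pf_step (m : ℕ) {G : α → KG} (hG : PF G) : PF (fun x => stepFrom m 0 (G x)) := by
  refine PF.congr ?_ (fun x => (step_eq m (G x) 0).symm)
  refine PF.flatMap (f := fun x i => ((G x)[i]?).elim [] (fun e => blk m (0 + i) e)) ?_
    (by fun_prop)
  refine PF.optionCases (o := fun p : α × ℕ => (G p.1)[p.2]?) (f := fun _ => [])
    (g := fun p e => blk m (0 + p.2) e) (by fun_prop) (PF.const _) ?_ (fun p h => ?_)
    (fun p e h => ?_)
  · exact pf_blk m (n := fun p : (α × ℕ) × ((ℕ × ℕ) × ℕ) => 0 + p.1.2) (by fun_prop) (by fun_prop)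
  · rw [h]
    rfl
  · rw [h]
    rfl

theorem pf_toWG {G : α → KG} (hG : PF G) : PF (fun x => toWG (G x)) := by
  unfold toWG
  refine PF.map (f := fun _ (e : (ℕ × ℕ) × ℕ) => (e.1, decide (e.2 = 2))) ?_ hG
  exact (show PF (fun p : α × ((ℕ × ℕ) × ℕ) => p.2.1) by fun_prop).pair
    (PF.eq (by fun_prop) (PF.const 2))

end

/-- All edges of weight `k + 2`, …, `3` are replaced. -/
def elimK : ℕ → KG → KG
  | 0, G => G
  | k + 1, G => elimK k (stepFrom k 0 G)

theorem pf_elimK {α : Type*} [TEnc α] (k : ℕ) : ∀ {G : α → KG}, PF G →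
    PF (fun x => elimK k (G x)) := by
  induction k with
  | zero => exact fun hG => hG
  | succ k ih => exact fun hG => ih (pf_step k hG)

theorem elimK_spec (k : ℕ) : ∀ G : KG, (∀ e ∈ G, 1 ≤ e.2 ∧ e.2 ≤ k + 2) →
    (KG.shape G).Bridgeless → KG.Eulerian G →
    (∀ e ∈ elimK k G, 1 ≤ e.2 ∧ e.2 ≤ 2) ∧ (KG.shape (elimK k G)).Bridgeless ∧
      KG.Eulerian (elimK k G) ∧ (KG.HasFC (elimK k G) ↔ KG.HasFC G) := by
  induction k with
  | zero => exact fun G h hB hE => ⟨h, hB, hE, Iff.rfl⟩
  | succ k ih =>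
    intro G h hB hE
    obtain ⟨h1, h2, h3, h4⟩ := ih (stepFrom k 0 G) (step_weights k G h 0)
      (step_bridgeless k 0 G hB) (step_eulerian k 0 G hE)
    exact ⟨h1, h2, h3, h4.trans (step_hasFC k 0 G)⟩

/-- The code of an edge: its two ends and its weight. -/
def codeEdgeK (e : (ℕ × ℕ) × ℕ) : List Bool :=
  true :: true :: (codeNat e.1.1 ++ codeNat e.1.2 ++ codeNat e.2)

/-- The code of a weighted graph, given by the list of its edges. -/
def codeK : KG → List Bool
  | [] => [false]
  | e :: G => true :: (codeEdgeK e ++ codeK G)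

theorem codeEdgeK_eq (e : (ℕ × ℕ) × ℕ) : codeEdgeK e = (enc e).enc := by
  obtain ⟨⟨x, y⟩, w⟩ := e
  rw [enc_pair, enc_pair, codeEdgeK, codeNat_eq, codeNat_eq, codeNat_eq]
  simp [T.enc]

theorem codeK_eq (G : KG) : codeK G = bits G := by
  induction G with
  | nil => rfl
  | cons e G ih =>
    rw [codeK, ih, codeEdgeK_eq]
    rfl

theorem codeK_injective : Function.Injective codeK := by
  intro G H h
  rw [codeK_eq, codeK_eq] at h
  exact TEnc.inj (T.enc_injective h)

open Turing in
/-- Bounded weights reduce to the weights `1`, `2` in polynomial time. -/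
theorem bounded_reduction (K : ℕ) :
    ∃ f : KG → WG ℕ, Nonempty (TM2ComputableInPolyTime codeK code f) ∧
      ∀ G : KG, (∀ e ∈ G, 1 ≤ e.2 ∧ e.2 ≤ K) → (KG.shape G).Bridgeless → KG.Eulerian G →
        (f G).Bridgeless ∧ (f G).Eulerian ∧ ((f G).HasFCC ↔ KG.HasFC G) := by
  refine ⟨fun G => toWG (elimK K G), ?_, fun G h hB hE => ?_⟩
  · obtain ⟨h⟩ := PF.toTM2 (pf_toWG (pf_elimK K (G := fun G : KG => G) PF.id))
    have e : code = fun G => bits G := funext code_eq
    have e' : codeK = fun G => bits G := funext codeK_eq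
    rw [e, e']
    exact ⟨h⟩
  · obtain ⟨h1, h2, h3, h4⟩ := elimK_spec K G (fun e he => ⟨(h e he).1, by
      have := (h e he).2
      omega⟩) hB hE
    exact ⟨toWG_bridgeless h2, toWG_eulerian h1 h3, (toWG_hasFCC h1).trans h4⟩

end Pool.Agent.W_c81d44_h88
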