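import Pool.Agent.W_c81d44_h88.KGad2

/-!
# Replacing the edges of a graph by blocks
-/

set_option autoImplicit false
set_option maxHeartbeats 1000000

namespace Pool.Agent.W_c81d44_h88

open Pool.Agent.W_c81d44_h82

/-- The old vertex `v` becomes `9 * v`. -/
def lift (β : Bd) : Bd := fun v c => if 9 ∣ v then β (v / 9) c else 0

theorem lift_zero : lift 0 = 0 := by
  funext v c
  unfold lift
  split_ifs <;> rfl

theorem lift_add (β γ : Bd) : lift (β + γ) = lift β + lift γ := by
  funext v c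
  simp only [lift, Pi.add_apply]
  split_ifs <;> simp

theorem lift_off (β : Bd) {v : ℕ} (h : ¬ 9 ∣ v) : lift β v = 0 := by
  funext c
  unfold lift
  rw [if_neg h]
  rfl

theorem lift_st (a : ℕ) (S : Finset ℕ) : lift (st a S) = st (9 * a) S := by
  funext v c
  unfold lift st
  by_cases h : 9 ∣ v
  · obtain ⟨k, rfl⟩ := h
    rw [if_pos (dvd_mul_right 9 k), Nat.mul_div_cancel_left k (by norm_num)]
    by_cases hk : a = k
    · subst hk
      simp
    · rw [if_neg hk, if_neg (by omega)]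
  · rw [if_neg h, if_neg]
    rintro rfl
    exact h (dvd_mul_right 9 a)

theorem lift_bdE (e : ℕ × ℕ) (S : Finset ℕ) :
    lift (bdE e S) = st (9 * e.1) S + st (9 * e.2) S := by
  obtain ⟨a, b⟩ := e
  rw [bdE_eq, lift_add, lift_st, lift_st]

theorem lift_eq_zero {β : Bd} (h : lift β = 0) : β = 0 := by
  funext v c
  have h1 := congrFun (congrFun h (9 * v)) c
  unfold lift at h1
  rw [if_pos (dvd_mul_right 9 v), Nat.mul_div_cancel_left v (by norm_num)] at h1
  exact h1

/-- `B` replaces the edge `e`; its new vertices are between `9 * n` and `9 * n + 9`. -/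
structure Blk (n : ℕ) (B : KG) (e : (ℕ × ℕ) × ℕ) : Prop where
  supp : ∀ x ∈ B, ∀ w, ¬ 9 ∣ w → (w < 9 * n ∨ 9 * n + 9 ≤ w) → x.1.1 ≠ w ∧ x.1.2 ≠ w
  real : ∀ γ : Bd, (∀ v, ¬ 9 ∣ v → γ v = 0) →
    (RealP PK B γ ↔ ∃ S : Finset ℕ, S.card = e.2 ∧ γ = st (9 * e.1.1) S + st (9 * e.1.2) S)

/-- The list `C` is obtained from `G` by replacing the edges by blocks. -/
inductive Blks : ℕ → KG → KG → Prop
  | nil (n : ℕ) : Blks n [] []
  | cons {n : ℕ} {B C G : KG} {e : (ℕ × ℕ) × ℕ} (h : Blk n B e) (h' : Blks (n + 1) C G) :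
      Blks n (B ++ C) (e :: G)

theorem Blks.supp {n : ℕ} {C G : KG} (h : Blks n C G) :
    ∀ x ∈ C, ∀ w, ¬ 9 ∣ w → w < 9 * n → x.1.1 ≠ w ∧ x.1.2 ≠ w := by
  induction h with
  | nil => simp
  | cons h _ ih =>
    intro x hx w hw hn
    rcases List.mem_append.1 hx with hx | hx
    · exact h.supp x hx w hw (Or.inl hn)
    · exact ih x hx w hw (by omega)

theorem Blks.real {n : ℕ} {C G : KG} (h : Blks n C G) :
    ∀ γ : Bd, (∀ v, ¬ 9 ∣ v → γ v = 0) →
      (RealP PK C γ ↔ ∃ β, RealP PK G β ∧ γ = lift β) := by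
  induction h with
  | nil =>
    intro γ _
    constructor
    · intro h
      have h3 : γ = 0 := h
      exact ⟨0, rfl, by rw [h3, lift_zero]⟩
    · rintro ⟨β, h1, rfl⟩
      have h3 : β = 0 := h1
      rw [h3, lift_zero]
      rfl
  | @cons n B C G e hB hC ih =>
    intro γ hγ
    rw [realP_append]
    constructor
    · rintro ⟨γ1, h1, h2⟩
      have hz : ∀ v, ¬ 9 ∣ v → γ1 v = 0 := by
        intro v hv
        by_cases hw : v < 9 * n ∨ 9 * n + 9 ≤ v
        · exact realP_supp (fun x hx => hB.supp x hx v hv hw) h1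
        · have h3 := realP_supp (fun x hx => hC.supp x hx v hv (by omega)) h2
          have h4 : γ v + γ1 v = 0 := h3
          rw [hγ v hv, zero_add] at h4
          exact h4
      obtain ⟨S, hS, h3⟩ := (hB.real γ1 hz).1 h1
      obtain ⟨β', h4, h5⟩ := (ih (γ + γ1) (fun v hv => by
        rw [Pi.add_apply, hγ v hv, hz v hv, add_zero])).1 h2
      refine ⟨β' + bdE e.1 S, ⟨S, hS, ?_⟩, ?_⟩
      · rw [add_assoc, bd_self, add_zero]
        exact h4
      · rw [lift_add, lift_bdE, ← h3, ← h5, add_assoc, bd_self, add_zero]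
    · rintro ⟨β, ⟨S, hS, h1⟩, rfl⟩
      refine ⟨lift (bdE e.1 S), ?_, ?_⟩
      · rw [hB.real _ (fun v hv => lift_off _ hv)]
        exact ⟨S, hS, lift_bdE _ _⟩
      · rw [← lift_add, ih _ (fun v hv => lift_off _ hv)]
        exact ⟨_, h1, rfl⟩

theorem Blks.hasFC {n : ℕ} {C G : KG} (h : Blks n C G) : KG.HasFC C ↔ KG.HasFC G := by
  rw [hasFC_iff_real, hasFC_iff_real, h.real 0 (fun v _ => rfl)]
  constructor
  · rintro ⟨β, h1, h2⟩
    rw [lift_eq_zero h2.symm] at h1
    exact h1
  · intro h1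
    exact ⟨0, h1, lift_zero.symm⟩

theorem blk_edge (n a b w : ℕ) : Blk n [((9 * a, 9 * b), w)] ((a, b), w) where
  supp := by
    intro x hx v hv _
    rw [List.mem_singleton] at hx
    subst hx
    refine ⟨fun h => hv ?_, fun h => hv ?_⟩
    · rw [← h]
      exact dvd_mul_right 9 a
    · rw [← h]
      exact dvd_mul_right 9 b
  real := by
    intro γ _
    constructor
    · rintro ⟨S, hS, h⟩
      refine ⟨S, hS, ?_⟩
      have h1 : γ + bdE (9 * a, 9 * b) S = 0 := h
      have h2 : γ = γ + bdE (9 * a, 9 * b) S + bdE (9 * a, 9 * b) S := by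
        rw [add_assoc, bd_self, add_zero]
      rw [h2, h1, zero_add, bdE_eq]
    · rintro ⟨S, hS, rfl⟩
      refine ⟨S, hS, ?_⟩
      show _ = (0 : Bd)
      rw [bdE_eq]
      exact bd_self _

theorem kgad_supp (n m w1 w2 a b : ℕ) : ∀ x ∈ kgad m w1 w2 (9 * a) (9 * b) (9 * n + 1), ∀ w,
    ¬ 9 ∣ w → (w < 9 * n ∨ 9 * n + 9 ≤ w) → x.1.1 ≠ w ∧ x.1.2 ≠ w := by
  intro x hx w hw hn
  have ha : 9 * a ≠ w := fun h => hw (by rw [← h]; exact dvd_mul_right 9 a)
  have hb : 9 * b ≠ w := fun h => hw (by rw [← h]; exact dvd_mul_right 9 b)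
  unfold kgad at hx
  simp only [List.mem_cons, List.not_mem_nil, or_false] at hx
  rcases hx with rfl | rfl | rfl | rfl | rfl | rfl | rfl | rfl | rfl | rfl | rfl | rfl | rfl | rfl
  all_goals
    constructor
    · first
      | exact ha
      | exact hb
      | (show _ ≠ _; simp only; omega)
    · first
      | exact ha
      | exact hb
      | (show _ ≠ _; simp only; omega)

theorem kgad_off {n : ℕ} {γ : Bd} (h : ∀ v, ¬ 9 ∣ v → γ v = 0) : ∀ i < 8, γ (9 * n + 1 + i) = 0 :=
  fun i hi => h _ (by omega)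

/-- The gadget replaces an edge of weight `m + 3`. -/
theorem blk_kgad (n m a b : ℕ) :
    Blk n (kgad m (m + 2) (m + 2) (9 * a) (9 * b) (9 * n + 1)) ((a, b), m + 3) where
  supp := kgad_supp n m _ _ a b
  real := by
    intro γ hγ
    constructor
    · intro h
      obtain ⟨X, h1, h2, _, _⟩ := kgad_sound (by omega) (by omega) h (kgad_off hγ)
      exact ⟨X, h2 rfl rfl, h1⟩
    · rintro ⟨S, hS, rfl⟩
      exact kgad_complete hS

/-- The gadget with one weight lowered replaces an edge of weight `m + 1`. -/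
theorem blk_dec1 (n m a b : ℕ) :
    Blk n (kgad m m (m + 2) (9 * a) (9 * b) (9 * n + 1)) ((a, b), m + 1) where
  supp := kgad_supp n m _ _ a b
  real := by
    intro γ hγ
    constructor
    · intro h
      obtain ⟨X, h1, _, h2, _⟩ := kgad_sound (by omega) (by omega) h (kgad_off hγ)
      exact ⟨X, h2 rfl rfl, h1⟩
    · rintro ⟨S, hS, rfl⟩
      exact kgad_complete1 hS

/-- The gadget with the other weight lowered replaces an edge of weight `m + 1`. -/
theorem blk_dec2 (n m a b : ℕ) :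
    Blk n (kgad m (m + 2) m (9 * a) (9 * b) (9 * n + 1)) ((a, b), m + 1) where
  supp := kgad_supp n m _ _ a b
  real := by
    intro γ hγ
    constructor
    · intro h
      obtain ⟨X, h1, _, _, h2⟩ := kgad_sound (by omega) (by omega) h (kgad_off hγ)
      exact ⟨X, h2 rfl rfl, h1⟩
    · rintro ⟨S, hS, rfl⟩
      exact kgad_complete2 hS

/-- The block of the edge `e` number `n`: the gadget if the weight is `m + 3`. -/
def blk (m n : ℕ) (e : (ℕ × ℕ) × ℕ) : KG :=
  if e.2 = m + 3 then kgad m (m + 2) (m + 2) (9 * e.1.1) (9 * e.1.2) (9 * n + 1)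
  else [((9 * e.1.1, 9 * e.1.2), e.2)]

/-- All edges of weight `m + 3` are replaced. -/
def stepFrom (m : ℕ) : ℕ → KG → KG
  | _, [] => []
  | n, e :: G => blk m n e ++ stepFrom m (n + 1) G

theorem blk_ok (m n : ℕ) (e : (ℕ × ℕ) × ℕ) : Blk n (blk m n e) e := by
  obtain ⟨⟨a, b⟩, w⟩ := e
  unfold blk
  by_cases h : w = m + 3
  · subst h
    rw [if_pos rfl]
    exact blk_kgad n m a b
  · rw [if_neg h]
    exact blk_edge n a b w

theorem blks_step (m : ℕ) (G : KG) : ∀ n, Blks n (stepFrom m n G) G := by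
  induction G with
  | nil => exact fun n => Blks.nil n
  | cons e G ih => exact fun n => Blks.cons (blk_ok m n e) (ih (n + 1))

theorem step_hasFC (m n : ℕ) (G : KG) : KG.HasFC (stepFrom m n G) ↔ KG.HasFC G :=
  (blks_step m G n).hasFC

/-- Weights after one step. -/
theorem step_weights (m : ℕ) (G : KG) (h : ∀ e ∈ G, 1 ≤ e.2 ∧ e.2 ≤ m + 3) :
    ∀ n, ∀ e ∈ stepFrom m n G, 1 ≤ e.2 ∧ e.2 ≤ m + 2 := by
  induction G with
  | nil =>
    intro n e he
    exact absurd he (List.not_mem_nil)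
  | cons e0 G ih =>
    intro n e he
    have he' : e ∈ blk m n e0 ++ stepFrom m (n + 1) G := he
    rcases List.mem_append.1 he' with h1 | h1
    · have h2 := h e0 List.mem_cons_self
      unfold blk at h1
      split_ifs at h1 with h3
      · unfold kgad at h1
        simp only [List.mem_cons, List.not_mem_nil, or_false] at h1
        rcases h1 with rfl | rfl | rfl | rfl | rfl | rfl | rfl | rfl | rfl | rfl | rfl | rfl |
          rfl | rfl
        all_goals
          constructor <;> simp only <;> omega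
      · rw [List.mem_singleton] at h1
        subst h1
        simp only
        omega
    · exact ih (fun e he => h e (List.mem_cons_of_mem _ he)) (n + 1) e h1

end Pool.Agent.W_c81d44_h88
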