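import Pool.Agent.W_c81d44_h88.KStep

/-!
# Replacing edges keeps graphs bridgeless and weights eulerian
-/

set_option autoImplicit false
set_option maxHeartbeats 1000000

namespace Pool.Agent.W_c81d44_h88

open Pool.Agent.W_c81d44_h82

theorem countP_one {α : Type} (l : List α) (p : α → Bool) :
    l.countP p = 1 ↔ ∃ i : ℕ, ∀ j : ℕ, (∃ e, l[j]? = some e ∧ p e = true) ↔ j = i := by
  induction l with
  | nil =>
    constructor
    · intro h
      simp at h
    · rintro ⟨i, hi⟩
      have := (hi i).2 rfl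
      simp at this
  | cons a l ih =>
    rw [List.countP_cons]
    by_cases ha : p a = true
    · rw [if_pos ha]
      constructor
      · intro h
        have h0 : l.countP p = 0 := by omega
        rw [List.countP_eq_zero] at h0
        refine ⟨0, fun j => ?_⟩
        cases j with
        | zero => simp [ha]
        | succ j =>
          simp only [List.getElem?_cons_succ, Nat.succ_ne_zero, iff_false]
          rintro ⟨e, he, hp⟩
          exact h0 e (List.mem_of_getElem? he) hp
      · rintro ⟨i, hi⟩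
        have h1 : (0 : ℕ) = i := (hi 0).1 ⟨a, by simp, ha⟩
        subst h1
        have h0 : l.countP p = 0 := by
          rw [List.countP_eq_zero]
          intro e he hp
          obtain ⟨j, hj⟩ := List.mem_iff_getElem?.1 he
          have := (hi (j + 1)).1 ⟨e, by simpa using hj, hp⟩
          omega
        omega
    · rw [if_neg ha, add_zero, ih]
      constructor
      · rintro ⟨i, hi⟩
        refine ⟨i + 1, fun j => ?_⟩
        cases j with
        | zero => simp [ha]
        | succ j =>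
          rw [List.getElem?_cons_succ, hi j]
          omega
      · rintro ⟨i, hi⟩
        cases i with
        | zero =>
          have := (hi 0).2 rfl
          simp [ha] at this
        | succ i =>
          refine ⟨i, fun j => ?_⟩
          have := hi (j + 1)
          rw [List.getElem?_cons_succ] at this
          rw [this]
          omega

open scoped Classical in
/-- The edge crosses the cut. -/
noncomputable def cr {τ : Type} (A : Set ℕ) (e : (ℕ × ℕ) × τ) : Bool :=
  xor (decide (e.1.1 ∈ A)) (decide (e.1.2 ∈ A))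

theorem cr_iff {τ : Type} (A : Set ℕ) (e : (ℕ × ℕ) × τ) :
    cr A e = true ↔ (e.1.1 ∈ A ∧ e.1.2 ∉ A) ∨ (e.1.1 ∉ A ∧ e.1.2 ∈ A) := by
  unfold cr
  by_cases h1 : e.1.1 ∈ A <;> by_cases h2 : e.1.2 ∈ A <;> simp [h1, h2]

theorem bridgeless_iff (G : WG ℕ) : G.Bridgeless ↔ ∀ A : Set ℕ, G.countP (cr A) ≠ 1 := by
  have key : ∀ (A : Set ℕ) (j : ℕ), G.Crosses A j ↔ ∃ e, G[j]? = some e ∧ cr A e = true := by
    intro A j
    unfold WG.Crosses
    simp only [cr_iff]
  constructor
  · intro h A hA
    obtain ⟨i, hi⟩ := (countP_one G (cr A)).1 hA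
    exact h A i fun j => by rw [key]; exact hi j
  · intro h A i hi
    refine h A ((countP_one G (cr A)).2 ⟨i, fun j => ?_⟩)
    rw [← key]
    exact hi j

theorem shape_countP (G : KG) (A : Set ℕ) : (KG.shape G).countP (cr A) = G.countP (cr A) := by
  unfold KG.shape
  rw [List.countP_map]
  rfl

theorem kgad_bool : ∀ a b u0 u3 u4 v0 v1 v2 v3 v4 : Bool,
    let s := (xor a v1).toNat + (xor b v2).toNat + (xor u3 v3).toNat + (xor u4 v4).toNat +
      (xor u0 v0).toNat + (xor u0 a).toNat + (xor b u3).toNat + (xor u4 u0).toNat +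
      (xor u3 u4).toNat + (xor v1 v3).toNat + (xor v2 v4).toNat + (xor v0 v2).toNat +
      (xor v3 v0).toNat + (xor v4 v1).toNat
    s ≠ 1 ∧ (s = 0 → a = b) := by
  decide

theorem countP_toNat {α : Type} (p : α → Bool) (a : α) (l : List α) :
    (a :: l).countP p = (p a).toNat + l.countP p := by
  rw [List.countP_cons]
  cases h : p a <;> simp [add_comm]

theorem kgad_cut (m w1 w2 a b f : ℕ) (A : Set ℕ) :
    (kgad m w1 w2 a b f).countP (cr A) ≠ 1 ∧
      ((kgad m w1 w2 a b f).countP (cr A) = 0 → (a ∈ A ↔ b ∈ A)) := by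
  classical
  have h := kgad_bool (decide (a ∈ A)) (decide (b ∈ A)) (decide (f ∈ A)) (decide (f + 1 ∈ A))
    (decide (f + 2 ∈ A)) (decide (f + 3 ∈ A)) (decide (f + 4 ∈ A)) (decide (f + 5 ∈ A))
    (decide (f + 6 ∈ A)) (decide (f + 7 ∈ A))
  have e : (kgad m w1 w2 a b f).countP (cr A) =
      (xor (decide (a ∈ A)) (decide (f + 4 ∈ A))).toNat +
      (xor (decide (b ∈ A)) (decide (f + 5 ∈ A))).toNat +
      (xor (decide (f + 1 ∈ A)) (decide (f + 6 ∈ A))).toNat +
      (xor (decide (f + 2 ∈ A)) (decide (f + 7 ∈ A))).toNat +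
      (xor (decide (f ∈ A)) (decide (f + 3 ∈ A))).toNat +
      (xor (decide (f ∈ A)) (decide (a ∈ A))).toNat +
      (xor (decide (b ∈ A)) (decide (f + 1 ∈ A))).toNat +
      (xor (decide (f + 2 ∈ A)) (decide (f ∈ A))).toNat +
      (xor (decide (f + 1 ∈ A)) (decide (f + 2 ∈ A))).toNat +
      (xor (decide (f + 4 ∈ A)) (decide (f + 6 ∈ A))).toNat +
      (xor (decide (f + 5 ∈ A)) (decide (f + 7 ∈ A))).toNat +
      (xor (decide (f + 3 ∈ A)) (decide (f + 5 ∈ A))).toNat +
      (xor (decide (f + 6 ∈ A)) (decide (f + 3 ∈ A))).toNat +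
      (xor (decide (f + 7 ∈ A)) (decide (f + 4 ∈ A))).toNat := by
    unfold kgad
    simp only [countP_toNat, List.countP_nil, cr]
    ring
  rw [e]
  refine ⟨h.1, fun h0 => ?_⟩
  have h2 := h.2 h0
  rw [decide_eq_decide] at h2
  exact h2

theorem blk_cut (m n : ℕ) (e : (ℕ × ℕ) × ℕ) (A : Set ℕ) :
    ((blk m n e).countP (cr A) = 0 → cr {v | 9 * v ∈ A} e = false) ∧
      ((blk m n e).countP (cr A) = 1 → cr {v | 9 * v ∈ A} e = true) := by
  have h1 : cr {v | 9 * v ∈ A} e = true ↔
      (9 * e.1.1 ∈ A ∧ 9 * e.1.2 ∉ A) ∨ (9 * e.1.1 ∉ A ∧ 9 * e.1.2 ∈ A) := by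
    rw [cr_iff]
    rfl
  unfold blk
  split_ifs with h
  · have h2 := kgad_cut m (m + 2) (m + 2) (9 * e.1.1) (9 * e.1.2) (9 * n + 1) A
    refine ⟨fun h0 => ?_, fun h0 => absurd h0 h2.1⟩
    have h3 := h2.2 h0
    rw [Bool.eq_false_iff]
    intro h4
    rw [h1] at h4
    tauto
  · rw [countP_toNat, List.countP_nil, add_zero]
    have h2 : cr A ((9 * e.1.1, 9 * e.1.2), e.2) = cr {v | 9 * v ∈ A} e := by
      rw [Bool.eq_iff_iff, h1, cr_iff]
    rw [h2]
    cases cr {v | 9 * v ∈ A} e <;> simp

theorem step_cut (m : ℕ) (G : KG) (A : Set ℕ) : ∀ n,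
    ((stepFrom m n G).countP (cr A) = 0 → G.countP (cr {v | 9 * v ∈ A}) = 0) ∧
      ((stepFrom m n G).countP (cr A) = 1 → G.countP (cr {v | 9 * v ∈ A}) = 1) := by
  induction G with
  | nil => exact fun n => ⟨fun _ => rfl, fun h => absurd h (by simp [stepFrom])⟩
  | cons e G ih =>
    intro n
    have e1 : (stepFrom m n (e :: G)).countP (cr A) =
        (blk m n e).countP (cr A) + (stepFrom m (n + 1) G).countP (cr A) := List.countP_append
    rw [e1, countP_toNat]
    obtain ⟨b0, b1⟩ := blk_cut m n e A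
    obtain ⟨i0, i1⟩ := ih (n + 1)
    constructor
    · intro h
      rw [b0 (by omega), i0 (by omega)]
      rfl
    · intro h
      rcases Nat.eq_zero_or_pos ((blk m n e).countP (cr A)) with h2 | h2
      · rw [b0 h2, i1 (by omega)]
        rfl
      · rw [b1 (by omega), i0 (by omega)]
        rfl

theorem step_bridgeless (m n : ℕ) (G : KG) (h : (KG.shape G).Bridgeless) :
    (KG.shape (stepFrom m n G)).Bridgeless := by
  rw [bridgeless_iff] at h ⊢
  intro A hA
  rw [shape_countP] at hA
  have h1 := h {v | 9 * v ∈ A}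
  rw [shape_countP] at h1
  exact h1 ((step_cut m G A n).2 hA)

/-- The total weight at `v` modulo `2`. -/
def wd (G : KG) (v : ℕ) : ZMod 2 := (G.map (fun e => (e.2 : ZMod 2) * en e.1 v)).sum

theorem wd_cons (e : (ℕ × ℕ) × ℕ) (G : KG) (v : ℕ) :
    wd (e :: G) v = (e.2 : ZMod 2) * en e.1 v + wd G v := by
  unfold wd
  rw [List.map_cons, List.sum_cons]

theorem wd_append (G H : KG) (v : ℕ) : wd (G ++ H) v = wd G v + wd H v := by
  unfold wd
  rw [List.map_append, List.sum_append]

theorem eulerian_iff (G : KG) : KG.Eulerian G ↔ ∀ v, wd G v = 0 := by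
  have key : ∀ v, ((∑ i ∈ Finset.range G.length, KG.wt G i * (KG.shape G).endsAt i v : ℕ) : ZMod 2)
      = wd G v := by
    intro v
    induction G with
    | nil => simp [wd]
    | cons e G ih =>
      rw [List.length_cons, Finset.sum_range_succ', wd_cons, ← ih]
      push_cast
      rw [add_comm]
      congr 1
      have : (KG.wt (e :: G) 0 : ℕ) = e.2 := rfl
      rw [this]
      have h2 : (KG.shape (e :: G)).endsAt 0 v = ends (e.1, false) v := rfl
      rw [h2, ends_cast]
  unfold KG.Eulerian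
  constructor
  · intro h v
    rw [← key, ZMod.natCast_eq_zero_iff_even]
    exact h v
  · intro h v
    rw [← ZMod.natCast_eq_zero_iff_even, key]
    exact h v

theorem wd_kgad (m a b f v : ℕ) :
    wd (kgad m (m + 2) (m + 2) a b f) v = ((m + 3 : ℕ) : ZMod 2) * en (a, b) v := by
  unfold kgad
  simp only [wd_cons, en]
  have h0 : wd [] v = 0 := rfl
  rw [h0]
  push_cast
  generalize (if a = v then (1 : ZMod 2) else 0) = xa
  generalize (if b = v then (1 : ZMod 2) else 0) = xb
  generalize (if f = v then (1 : ZMod 2) else 0) = x0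
  generalize (if f + 1 = v then (1 : ZMod 2) else 0) = x1
  generalize (if f + 2 = v then (1 : ZMod 2) else 0) = x2
  generalize (if f + 3 = v then (1 : ZMod 2) else 0) = x3
  generalize (if f + 4 = v then (1 : ZMod 2) else 0) = x4
  generalize (if f + 5 = v then (1 : ZMod 2) else 0) = x5
  generalize (if f + 6 = v then (1 : ZMod 2) else 0) = x6
  generalize (if f + 7 = v then (1 : ZMod 2) else 0) = x7
  generalize (m : ZMod 2) = k
  have h2 : (2 : ZMod 2) = 0 := rfl
  linear_combination (2 * x0 + (k + 2) * x1 + (k + 2) * x2 + 2 * x3 + (k + 2) * x4 +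
    (k + 2) * x5 + (k + 2) * x6 + (k + 2) * x7) * h2

theorem wd_blk (m n : ℕ) (e : (ℕ × ℕ) × ℕ) (v : ℕ) :
    wd (blk m n e) v = (e.2 : ZMod 2) * en (9 * e.1.1, 9 * e.1.2) v := by
  unfold blk
  split_ifs with h
  · rw [wd_kgad, h]
  · rw [wd_cons]
    have h0 : wd [] v = 0 := rfl
    rw [h0, add_zero]

theorem wd_step (m : ℕ) (G : KG) (v : ℕ) : ∀ n,
    wd (stepFrom m n G) v = if 9 ∣ v then wd G (v / 9) else 0 := by
  induction G with
  | nil =>
    intro n
    have h0 : wd [] v = 0 := rfl
    have h1 : wd [] (v / 9) = 0 := rfl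
    show wd [] v = _
    rw [h0, h1]
    split_ifs <;> rfl
  | cons e G ih =>
    intro n
    show wd (blk m n e ++ stepFrom m (n + 1) G) v = _
    rw [wd_append, wd_blk, ih, wd_cons]
    by_cases h : 9 ∣ v
    · obtain ⟨k, rfl⟩ := h
      rw [if_pos (dvd_mul_right 9 k), if_pos (dvd_mul_right 9 k),
        Nat.mul_div_cancel_left k (by norm_num)]
      congr 2
      unfold en
      congr 1
      · by_cases hk : e.1.1 = k
        · rw [if_pos hk, if_pos (by rw [hk])]
        · rw [if_neg hk, if_neg (by simp only; omega)]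
      · by_cases hk : e.1.2 = k
        · rw [if_pos hk, if_pos (by rw [hk])]
        · rw [if_neg hk, if_neg (by simp only; omega)]
    · rw [if_neg h, if_neg h, add_zero]
      unfold en
      rw [if_neg, if_neg]
      · simp
      · simp only
        omega
      · simp only
        omega

theorem step_eulerian (m n : ℕ) (G : KG) (h : KG.Eulerian G) :
    KG.Eulerian (stepFrom m n G) := by
  rw [eulerian_iff] at h ⊢
  intro v
  rw [wd_step]
  split_ifs
  · exact h _
  · rfl

/-- Weights `1`, `2` as flags. -/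
def toWG (G : KG) : WG ℕ := G.map (fun e => (e.1, decide (e.2 = 2)))

theorem toWG_bridgeless {G : KG} (h : (KG.shape G).Bridgeless) : (toWG G).Bridgeless := by
  rw [bridgeless_iff] at h ⊢
  intro A hA
  refine h A ?_
  rw [shape_countP]
  unfold toWG at hA
  rw [List.countP_map] at hA
  exact hA

theorem toWG_real {G : KG} (h : ∀ e ∈ G, 1 ≤ e.2 ∧ e.2 ≤ 2) :
    ∀ β : Bd, RealP PW (toWG G) β ↔ RealP PK G β := by
  induction G with
  | nil => exact fun β => Iff.rfl
  | cons e G ih =>
    intro β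
    have h1 := h e List.mem_cons_self
    have h2 := ih (fun e he => h e (List.mem_cons_of_mem _ he))
    have h3 : ∀ S : Finset ℕ, PW (e.1, decide (e.2 = 2)) S ↔ PK e S := by
      intro S
      unfold PW PK
      have : e.2 = 1 ∨ e.2 = 2 := by omega
      rcases this with h | h <;> simp [h]
    constructor
    · rintro ⟨S, hS, h4⟩
      exact ⟨S, (h3 S).1 hS, (h2 _).1 h4⟩
    · rintro ⟨S, hS, h4⟩
      exact ⟨S, (h3 S).2 hS, (h2 _).2 h4⟩

theorem toWG_hasFCC {G : KG} (h : ∀ e ∈ G, 1 ≤ e.2 ∧ e.2 ≤ 2) :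
    (toWG G).HasFCC ↔ KG.HasFC G := by
  rw [hasFCC_iff_col, col_iff_real, hasFC_iff_real]
  exact toWG_real h 0

theorem toWG_eulerian {G : KG} (h : ∀ e ∈ G, 1 ≤ e.2 ∧ e.2 ≤ 2) (hE : KG.Eulerian G) :
    (toWG G).Eulerian := by
  rw [eulerian_iff] at hE
  intro v
  rw [← ZMod.natCast_eq_zero_iff_even, ← hE v]
  clear hE
  rw [Finset.sum_filter]
  push_cast
  induction G with
  | nil => simp [toWG, wd]
  | cons e G ih =>
    have h1 := h e List.mem_cons_self
    have h2 := ih (fun e he => h e (List.mem_cons_of_mem _ he))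
    have h3 : toWG (e :: G) = (e.1, decide (e.2 = 2)) :: toWG G := rfl
    rw [h3, List.length_cons, Finset.sum_range_succ', wd_cons, ← h2, add_comm]
    congr 1
    have h4 : WG.weight ((e.1, decide (e.2 = 2)) :: toWG G) 0 =
        if decide (e.2 = 2) = true then 2 else 1 := rfl
    have h5 : WG.endsAt ((e.1, decide (e.2 = 2)) :: toWG G) 0 v =
        ends (e.1, decide (e.2 = 2)) v := rfl
    rw [h4, h5, ends_cast]
    have h6 : e.2 = 1 ∨ e.2 = 2 := by omega
    have h7 : (2 : ZMod 2) = 0 := rfl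
    rcases h6 with h | h
    · simp [h]
    · simp [h, h7]

end Pool.Agent.W_c81d44_h88
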