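import Pool.Agent.W_c81d44_h88.Piece

/-!
# The merging gadget: two copies of the Petersen graph minus a path, glued along a heavy edge
-/

set_option autoImplicit false

namespace Pool.Agent.W_c81d44_h88

open Pool.Agent.W_c81d44_h82

/-- The merging gadget with inner vertices `M, …, M + 13`: entrances `p`, `q` and `u`, `v`, exit
`e`, `f`. -/
def merge (M p q u v e f : ℕ) : WG ℕ :=
  [((M, M + 1), true), ((M + 2, M + 3), true), ((M + 4, M + 5), true), ((M + 7, M + 8), true),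
   ((M + 9, M + 10), true), ((M + 11, M + 12), true), ((M + 6, M + 13), true),
   ((M, M + 2), false), ((M + 2, M + 4), false), ((M + 1, M + 5), false), ((M + 3, M + 6), false),
   ((M + 5, M + 6), false), ((M + 7, M + 9), false), ((M + 9, M + 11), false),
   ((M + 8, M + 12), false), ((M + 10, M + 13), false), ((M + 12, M + 13), false),
   ((M, M + 7), false), ((p, M + 1), false), ((q, M + 3), false), ((u, M + 8), false),
   ((v, M + 10), false), ((e, M + 4), false), ((f, M + 11), false)]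

/-- The colours of the light edges of a merging gadget. -/
def MS (c s x t r y k z l s2 x2 t2 r2 y2 k2 z2 l2 : ℕ) : Prop :=
  Nd c s x t ∧
  Nd s r y k ∧
  Nd r z t l ∧
  Nd c s2 x2 t2 ∧
  Nd s2 r2 y2 k2 ∧
  Nd r2 z2 t2 l2 ∧
  Nd l k l2 k2

theorem merge_complete (M p q u v e f : ℕ) {c s x t r y k z l s2 x2 t2 r2 y2 k2 z2 l2 : ℕ}
    (h : MS c s x t r y k z l s2 x2 t2 r2 y2 k2 z2 l2) :
    RealP PW (merge M p q u v e f) (dl p x + dl q y + dl u x2 + dl v y2 + dl e z + dl f z2) := by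
  obtain ⟨h1, h2, h3, h4, h5, h6, h7⟩ := h
  refine ⟨{c, s}, Finset.card_pair h1.1, {s, r}, Finset.card_pair h2.1,
    {r, z}, Finset.card_pair h3.1, {c, s2}, Finset.card_pair h4.1,
    {s2, r2}, Finset.card_pair h5.1, {r2, z2}, Finset.card_pair h6.1,
    {l, k}, Finset.card_pair h7.1, {s}, rfl, {r}, rfl, {t}, rfl, {k}, rfl, {l}, rfl, {s2}, rfl,
    {r2}, rfl, {t2}, rfl, {k2}, rfl, {l2}, rfl, {c}, rfl, {x}, rfl, {y}, rfl, {x2}, rfl,
    {y2}, rfl, {z}, rfl, {z2}, rfl, ?_⟩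
  have e1 := h1.dl (M + 1)
  have e2 := h2.dl (M + 3)
  have e3 := h3.dl (M + 5)
  have e4 := h4.dl (M + 8)
  have e5 := h5.dl (M + 10)
  have e6 := h6.dl (M + 12)
  have e7 := h7.dl (M + 13)
  show _ = (0 : Bd)
  simp only [bdE_eq, st_pair _ h1.1, st_pair _ h2.1, st_pair _ h3.1, st_pair _ h4.1, st_pair _ h5.1, st_pair _ h6.1, st_pair _ h7.1]
  linear_combination e1 + e2 + e3 + e4 + e5 + e6 + e7 + (dl p x + dl q y + dl u x2 + dl v y2 +
    dl e z + dl f z2 + dl M c + dl M s + dl (M + 1) x + dl (M + 1) t + dl (M + 2) s +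
    dl (M + 2) r + dl (M + 3) y + dl (M + 3) k + dl (M + 4) r + dl (M + 4) z + dl (M + 5) t +
    dl (M + 5) l + dl (M + 7) c + dl (M + 7) s2 + dl (M + 8) x2 + dl (M + 8) t2 + dl (M + 9) s2 +
    dl (M + 9) r2 + dl (M + 10) y2 + dl (M + 10) k2 + dl (M + 11) r2 + dl (M + 11) z2 +
    dl (M + 12) t2 + dl (M + 12) l2 + dl (M + 6) l + dl (M + 6) k + dl (M + 13) l2 +
    dl (M + 13) k2) * two_bd

/-- A heavy edge and two light edges at a vertex. -/
def tri (v : ℕ) (A : Finset ℕ) (x y : ℕ) : Bd := st v A + dl v x + dl v y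

theorem tri_ne {u v : ℕ} (h : u ≠ v) (A : Finset ℕ) (x y : ℕ) : tri u A x y v = 0 := by
  unfold tri
  simp only [Pi.add_apply, st_ne h, add_zero]

theorem tri_self (v : ℕ) (A : Finset ℕ) (x y : ℕ) : tri v A x y v = ch A + ch {x} + ch {y} := by
  unfold tri
  simp only [Pi.add_apply, st_self]

theorem tri_zero {A : Finset ℕ} {x y : ℕ} (h : ch A + ch {x} + ch {y} = 0) (v : ℕ) :
    tri v A x y = 0 := st_zero h v

theorem merge_sound {M p q u v e f : ℕ} (hp : p < M ∨ M + 14 ≤ p) (hq : q < M ∨ M + 14 ≤ q)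
    (hu : u < M ∨ M + 14 ≤ u) (hv : v < M ∨ M + 14 ≤ v) (he : e < M ∨ M + 14 ≤ e)
    (hf : f < M ∨ M + 14 ≤ f) {η : Bd} (h : RealP PW (merge M p q u v e f) η)
    (h0 : ∀ i < 14, η (M + i) = 0) :
    ∃ c s x t r y k z l s2 x2 t2 r2 y2 k2 z2 l2, MS c s x t r y k z l s2 x2 t2 r2 y2 k2 z2 l2 ∧
      η = dl p x + dl q y + dl u x2 + dl v y2 + dl e z + dl f z2 := by
  obtain ⟨A, hA, B, hB, C, hC, A2, hA2, B2, hB2, C2, hC2, D, hD, S0, hs, S1, hr, S2, ht, S3, hk,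
    S4, hl, S5, hs2, S6, hr2, S7, ht2, S8, hk2, S9, hl2, S10, hc, S11, hx, S12, hy, S13, hx2,
    S14, hy2, S15, hz, S16, hz2, h⟩ := h
  obtain ⟨s, rfl⟩ := Finset.card_eq_one.1 hs
  obtain ⟨r, rfl⟩ := Finset.card_eq_one.1 hr
  obtain ⟨t, rfl⟩ := Finset.card_eq_one.1 ht
  obtain ⟨k, rfl⟩ := Finset.card_eq_one.1 hk
  obtain ⟨l, rfl⟩ := Finset.card_eq_one.1 hl
  obtain ⟨s2, rfl⟩ := Finset.card_eq_one.1 hs2
  obtain ⟨r2, rfl⟩ := Finset.card_eq_one.1 hr2
  obtain ⟨t2, rfl⟩ := Finset.card_eq_one.1 ht2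
  obtain ⟨k2, rfl⟩ := Finset.card_eq_one.1 hk2
  obtain ⟨l2, rfl⟩ := Finset.card_eq_one.1 hl2
  obtain ⟨c, rfl⟩ := Finset.card_eq_one.1 hc
  obtain ⟨x, rfl⟩ := Finset.card_eq_one.1 hx
  obtain ⟨y, rfl⟩ := Finset.card_eq_one.1 hy
  obtain ⟨x2, rfl⟩ := Finset.card_eq_one.1 hx2
  obtain ⟨y2, rfl⟩ := Finset.card_eq_one.1 hy2
  obtain ⟨z, rfl⟩ := Finset.card_eq_one.1 hz
  obtain ⟨z2, rfl⟩ := Finset.card_eq_one.1 hz2
  have hη : η = (dl p x + dl q y + dl u x2 + dl v y2 + dl e z + dl f z2) +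
      (tri M A c s + tri (M + 1) A x t + tri (M + 2) B s r + tri (M + 3) B y k +
      tri (M + 4) C r z + tri (M + 5) C t l + tri (M + 6) D l k + tri (M + 7) A2 c s2 +
      tri (M + 8) A2 x2 t2 + tri (M + 9) B2 s2 r2 + tri (M + 10) B2 y2 k2 +
      tri (M + 11) C2 r2 z2 + tri (M + 12) C2 t2 l2 + tri (M + 13) D l2 k2) := by
    have h' : η + bdE (M, M + 1) A + bdE (M + 2, M + 3) B + bdE (M + 4, M + 5) C +
      bdE (M + 7, M + 8) A2 + bdE (M + 9, M + 10) B2 + bdE (M + 11, M + 12) C2 +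
      bdE (M + 6, M + 13) D + bdE (M, M + 2) {s} + bdE (M + 2, M + 4) {r} +
      bdE (M + 1, M + 5) {t} + bdE (M + 3, M + 6) {k} + bdE (M + 5, M + 6) {l} +
      bdE (M + 7, M + 9) {s2} + bdE (M + 9, M + 11) {r2} + bdE (M + 8, M + 12) {t2} +
      bdE (M + 10, M + 13) {k2} + bdE (M + 12, M + 13) {l2} + bdE (M, M + 7) {c} +
      bdE (p, M + 1) {x} + bdE (q, M + 3) {y} + bdE (u, M + 8) {x2} + bdE (v, M + 10) {y2} +
      bdE (e, M + 4) {z} + bdE (f, M + 11) {z2} = 0 := h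
    simp only [bdE_eq] at h'
    simp only [tri]
    linear_combination h' - ((dl p x + dl q y + dl u x2 + dl v y2 + dl e z + dl f z2) +
      ((st M A + dl M c + dl M s) + (st (M + 1) A + dl (M + 1) x + dl (M + 1) t) +
      (st (M + 2) B + dl (M + 2) s + dl (M + 2) r) +
      (st (M + 3) B + dl (M + 3) y + dl (M + 3) k) +
      (st (M + 4) C + dl (M + 4) r + dl (M + 4) z) +
      (st (M + 5) C + dl (M + 5) t + dl (M + 5) l) +
      (st (M + 6) D + dl (M + 6) l + dl (M + 6) k) +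
      (st (M + 7) A2 + dl (M + 7) c + dl (M + 7) s2) +
      (st (M + 8) A2 + dl (M + 8) x2 + dl (M + 8) t2) +
      (st (M + 9) B2 + dl (M + 9) s2 + dl (M + 9) r2) +
      (st (M + 10) B2 + dl (M + 10) y2 + dl (M + 10) k2) +
      (st (M + 11) C2 + dl (M + 11) r2 + dl (M + 11) z2) +
      (st (M + 12) C2 + dl (M + 12) t2 + dl (M + 12) l2) +
      (st (M + 13) D + dl (M + 13) l2 + dl (M + 13) k2))) * two_bd
  have v0 := h0 0 (by norm_num)
  have v1 := h0 1 (by norm_num)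
  have v2 := h0 2 (by norm_num)
  have v3 := h0 3 (by norm_num)
  have v4 := h0 4 (by norm_num)
  have v5 := h0 5 (by norm_num)
  have v6 := h0 6 (by norm_num)
  have v7 := h0 7 (by norm_num)
  have v8 := h0 8 (by norm_num)
  have v9 := h0 9 (by norm_num)
  have v10 := h0 10 (by norm_num)
  have v11 := h0 11 (by norm_num)
  have v12 := h0 12 (by norm_num)
  have v13 := h0 13 (by norm_num)
  rw [hη] at v0 v1 v2 v3 v4 v5 v6 v7 v8 v9 v10 v11 v12 v13
  simp (disch := omega) only [Pi.add_apply, tri_ne, st_ne, tri_self, add_zero, zero_add]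
    at v0 v1 v2 v3 v4 v5 v6 v7 v8 v9 v10 v11 v12 v13
  have n1 : Nd c s x t := nd_of hA (by linear_combination v0) (by linear_combination v1)
  have n2 : Nd s r y k := nd_of hB (by linear_combination v2) (by linear_combination v3)
  have n3 : Nd r z t l := nd_of hC (by linear_combination v4) (by linear_combination v5)
  have n4 : Nd c s2 x2 t2 := nd_of hA2 (by linear_combination v7) (by linear_combination v8)
  have n5 : Nd s2 r2 y2 k2 := nd_of hB2 (by linear_combination v9) (by linear_combination v10)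
  have n6 : Nd r2 z2 t2 l2 := nd_of hC2 (by linear_combination v11) (by linear_combination v12)
  have n7 : Nd l k l2 k2 := nd_of hD (by linear_combination v6) (by linear_combination v13)
  refine ⟨c, s, x, t, r, y, k, z, l, s2, x2, t2, r2, y2, k2, z2, l2, ⟨n1, n2, n3, n4, n5, n6, n7⟩, ?_⟩
  rw [hη, tri_zero v0, tri_zero v1, tri_zero v2, tri_zero v3, tri_zero v4, tri_zero v5, tri_zero v6, tri_zero v7, tri_zero v8, tri_zero v9, tri_zero v10, tri_zero v11, tri_zero v12, tri_zero v13]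
  ring

/-- Equal colours at one of the two entrances force equal colours at the exit. -/
theorem ms_sound {c s x t r y k z l s2 x2 t2 r2 y2 k2 z2 l2 : ℕ}
    (h : MS c s x t r y k z l s2 x2 t2 r2 y2 k2 z2 l2) : (x = y → z = z2) ∧ (x2 = y2 → z = z2) := by
  obtain ⟨h1, h2, h3, h4, h5, h6, h7⟩ := h
  unfold Nd at h1 h2 h3 h4 h5 h6 h7
  have key : ∀ {c s x t r y k z l : ℕ}, (c ≠ s ∧ ((c = x ∧ s = t) ∨ (c = t ∧ s = x))) →
      (s ≠ r ∧ ((s = y ∧ r = k) ∨ (s = k ∧ r = y))) →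
      (r ≠ z ∧ ((r = t ∧ z = l) ∨ (r = l ∧ z = t))) → l ≠ k → (x = y ∨ l = c ∨ k = c) →
      (l = c ∧ k = z) ∨ (l = z ∧ k = c) := by
    intro c s x t r y k z l g1 g2 g3 g4 g5
    rcases g1 with ⟨a1, ⟨a2, a3⟩ | ⟨a2, a3⟩⟩ <;> rcases g2 with ⟨b1, ⟨b2, b3⟩ | ⟨b2, b3⟩⟩ <;>
      rcases g3 with ⟨c1, ⟨c2, c3⟩ | ⟨c2, c3⟩⟩ <;> omega
  have g7 : l2 ≠ k2 := by omega
  constructor
  · intro hxy
    have k1 := key h1 h2 h3 h7.1 (Or.inl hxy)
    have k2' := key h4 h5 h6 g7 (by omega)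
    have e1 := h3.1
    have e2 := h6.1
    omega
  · intro hxy
    have k2' := key h4 h5 h6 g7 (Or.inl hxy)
    have k1 := key h1 h2 h3 h7.1 (by omega)
    omega

/-- The relation of a merging gadget. -/
def MR (x y x2 y2 z z2 : ℕ) : Prop :=
  ∃ c s t r k l s2 t2 r2 k2 l2, MS c s x t r y k z l s2 x2 t2 r2 y2 k2 z2 l2

theorem mr_on {z v : ℕ} (h : v ≠ z) : MR v v v v z z := by
  refine ⟨v, z, z, v, z, v, z, z, v, z, v, ?_⟩
  unfold MS Nd
  omega

theorem mr_off {z z2 w : ℕ} (h1 : z ≠ z2) (h2 : w ≠ z) (h3 : w ≠ z2) : MR z2 w z w z z2 := by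
  refine ⟨z, z2, z, w, z2, w, z2, z2, w, z2, w, ?_⟩
  unfold MS Nd
  omega

end Pool.Agent.W_c81d44_h88
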