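import Pool.Agent.W_c81d44_h88.Pole

/-!
# The piece of the Petersen graph as a pole
-/

set_option autoImplicit false

namespace Pool.Agent.W_c81d44_h88

open Pool.Agent.W_c81d44_h82

/-- The piece with inner vertices `M, …, M + 7`: entrance `p`, `q`, tap `a`, `b`, exit `e`, `f`. -/
def piece (M p q a b e f : ℕ) : WG ℕ :=
  [((M, M + 1), true), ((M + 2, M + 3), true), ((M + 4, M + 5), true), ((M + 6, M + 7), true),
   ((M, M + 2), false), ((M + 2, M + 4), false), ((M + 1, M + 5), false),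
   ((M + 3, M + 7), false), ((M + 5, M + 7), false),
   ((p, M), false), ((q, M + 6), false), ((a, M + 1), false), ((b, M + 3), false),
   ((e, M + 4), false), ((f, M + 6), false)]

/-- The colours of the light edges of a piece. -/
def PS (c s x t r y k z l d w : ℕ) : Prop := Nd c s x t ∧ Nd s r y k ∧ Nd r z t l ∧ Nd l k d w

theorem two_bd : (2 : Bd) = 0 := by
  funext v c
  rfl

theorem piece_complete (M p q a b e f : ℕ) {c s x t r y k z l d w : ℕ}
    (h : PS c s x t r y k z l d w) :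
    RealP PW (piece M p q a b e f) (dl p c + dl q d + dl a x + dl b y + dl e z + dl f w) := by
  obtain ⟨h1, h2, h3, h4⟩ := h
  refine ⟨{c, s}, Finset.card_pair h1.1, {s, r}, Finset.card_pair h2.1, {r, z},
    Finset.card_pair h3.1, {l, k}, Finset.card_pair h4.1, {s}, rfl, {r}, rfl, {t}, rfl, {k}, rfl,
    {l}, rfl, {c}, rfl, {d}, rfl, {x}, rfl, {y}, rfl, {z}, rfl, {w}, rfl, ?_⟩
  have e1 := h1.dl (M + 1)
  have e2 := h2.dl (M + 3)
  have e3 := h3.dl (M + 5)
  have e4 := h4.dl (M + 6)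
  show _ = (0 : Bd)
  simp only [bdE_eq, st_pair _ h1.1, st_pair _ h2.1, st_pair _ h3.1, st_pair _ h4.1]
  have g0 := two_bd
  linear_combination e1 + e2 + e3 + e4 + (dl p c + dl q d + dl a x + dl b y + dl e z + dl f w +
    dl M c + dl M s + dl (M + 1) x + dl (M + 1) t + dl (M + 2) s + dl (M + 2) r +
    dl (M + 3) y + dl (M + 3) k + dl (M + 4) r + dl (M + 4) z + dl (M + 5) t + dl (M + 5) l +
    dl (M + 6) d + dl (M + 6) w + dl (M + 7) k + dl (M + 7) l) * g0

theorem piece_sound {M p q a b e f : ℕ} (hp : p < M ∨ M + 8 ≤ p) (hq : q < M ∨ M + 8 ≤ q)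
    (ha : a < M ∨ M + 8 ≤ a) (hb : b < M ∨ M + 8 ≤ b) (he : e < M ∨ M + 8 ≤ e)
    (hf : f < M ∨ M + 8 ≤ f) {η : Bd} (h : RealP PW (piece M p q a b e f) η)
    (h0 : ∀ i < 8, η (M + i) = 0) :
    ∃ c s x t r y k z l d w, PS c s x t r y k z l d w ∧
      η = dl p c + dl q d + dl a x + dl b y + dl e z + dl f w := by
  obtain ⟨A, hA, B, hB, C, hC, D, hD, S1, hs, S2, hr, S3, ht, S4, hk, S5, hl, S6, hc, S7, hd, S8,
    hx, S9, hy, S10, hz, S11, hw, h⟩ := h
  obtain ⟨s, rfl⟩ := Finset.card_eq_one.1 hs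
  obtain ⟨r, rfl⟩ := Finset.card_eq_one.1 hr
  obtain ⟨t, rfl⟩ := Finset.card_eq_one.1 ht
  obtain ⟨k, rfl⟩ := Finset.card_eq_one.1 hk
  obtain ⟨l, rfl⟩ := Finset.card_eq_one.1 hl
  obtain ⟨c, rfl⟩ := Finset.card_eq_one.1 hc
  obtain ⟨d, rfl⟩ := Finset.card_eq_one.1 hd
  obtain ⟨x, rfl⟩ := Finset.card_eq_one.1 hx
  obtain ⟨y, rfl⟩ := Finset.card_eq_one.1 hy
  obtain ⟨z, rfl⟩ := Finset.card_eq_one.1 hz
  obtain ⟨w, rfl⟩ := Finset.card_eq_one.1 hw
  have hη : η = (dl p c + dl q d + dl a x + dl b y + dl e z + dl f w) +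
      ((st M A + dl M s + dl M c) + (st (M + 1) A + dl (M + 1) x + dl (M + 1) t) +
       (st (M + 2) B + dl (M + 2) s + dl (M + 2) r) +
       (st (M + 3) B + dl (M + 3) y + dl (M + 3) k) +
       (st (M + 4) C + dl (M + 4) r + dl (M + 4) z) +
       (st (M + 5) C + dl (M + 5) t + dl (M + 5) l) +
       (st (M + 6) D + dl (M + 6) d + dl (M + 6) w) +
       (st (M + 7) D + dl (M + 7) l + dl (M + 7) k)) := by
    have h' : η + bdE (M, M + 1) A + bdE (M + 2, M + 3) B + bdE (M + 4, M + 5) C +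
      bdE (M + 6, M + 7) D + bdE (M, M + 2) {s} + bdE (M + 2, M + 4) {r} +
      bdE (M + 1, M + 5) {t} + bdE (M + 3, M + 7) {k} + bdE (M + 5, M + 7) {l} +
      bdE (p, M) {c} + bdE (q, M + 6) {d} + bdE (a, M + 1) {x} + bdE (b, M + 3) {y} +
      bdE (e, M + 4) {z} + bdE (f, M + 6) {w} = 0 := h
    simp only [bdE_eq] at h'
    linear_combination h' - ((dl p c + dl q d + dl a x + dl b y + dl e z + dl f w) +
      ((st M A + dl M s + dl M c) + (st (M + 1) A + dl (M + 1) x + dl (M + 1) t) +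
       (st (M + 2) B + dl (M + 2) s + dl (M + 2) r) +
       (st (M + 3) B + dl (M + 3) y + dl (M + 3) k) +
       (st (M + 4) C + dl (M + 4) r + dl (M + 4) z) +
       (st (M + 5) C + dl (M + 5) t + dl (M + 5) l) +
       (st (M + 6) D + dl (M + 6) d + dl (M + 6) w) +
       (st (M + 7) D + dl (M + 7) l + dl (M + 7) k))) * two_bd
  have v0 := h0 0 (by norm_num)
  have v1 := h0 1 (by norm_num)
  have v2 := h0 2 (by norm_num)
  have v3 := h0 3 (by norm_num)
  have v4 := h0 4 (by norm_num)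
  have v5 := h0 5 (by norm_num)
  have v6 := h0 6 (by norm_num)
  have v7 := h0 7 (by norm_num)
  rw [hη] at v0 v1 v2 v3 v4 v5 v6 v7
  simp (disch := omega) only [Pi.add_apply, st_ne, st_self, add_zero, zero_add]
    at v0 v1 v2 v3 v4 v5 v6 v7
  have n1 : Nd c s x t := nd_of hA (by linear_combination v0) v1
  have n2 : Nd s r y k := nd_of hB v2 v3
  have n3 : Nd r z t l := nd_of hC v4 v5
  have n4 : Nd l k d w := nd_of hD v7 v6
  refine ⟨c, s, x, t, r, y, k, z, l, d, w, ⟨n1, n2, n3, n4⟩, ?_⟩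
  rw [hη, st_zero v0, st_zero v1, st_zero v2, st_zero v3, st_zero v4, st_zero v5, st_zero v6,
    st_zero v7]
  ring

end Pool.Agent.W_c81d44_h88
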