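import Pool.Agent.W_c81d44_h82.Colour
import Pool.Agent.W_c81d44_h82.Valid

/-!
# Poles: lists of edges with prescribed boundary parities

`RealP P G β` says that the edges of the list `G` can be given sets of colours with property `P`
such that `β v c` is the parity of the number of edge ends of colour `c` at the vertex `v`.
-/

set_option autoImplicit false

namespace Pool.Agent.W_c81d44_h88

open Pool.Agent.W_c81d44_h82

/-- Boundary parities: vertex, colour. -/
abbrev Bd := ℕ → ℕ → ZMod 2

/-- Number of ends modulo `2` of a pair at the vertex `v`. -/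
def en (e : ℕ × ℕ) (v : ℕ) : ZMod 2 := (if e.1 = v then 1 else 0) + (if e.2 = v then 1 else 0)

/-- The parities of one edge carrying the set `S` of colours. -/
def bdE (e : ℕ × ℕ) (S : Finset ℕ) : Bd := fun v c => if c ∈ S then en e v else 0

/-- The set `S` of colours at the vertex `v`. -/
def st (v : ℕ) (S : Finset ℕ) : Bd := fun u c => if v = u then (if c ∈ S then 1 else 0) else 0

/-- One strand of colour `x` ending at the vertex `v`. -/
abbrev dl (v x : ℕ) : Bd := st v {x}

/-- The indicator of a set of colours. -/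
def ch (S : Finset ℕ) : ℕ → ZMod 2 := fun c => if c ∈ S then 1 else 0

variable {τ : Type}

/-- The edges of `G` can be coloured with property `P` and boundary parities `β`. -/
def RealP (P : (ℕ × ℕ) × τ → Finset ℕ → Prop) : List ((ℕ × ℕ) × τ) → Bd → Prop
  | [], β => β = 0
  | e :: G, β => ∃ S, P e S ∧ RealP P G (β + bdE e.1 S)

variable {P Q : (ℕ × ℕ) × τ → Finset ℕ → Prop}

theorem bd_self (β : Bd) : β + β = 0 := by
  funext v c
  exact CharTwo.add_self_eq_zero _

theorem realP_append (G H : List ((ℕ × ℕ) × τ)) (β : Bd) :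
    RealP P (G ++ H) β ↔ ∃ γ, RealP P G γ ∧ RealP P H (β + γ) := by
  induction G generalizing β with
  | nil =>
    constructor
    · intro h
      exact ⟨0, rfl, by simpa using h⟩
    · rintro ⟨γ, h1, h2⟩
      have h3 : γ = 0 := h1
      subst h3
      simpa using h2
  | cons e G ih =>
    constructor
    · rintro ⟨S, hS, h⟩
      obtain ⟨γ, h1, h2⟩ := (ih _).1 h
      refine ⟨γ + bdE e.1 S, ⟨S, hS, ?_⟩, ?_⟩
      · rw [add_assoc, bd_self, add_zero]
        exact h1
      · have e1 : β + (γ + bdE e.1 S) = β + bdE e.1 S + γ := by ring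
        rw [e1]
        exact h2
    · rintro ⟨γ, ⟨S, hS, h1⟩, h2⟩
      refine ⟨S, hS, (ih _).2 ⟨γ + bdE e.1 S, h1, ?_⟩⟩
      have e1 : β + bdE e.1 S + (γ + bdE e.1 S) = β + γ + (bdE e.1 S + bdE e.1 S) := by ring
      rw [e1, bd_self, add_zero]
      exact h2

theorem realP_mono {G : List ((ℕ × ℕ) × τ)} (h : ∀ e ∈ G, ∀ S, P e S → Q e S) :
    ∀ {β : Bd}, RealP P G β → RealP Q G β := by
  induction G with
  | nil => exact fun h => h
  | cons e G ih =>
    rintro β ⟨S, hS, h1⟩
    exact ⟨S, h e List.mem_cons_self S hS,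
      ih (fun e he => h e (List.mem_cons_of_mem _ he)) h1⟩

theorem realP_supp {G : List ((ℕ × ℕ) × τ)} {β : Bd} {v : ℕ}
    (h : ∀ e ∈ G, e.1.1 ≠ v ∧ e.1.2 ≠ v) (hr : RealP P G β) : β v = 0 := by
  induction G generalizing β with
  | nil =>
    have h3 : β = 0 := hr
    rw [h3]
    rfl
  | cons e G ih =>
    obtain ⟨S, _, h1⟩ := hr
    have h2 := ih (fun e he => h e (List.mem_cons_of_mem _ he)) h1
    have h3 := h e List.mem_cons_self
    have h4 : bdE e.1 S v = 0 := by
      funext c
      unfold bdE en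
      rw [if_neg h3.1, if_neg h3.2]
      simp
    have h5 : β v + bdE e.1 S v = 0 := h2
    rw [h4, add_zero] at h5
    exact h5

theorem realP_sum {G : List ((ℕ × ℕ) × τ)} {β : Bd} {N : ℕ}
    (h : ∀ e ∈ G, e.1.1 < N ∧ e.1.2 < N) (hr : RealP P G β) (c : ℕ) :
    ∑ v ∈ Finset.range N, β v c = 0 := by
  induction G generalizing β with
  | nil =>
    have h3 : β = 0 := hr
    rw [h3]
    simp
  | cons e G ih =>
    obtain ⟨S, _, h1⟩ := hr
    have h2 := ih (fun e he => h e (List.mem_cons_of_mem _ he)) h1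
    have h3 := h e List.mem_cons_self
    have h4 : ∑ v ∈ Finset.range N, bdE e.1 S v c = 0 := by
      unfold bdE en
      by_cases hc : c ∈ S
      · simp only [hc, if_true]
        rw [Finset.sum_add_distrib, Finset.sum_ite_eq, Finset.sum_ite_eq,
          if_pos (Finset.mem_range.2 h3.1), if_pos (Finset.mem_range.2 h3.2)]
        exact CharTwo.add_self_eq_zero _
      · simp [hc]
    have h5 : ∑ v ∈ Finset.range N, (β + bdE e.1 S) v c =
        ∑ v ∈ Finset.range N, β v c + ∑ v ∈ Finset.range N, bdE e.1 S v c := by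
      rw [← Finset.sum_add_distrib]
      rfl
    rw [h5, h4, add_zero] at h2
    exact h2

/-- Handshake: if the parities vanish at all vertices other than `0`, they vanish at `0`. -/
theorem realP_hub {G : List ((ℕ × ℕ) × τ)} {β : Bd} (hr : RealP P G β)
    (h : ∀ v, v ≠ 0 → β v = 0) : β = 0 := by
  obtain ⟨N, hN⟩ : ∃ N, 0 < N ∧ ∀ e ∈ G, e.1.1 < N ∧ e.1.2 < N := by
    clear hr h
    induction G with
    | nil => exact ⟨1, one_pos, by simp⟩
    | cons e G ih =>
      obtain ⟨N, h0, h1⟩ := ih
      refine ⟨N + e.1.1 + e.1.2 + 1, by omega, ?_⟩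
      intro e' he'
      rcases List.mem_cons.1 he' with rfl | he'
      · omega
      · have := h1 e' he'
        omega
  funext v
  by_cases hv : v = 0
  · subst hv
    funext c
    have h1 := realP_sum hN.2 hr c
    rw [Finset.sum_eq_single 0] at h1
    · exact h1
    · intro w _ hw
      rw [h w hw]
      rfl
    · intro h2
      exact absurd (Finset.mem_range.2 hN.1) h2
  · exact h v hv

/-- The number of edge ends of colour `c` at `v` in a graph with one more edge. -/
theorem par_cons (e : (ℕ × ℕ) × Bool) (G : WG ℕ) (ψ : ℕ → Finset ℕ) (v c : ℕ) :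
    WG.par (e :: G) ψ v c = WG.par G (fun i => ψ (i + 1)) v c +
      if c ∈ ψ 0 then ends e v else 0 := by
  unfold WG.par
  rw [List.length_cons, Finset.sum_range_succ']
  rfl

theorem ends_cast (e : (ℕ × ℕ) × Bool) (v : ℕ) : ((ends e v : ℕ) : ZMod 2) = en e.1 v := by
  unfold ends en
  push_cast
  rfl

theorem realP_iff {P : (ℕ × ℕ) × Bool → Finset ℕ → Prop} (G : WG ℕ) (β : Bd) :
    RealP P G β ↔ ∃ ψ : ℕ → Finset ℕ, (∀ i e, G[i]? = some e → P e (ψ i)) ∧
      ∀ v c, ((G.par ψ v c : ℕ) : ZMod 2) = β v c := by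
  induction G generalizing β with
  | nil =>
    constructor
    · intro h
      have h3 : β = 0 := h
      subst h3
      exact ⟨fun _ => ∅, by simp, by simp [WG.par]⟩
    · rintro ⟨ψ, _, h⟩
      show β = 0
      funext v c
      rw [← h]
      simp [WG.par]
  | cons e G ih =>
    constructor
    · rintro ⟨S, hS, h⟩
      obtain ⟨ψ, h1, h2⟩ := (ih _).1 h
      refine ⟨fun i => if i = 0 then S else ψ (i - 1), ?_, ?_⟩
      · intro i e' hi
        cases i with
        | zero =>
          simp only [List.getElem?_cons_zero, Option.some.injEq] at hi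
          subst hi
          simpa using hS
        | succ i =>
          simp only [List.getElem?_cons_succ] at hi
          simpa using h1 i e' hi
      · intro v c
        rw [par_cons]
        have h3 := h2 v c
        simp only [Nat.add_sub_cancel, Nat.succ_ne_zero, if_false, if_true]
        push_cast
        have h4 : (fun i => ψ i) = ψ := rfl
        rw [h4, h3]
        simp only [Pi.add_apply, bdE, ends_cast]
        rw [add_assoc, CharTwo.add_self_eq_zero, add_zero]
    · rintro ⟨ψ, h1, h2⟩
      refine ⟨ψ 0, h1 0 e (by simp), (ih _).2 ⟨fun i => ψ (i + 1), ?_, ?_⟩⟩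
      · intro i e' hi
        exact h1 (i + 1) e' (by simpa using hi)
      · intro v c
        have h3 := h2 v c
        rw [par_cons] at h3
        push_cast at h3
        simp only [ends_cast] at h3
        simp only [Pi.add_apply, bdE, ← h3]
        rw [add_assoc, CharTwo.add_self_eq_zero, add_zero]

/-- The condition on the colour sets of a faithful circuit cover. -/
def PW (e : (ℕ × ℕ) × Bool) (S : Finset ℕ) : Prop := S.card = if e.2 then 2 else 1

theorem col_iff_real (G : WG ℕ) : G.Col ↔ RealP PW G 0 := by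
  rw [realP_iff]
  constructor
  · rintro ⟨ψ, h1, h2⟩
    refine ⟨ψ, fun i e hi => ?_, fun v c => ?_⟩
    · have hlt : i < G.length := (List.getElem?_eq_some_iff.1 hi).1
      have h3 := h1 i hlt
      unfold WG.weight at h3
      rw [hi] at h3
      exact h3
    · rw [(ZMod.natCast_eq_zero_iff_even).2 (h2 v c)]
      rfl
  · rintro ⟨ψ, h1, h2⟩
    refine ⟨ψ, fun i hi => ?_, fun v c => ?_⟩
    · have h3 := h1 i _ (List.getElem?_eq_getElem hi)
      unfold WG.weight
      rw [List.getElem?_eq_getElem hi]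
      exact h3
    · have h3 := h2 v c
      exact (ZMod.natCast_eq_zero_iff_even).1 h3

theorem evenP_of {P : (ℕ × ℕ) × Bool → Finset ℕ → Prop} {G : WG ℕ} (h : RealP P G 0) :
    ∃ ψ : ℕ → Finset ℕ, (∀ v c, Even (G.par ψ v c)) ∧ ∀ i e, G[i]? = some e → P e (ψ i) := by
  obtain ⟨ψ, h1, h2⟩ := (realP_iff G 0).1 h
  exact ⟨ψ, fun v c => (ZMod.natCast_eq_zero_iff_even).1 (h2 v c), h1⟩

theorem bdE_eq (u v : ℕ) (S : Finset ℕ) : bdE (u, v) S = st u S + st v S := by
  funext w c
  simp only [bdE, st, en, Pi.add_apply]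
  by_cases h : c ∈ S <;> simp [h]

theorem st_ne {u v : ℕ} (h : u ≠ v) (S : Finset ℕ) : st u S v = 0 := by
  funext c
  simp [st, h]

theorem st_self (v : ℕ) (S : Finset ℕ) : st v S v = ch S := by
  funext c
  simp [st, ch]

theorem st_pair (v : ℕ) {x y : ℕ} (h : x ≠ y) : st v {x, y} = dl v x + dl v y := by
  funext w c
  simp only [st, Pi.add_apply, Finset.mem_insert, Finset.mem_singleton]
  by_cases h1 : c = x
  · subst h1
    simp [h]
  · by_cases h2 : c = y
    · subst h2
      simp [h1]
    · simp [h1, h2]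

theorem ch_inj {S T : Finset ℕ} (h : ch S = ch T) : S = T := by
  ext c
  have := congrFun h c
  unfold ch at this
  by_cases h1 : c ∈ S <;> by_cases h2 : c ∈ T <;> simp [h1, h2] at this ⊢

theorem ch_pair {x y : ℕ} (h : x ≠ y) : ch {x, y} = ch {x} + ch {y} := by
  funext c
  simp only [ch, Pi.add_apply, Finset.mem_insert, Finset.mem_singleton]
  by_cases h1 : c = x
  · subst h1
    simp [h]
  · by_cases h2 : c = y
    · subst h2
      simp [h1]
    · simp [h1, h2]

theorem st_zero {A B C : Finset ℕ} (h : ch A + ch B + ch C = 0) (v : ℕ) :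
    st v A + st v B + st v C = 0 := by
  funext u c
  simp only [st, Pi.add_apply, Pi.zero_apply]
  have := congrFun h c
  simp only [ch, Pi.add_apply, Pi.zero_apply] at this
  by_cases hu : v = u
  · simp only [hu, if_true]
    exact this
  · simp [hu]

/-- Evenness at a vertex with a heavy edge and two light edges. -/
theorem node2 {A : Finset ℕ} (hA : A.card = 2) {x y : ℕ} (h : ch A + ch {x} + ch {y} = 0) :
    x ≠ y ∧ A = {x, y} := by
  have e2 : ∀ f : ℕ → ZMod 2, f + f = 0 := fun f => by
    funext c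
    exact CharTwo.add_self_eq_zero _
  have h1 : ch A = ch {x} + ch {y} := by
    have h2 : ch A + ch {x} + ch {y} + (ch {x} + ch {y}) = 0 + (ch {x} + ch {y}) := by rw [h]
    have h3 : ch A + ch {x} + ch {y} + (ch {x} + ch {y}) =
        ch A + (ch {x} + ch {x}) + (ch {y} + ch {y}) := by ring
    rw [h3, e2, e2, add_zero, add_zero, zero_add] at h2
    exact h2
  have hxy : x ≠ y := by
    rintro rfl
    rw [e2] at h1
    have h2 : A = ∅ := by
      apply ch_inj
      rw [h1]
      funext c
      simp [ch]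
    rw [h2] at hA
    simp at hA
  exact ⟨hxy, ch_inj (by rw [h1, ch_pair hxy])⟩

/-- A heavy edge joins a vertex with light edges of colours `x`, `y` to a vertex with light edges
of colours `z`, `w`. -/
def Nd (x y z w : ℕ) : Prop := x ≠ y ∧ ((x = z ∧ y = w) ∨ (x = w ∧ y = z))

theorem nd_of {A : Finset ℕ} (hA : A.card = 2) {x y z w : ℕ} (h : ch A + ch {x} + ch {y} = 0)
    (h' : ch A + ch {z} + ch {w} = 0) : Nd x y z w := by
  obtain ⟨h1, h2⟩ := node2 hA h
  obtain ⟨h3, h4⟩ := node2 hA h'
  refine ⟨h1, ?_⟩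
  rw [h2] at h4
  have hx : x ∈ ({z, w} : Finset ℕ) := by rw [← h4]; simp
  have hy : y ∈ ({z, w} : Finset ℕ) := by rw [← h4]; simp
  simp only [Finset.mem_insert, Finset.mem_singleton] at hx hy
  omega

theorem Nd.dl {x y z w : ℕ} (h : Nd x y z w) (v : ℕ) :
    dl v x + dl v y = dl v z + dl v w := by
  obtain ⟨_, ⟨rfl, rfl⟩ | ⟨rfl, rfl⟩⟩ := h
  · rfl
  · ring

end Pool.Agent.W_c81d44_h88
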