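import Pool.Agent.W_c81d44_h88.Small

/-!
# Rails: pairs of strands which are forced to have the same colour or free

The rail `i < k` consists of the two open vertices `(env i).1`, `(env i).2`; the colours there can
be prescribed arbitrarily, except that they have to be equal if `val i` is true.
-/

set_option autoImplicit false

namespace Pool.Agent.W_c81d44_h88

open Pool.Agent.W_c81d44_h82

/-- The open vertices. -/
def Oset (k : ℕ) (env : ℕ → ℕ × ℕ) : Set ℕ := {v | ∃ i, i < k ∧ (v = (env i).1 ∨ v = (env i).2)}

/-- The condition on the colours. -/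
def Rl (k : ℕ) (env : ℕ → ℕ × ℕ) (val : ℕ → Bool) (κ : ℕ → ℕ) : Prop :=
  ∀ i < k, val i = true → κ (env i).1 = κ (env i).2

/-- The open vertices are different. -/
def Inj (k : ℕ) (env : ℕ → ℕ × ℕ) : Prop :=
  ∀ i < k, ∀ j < k, (env i).1 ≠ (env j).2 ∧ (i ≠ j → (env i).1 ≠ (env j).1 ∧ (env i).2 ≠ (env j).2)

/-- A graph with `k` rails. -/
structure Good (C : Prop) (G : WG ℕ) (N k : ℕ) (env : ℕ → ℕ × ℕ) (val : ℕ → Bool) : Prop where
  pole : Pole G N (Oset k env) (fun κ => C ∧ Rl k env val κ)
  inj : Inj k env

theorem mem_oset {k : ℕ} {env : ℕ → ℕ × ℕ} {v : ℕ} :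
    v ∈ Oset k env ↔ ∃ i, i < k ∧ (v = (env i).1 ∨ v = (env i).2) := Iff.rfl

theorem Good.lt1 {C : Prop} {G : WG ℕ} {N k : ℕ} {env : ℕ → ℕ × ℕ} {val : ℕ → Bool}
    (h : Good C G N k env val) {i : ℕ} (hi : i < k) : 0 < (env i).1 ∧ (env i).1 < N :=
  h.pole.olt _ ⟨i, hi, Or.inl rfl⟩

theorem Good.lt2 {C : Prop} {G : WG ℕ} {N k : ℕ} {env : ℕ → ℕ × ℕ} {val : ℕ → Bool}
    (h : Good C G N k env val) {i : ℕ} (hi : i < k) : 0 < (env i).2 ∧ (env i).2 < N :=
  h.pole.olt _ ⟨i, hi, Or.inr rfl⟩

theorem Good.congr {C : Prop} {G : WG ℕ} {N k : ℕ} {env env' : ℕ → ℕ × ℕ} {val val' : ℕ → Bool}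
    (h : Good C G N k env val) (he : ∀ i < k, env i = env' i) (hv : ∀ i < k, val i = val' i) :
    Good C G N k env' val' := by
  refine ⟨h.pole.congr ?_ ?_, ?_⟩
  · ext v
    rw [mem_oset, mem_oset]
    constructor
    · rintro ⟨i, hi, h1⟩
      exact ⟨i, hi, by rw [← he i hi]; exact h1⟩
    · rintro ⟨i, hi, h1⟩
      exact ⟨i, hi, by rw [he i hi]; exact h1⟩
  · intro κ
    refine and_congr Iff.rfl ⟨fun h1 i hi h2 => ?_, fun h1 i hi h2 => ?_⟩
    · rw [← he i hi]
      exact h1 i hi (by rw [hv i hi]; exact h2)
    · rw [he i hi]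
      exact h1 i hi (by rw [← hv i hi]; exact h2)
  · intro i hi j hj
    rw [← he i hi, ← he j hj]
    exact h.inj i hi j hj

theorem good_nil (env : ℕ → ℕ × ℕ) (val : ℕ → Bool) : Good True [] 1 0 env val := by
  refine ⟨pole_nil.congr ?_ ?_, fun i hi => absurd hi (Nat.not_lt_zero _)⟩
  · ext v
    rw [mem_oset]
    simp
  · intro κ
    simp [Rl]

variable {C : Prop} {G : WG ℕ} {N k : ℕ} {env : ℕ → ℕ × ℕ} {val : ℕ → Bool}

/-- A new rail. -/
theorem Good.src (h : Good C G N k env val) (b : Bool) :
    Good C (G ++ src N b) (N + 3) (k + 1) (Function.update env k (N, N + 1))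
      (Function.update val k b) := by
  have hN := h.pole.pos
  have e1 : (Function.update env k (N, N + 1)) k = (N, N + 1) := Function.update_self ..
  have e2 : ∀ j, j ≠ k → (Function.update env k (N, N + 1)) j = env j := fun j hj =>
    Function.update_of_ne hj _ _
  have v1 : (Function.update val k b) k = b := Function.update_self ..
  have v2 : ∀ j, j ≠ k → (Function.update val k b) j = val j := fun j hj =>
    Function.update_of_ne hj _ _
  set env' := Function.update env k (N, N + 1) with henv
  set val' := Function.update val k b with hval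
  refine ⟨(glue h.pole (gad_src hN b) (Set.empty_subset _)).congr ?_ ?_, ?_⟩
  · ext v
    rw [mem_oset, Set.mem_union, Set.sdiff_empty, mem_oset, Set.mem_insert_iff,
      Set.mem_singleton_iff]
    constructor
    · rintro (⟨i, hi, h1⟩ | h1)
      · exact ⟨i, by omega, by rw [e2 i (by omega)]; exact h1⟩
      · exact ⟨k, by omega, by rw [e1]; exact h1⟩
    · rintro ⟨i, hi, h1⟩
      by_cases hik : i = k
      · rw [hik, e1] at h1
        exact Or.inr h1
      · rw [e2 i hik] at h1
        exact Or.inl ⟨i, by omega, h1⟩
  · intro κ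
    constructor
    · rintro ⟨κ0, h1, h2, ⟨hC, h3⟩, h4⟩
      refine ⟨hC, fun i hi hv => ?_⟩
      by_cases hik : i = k
      · rw [hik, v1] at hv
        rw [hik, e1, ← h2 N (by simp), ← h2 (N + 1) (by simp)]
        exact h4 hv
      · have hi' : i < k := by omega
        rw [v2 i hik] at hv
        rw [e2 i hik, ← h1 _ ⟨⟨i, hi', Or.inl rfl⟩, by simp⟩, ← h1 _ ⟨⟨i, hi', Or.inr rfl⟩, by simp⟩]
        exact h3 i hi' hv
    · rintro ⟨hC, h1⟩
      refine ⟨κ, fun _ _ => rfl, fun _ _ => rfl, ⟨hC, fun i hi hv => ?_⟩, fun hb => ?_⟩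
      · have := h1 i (by omega) (by rw [v2 i (by omega)]; exact hv)
        rw [e2 i (by omega)] at this
        exact this
      · have := h1 k (by omega) (by rw [v1]; exact hb)
        rw [e1] at this
        exact this
  · intro i hi j hj
    by_cases hik : i = k
    · rw [hik, e1]
      by_cases hjk : j = k
      · rw [hjk, e1]
        exact ⟨by simp, fun h => absurd rfl h⟩
      · rw [e2 j hjk]
        have a1 := h.lt1 (i := j) (by omega)
        have a2 := h.lt2 (i := j) (by omega)
        simp only
        omega
    · rw [e2 i hik]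
      have a1 := h.lt1 (i := i) (by omega)
      have a2 := h.lt2 (i := i) (by omega)
      by_cases hjk : j = k
      · rw [hjk, e1]
        simp only
        omega
      · rw [e2 j hjk]
        exact h.inj i (by omega) j (by omega)

/-- Dropping the last rail. -/
theorem Good.drop (h : Good C G N (k + 1) env val) :
    Good C (G ++ [(((env k).1, 0), false), (((env k).2, 0), false)]) N k env val := by
  have a1 := h.lt1 (i := k) (by omega)
  have a2 := h.lt2 (i := k) (by omega)
  have hinj := h.inj
  have hne := (hinj k (by omega) k (by omega)).1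
  refine ⟨(glue h.pole (gad_drop a1 a2 hne) ?_).congr ?_ ?_, ?_⟩
  · rintro v (rfl | rfl)
    · exact ⟨k, by omega, Or.inl rfl⟩
    · exact ⟨k, by omega, Or.inr rfl⟩
  · ext v
    rw [Set.union_empty, Set.mem_sdiff, mem_oset, mem_oset, Set.mem_insert_iff,
      Set.mem_singleton_iff]
    constructor
    · rintro ⟨⟨i, hi, h1⟩, h2⟩
      refine ⟨i, ?_, h1⟩
      rcases Nat.lt_or_ge i k with h3 | h3
      · exact h3
      · have h4 : i = k := by omega
        subst h4
        exact absurd h1 h2
    · rintro ⟨i, hi, h1⟩
      refine ⟨⟨i, by omega, h1⟩, ?_⟩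
      have b1 := hinj i (by omega) k (by omega)
      have b2 := hinj k (by omega) i (by omega)
      have b3 := b1.2 (by omega)
      rcases h1 with rfl | rfl
      · exact fun h => h.elim b3.1 b1.1
      · exact fun h => h.elim (fun h => b2.1 h.symm) b3.2
  · intro κ
    constructor
    · rintro ⟨κ0, h1, _, ⟨hC, h3⟩, _⟩
      refine ⟨hC, fun i hi hv => ?_⟩
      have b1 := hinj i (by omega) k (by omega)
      have b2 := hinj k (by omega) i (by omega)
      have b3 := b1.2 (by omega)
      rw [← h1 _ ⟨⟨i, by omega, Or.inl rfl⟩, fun h => h.elim b3.1 b1.1⟩,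
        ← h1 _ ⟨⟨i, by omega, Or.inr rfl⟩, fun h => h.elim (fun h => b2.1 h.symm) b3.2⟩]
      exact h3 i (by omega) hv
    · rintro ⟨hC, h1⟩
      refine ⟨Function.update κ (env k).2 (κ (env k).1), ?_, by simp, ⟨hC, ?_⟩, trivial⟩
      · rintro v ⟨_, hv⟩
        exact Function.update_of_ne (fun h => hv (Or.inr h)) _ _
      · intro i hi hv
        have b1 := hinj i (by omega) k (by omega)
        rw [Function.update_of_ne b1.1]
        by_cases hik : i = k
        · rw [hik, Function.update_self]
        · have b3 := b1.2 hik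
          rw [Function.update_of_ne b3.2]
          exact h1 i (by omega) hv
  · intro i hi j hj
    exact hinj i (by omega) j (by omega)

/-- The test: the last rail has to be unequal. -/
theorem Good.check (h : Good C G N (k + 1) env val) :
    Good (C ∧ val k = false)
      (G ++ [(((env k).1, N), false), (((env k).2, N), false), ((N, 0), true)]) (N + 1) k env
      val := by
  have a1 := h.lt1 (i := k) (by omega)
  have a2 := h.lt2 (i := k) (by omega)
  have hinj := h.inj
  have hne := (hinj k (by omega) k (by omega)).1
  refine ⟨(glue h.pole (gad_check a1 a2 hne) ?_).congr ?_ ?_, ?_⟩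
  · rintro v (rfl | rfl)
    · exact ⟨k, by omega, Or.inl rfl⟩
    · exact ⟨k, by omega, Or.inr rfl⟩
  · ext v
    rw [Set.union_empty, Set.mem_sdiff, mem_oset, mem_oset, Set.mem_insert_iff,
      Set.mem_singleton_iff]
    constructor
    · rintro ⟨⟨i, hi, h1⟩, h2⟩
      refine ⟨i, ?_, h1⟩
      rcases Nat.lt_or_ge i k with h3 | h3
      · exact h3
      · have h4 : i = k := by omega
        subst h4
        exact absurd h1 h2
    · rintro ⟨i, hi, h1⟩
      refine ⟨⟨i, by omega, h1⟩, ?_⟩
      have b1 := hinj i (by omega) k (by omega)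
      have b2 := hinj k (by omega) i (by omega)
      have b3 := b1.2 (by omega)
      rcases h1 with rfl | rfl
      · exact fun h => h.elim b3.1 b1.1
      · exact fun h => h.elim (fun h => b2.1 h.symm) b3.2
  · intro κ
    constructor
    · rintro ⟨κ0, h1, _, ⟨hC, h3⟩, h4⟩
      refine ⟨⟨hC, ?_⟩, fun i hi hv => ?_⟩
      · by_contra hcon
        exact h4 (h3 k (by omega) (by simpa using hcon))
      have b1 := hinj i (by omega) k (by omega)
      have b2 := hinj k (by omega) i (by omega)
      have b3 := b1.2 (by omega)
      rw [← h1 _ ⟨⟨i, by omega, Or.inl rfl⟩, fun h => h.elim b3.1 b1.1⟩,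
        ← h1 _ ⟨⟨i, by omega, Or.inr rfl⟩, fun h => h.elim (fun h => b2.1 h.symm) b3.2⟩]
      exact h3 i (by omega) hv
    · rintro ⟨⟨hC, hvk⟩, h1⟩
      refine ⟨Function.update κ (env k).2 (κ (env k).1 + 1), ?_, by simp, ⟨hC, ?_⟩, ?_⟩
      · rintro v ⟨_, hv⟩
        exact Function.update_of_ne (fun h => hv (Or.inr h)) _ _
      · intro i hi hv
        have b1 := hinj i (by omega) k (by omega)
        rw [Function.update_of_ne b1.1]
        by_cases hik : i = k
        · rw [hik, hvk] at hv
          exact absurd hv (by simp)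
        · have b3 := b1.2 hik
          rw [Function.update_of_ne b3.2]
          exact h1 i (by omega) hv
      · rw [Function.update_self, Function.update_of_ne hne]
        omega
  · intro i hi j hj
    exact hinj i (by omega) j (by omega)

/-- Two rails in series. -/
theorem Good.join (h : Good C G N (k + 2) env val) :
    Good C (G ++ [(((env k).2, (env (k + 1)).1), false)]) N (k + 1)
      (Function.update env k ((env k).1, (env (k + 1)).2))
      (Function.update val k (val k && val (k + 1))) := by
  have a1 := h.lt1 (i := k) (by omega)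
  have a2 := h.lt2 (i := k) (by omega)
  have c1 := h.lt1 (i := k + 1) (by omega)
  have c2 := h.lt2 (i := k + 1) (by omega)
  have hinj := h.inj
  have hI : ∀ i < k + 2, ∀ j < k + 2, (env i).1 ≠ (env j).2 := fun i hi j hj =>
    (hinj i hi j hj).1
  have hI1 : ∀ i < k + 2, ∀ j < k + 2, i ≠ j → (env i).1 ≠ (env j).1 := fun i hi j hj hij =>
    ((hinj i hi j hj).2 hij).1
  have hI2 : ∀ i < k + 2, ∀ j < k + 2, i ≠ j → (env i).2 ≠ (env j).2 := fun i hi j hj hij =>
    ((hinj i hi j hj).2 hij).2
  have hne : (env k).2 ≠ (env (k + 1)).1 := (hI (k + 1) (by omega) k (by omega)).symm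
  have e1 : (Function.update env k ((env k).1, (env (k + 1)).2)) k =
    ((env k).1, (env (k + 1)).2) := Function.update_self ..
  have e2 : ∀ j, j ≠ k → (Function.update env k ((env k).1, (env (k + 1)).2)) j = env j :=
    fun j hj => Function.update_of_ne hj _ _
  have v1 : (Function.update val k (val k && val (k + 1))) k = (val k && val (k + 1)) :=
    Function.update_self ..
  have v2 : ∀ j, j ≠ k → (Function.update val k (val k && val (k + 1))) j = val j := fun j hj =>
    Function.update_of_ne hj _ _
  set env' := Function.update env k ((env k).1, (env (k + 1)).2) with henv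
  set val' := Function.update val k (val k && val (k + 1)) with hval
  refine ⟨(glue h.pole (gad_join a2 c1 hne) ?_).congr ?_ ?_, ?_⟩
  · rintro v (rfl | rfl)
    · exact ⟨k, by omega, Or.inr rfl⟩
    · exact ⟨k + 1, by omega, Or.inl rfl⟩
  · ext v
    rw [Set.union_empty, Set.mem_sdiff, mem_oset, mem_oset, Set.mem_insert_iff,
      Set.mem_singleton_iff]
    constructor
    · rintro ⟨⟨i, hi, h1⟩, h2⟩
      by_cases hik : i = k
      · subst hik
        exact ⟨i, by omega, by rw [e1]; exact Or.inl (h1.resolve_right fun h => h2 (Or.inl h))⟩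
      · by_cases hik' : i = k + 1
        · subst hik'
          exact ⟨k, by omega, by
            rw [e1]; exact Or.inr (h1.resolve_left fun h => h2 (Or.inr h))⟩
        · exact ⟨i, by omega, by rw [e2 i hik]; exact h1⟩
    · rintro ⟨i, hi, h1⟩
      by_cases hik : i = k
      · subst hik
        rw [e1] at h1
        rcases h1 with rfl | rfl
        · exact ⟨⟨i, by omega, Or.inl rfl⟩, fun h => h.elim (hI i (by omega) i (by omega))
            (hI1 i (by omega) (i + 1) (by omega) (by omega))⟩
        · exact ⟨⟨i + 1, by omega, Or.inr rfl⟩, fun h =>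
            h.elim (hI2 (i + 1) (by omega) i (by omega) (by omega))
            (hI (i + 1) (by omega) (i + 1) (by omega)).symm⟩
      · rw [e2 i hik] at h1
        refine ⟨⟨i, by omega, h1⟩, ?_⟩
        rcases h1 with rfl | rfl
        · exact fun h => h.elim (hI i (by omega) k (by omega))
            (hI1 i (by omega) (k + 1) (by omega) (by omega))
        · exact fun h => h.elim (hI2 i (by omega) k (by omega) (by omega))
            (hI (k + 1) (by omega) i (by omega)).symm
  · intro κ
    constructor
    · rintro ⟨κ0, h1, _, ⟨hC, h3⟩, h4⟩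
      refine ⟨hC, fun i hi hv => ?_⟩
      by_cases hik : i = k
      · subst hik
        rw [v1, Bool.and_eq_true] at hv
        rw [e1]
        have g1 := h3 i (by omega) hv.1
        have g2 := h3 (i + 1) (by omega) hv.2
        rw [← h1 (env i).1 ⟨⟨i, by omega, Or.inl rfl⟩, fun h =>
            h.elim (hI i (by omega) i (by omega))
            (hI1 i (by omega) (i + 1) (by omega) (by omega))⟩,
          ← h1 (env (i + 1)).2 ⟨⟨i + 1, by omega, Or.inr rfl⟩, fun h =>
            h.elim (hI2 (i + 1) (by omega) i (by omega) (by omega))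
            (hI (i + 1) (by omega) (i + 1) (by omega)).symm⟩, g1, ← g2]
        exact h4
      · rw [v2 i hik] at hv
        rw [e2 i hik, ← h1 _ ⟨⟨i, by omega, Or.inl rfl⟩, fun h =>
            h.elim (hI i (by omega) k (by omega))
            (hI1 i (by omega) (k + 1) (by omega) (by omega))⟩,
          ← h1 _ ⟨⟨i, by omega, Or.inr rfl⟩, fun h =>
            h.elim (hI2 i (by omega) k (by omega) (by omega))
            (hI (k + 1) (by omega) i (by omega)).symm⟩]
        exact h3 i (by omega) hv
    · rintro ⟨hC, h1⟩
      obtain ⟨x, hx⟩ : ∃ x, x = if val k = true then κ (env k).1 else κ (env (k + 1)).2 :=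
        ⟨_, rfl⟩
      refine ⟨Function.update (Function.update κ (env k).2 x) (env (k + 1)).1 x, ?_, by simp,
        ⟨hC, ?_⟩, ?_⟩
      · rintro v ⟨_, hv⟩
        rw [Function.update_of_ne (fun h => hv (Or.inr h)),
          Function.update_of_ne (fun h => hv (Or.inl h))]
      · intro i hi hv
        by_cases hik : i = k
        · subst hik
          rw [Function.update_of_ne (hI1 i (by omega) (i + 1) (by omega) (by omega)),
            Function.update_of_ne (hI i (by omega) i (by omega)),
            Function.update_of_ne hne, Function.update_self, hx, if_pos hv]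
        · by_cases hik' : i = k + 1
          · subst hik'
            rw [Function.update_self,
              Function.update_of_ne (hI (k + 1) (by omega) (k + 1) (by omega)).symm,
              Function.update_of_ne (hI2 (k + 1) (by omega) k (by omega) (by omega)), hx]
            split_ifs with h2
            · have h3 := h1 k (by omega) (by rw [v1, h2, hv]; rfl)
              rw [e1] at h3
              exact h3
            · rfl
          · rw [Function.update_of_ne (hI1 i (by omega) (k + 1) (by omega) hik'),
              Function.update_of_ne (hI i (by omega) k (by omega)),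
              Function.update_of_ne (hI (k + 1) (by omega) i (by omega)).symm,
              Function.update_of_ne (hI2 i (by omega) k (by omega) hik)]
            have h3 := h1 i (by omega) (by rw [v2 i hik]; exact hv)
            rw [e2 i hik] at h3
            exact h3
      · rw [Function.update_self, Function.update_of_ne hne, Function.update_self]
  · intro i hi j hj
    by_cases hik : i = k
    · subst hik
      rw [e1]
      by_cases hjk : j = i
      · subst hjk
        rw [e1]
        exact ⟨hI _ (by omega) _ (by omega), fun h => absurd rfl h⟩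
      · rw [e2 j hjk]
        exact ⟨hI _ (by omega) _ (by omega), fun _ => ⟨hI1 _ (by omega) _ (by omega) (Ne.symm hjk),
          hI2 _ (by omega) _ (by omega) (by omega)⟩⟩
    · rw [e2 i hik]
      by_cases hjk : j = k
      · subst hjk
        rw [e1]
        exact ⟨hI _ (by omega) _ (by omega), fun _ => ⟨hI1 _ (by omega) _ (by omega) hik,
          hI2 _ (by omega) _ (by omega) (by omega)⟩⟩
      · rw [e2 j hjk]
        exact hinj i (by omega) j (by omega)

end Pool.Agent.W_c81d44_h88
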