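import Pool.Agent.W_c81d44_h88.Rail

/-!
# Rails: merging and tapping
-/

set_option autoImplicit false

namespace Pool.Agent.W_c81d44_h88

open Pool.Agent.W_c81d44_h82

theorem upd2 (κ : ℕ → ℕ) {p q : ℕ} (h : p ≠ q) (x y : ℕ) :
    ∃ κ0 : ℕ → ℕ, κ0 p = x ∧ κ0 q = y ∧ ∀ w, w ≠ p → w ≠ q → κ0 w = κ w :=
  ⟨Function.update (Function.update κ p x) q y,
    by rw [Function.update_of_ne h, Function.update_self], Function.update_self ..,
    fun w h1 h2 => by rw [Function.update_of_ne h2, Function.update_of_ne h1]⟩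

theorem upd4 (κ : ℕ → ℕ) {p q u v : ℕ}
    (h : p ≠ q ∧ p ≠ u ∧ p ≠ v ∧ q ≠ u ∧ q ≠ v ∧ u ≠ v) (x y z w : ℕ) :
    ∃ κ0 : ℕ → ℕ, κ0 p = x ∧ κ0 q = y ∧ κ0 u = z ∧ κ0 v = w ∧
      ∀ t, t ≠ p → t ≠ q → t ≠ u → t ≠ v → κ0 t = κ t := by
  obtain ⟨κ1, a1, a2, a3⟩ := upd2 κ h.1 x y
  obtain ⟨κ2, b1, b2, b3⟩ := upd2 κ1 h.2.2.2.2.2 z w
  refine ⟨κ2, ?_, ?_, b1, b2, fun t h1 h2 h3 h4 => by rw [b3 t h3 h4, a3 t h1 h2]⟩
  · rw [b3 p h.2.1 h.2.2.1, a1]
  · rw [b3 q h.2.2.2.1 h.2.2.2.2.1, a2]

theorem mr_sound {x y x2 y2 z z2 : ℕ} (h : MR x y x2 y2 z z2) :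
    (x = y → z = z2) ∧ (x2 = y2 → z = z2) := by
  obtain ⟨_, _, _, _, _, _, _, _, _, _, _, h⟩ := h
  exact ms_sound h

theorem mr_ex (b c : Bool) (z z2 : ℕ) (h : (b || c) = true → z = z2) :
    ∃ x y x2 y2, MR x y x2 y2 z z2 ∧ (b = true → x = y) ∧ (c = true → x2 = y2) := by
  by_cases hz : z = z2
  · subst hz
    exact ⟨z + 1, z + 1, z + 1, z + 1, mr_on (by omega), fun _ => rfl, fun _ => rfl⟩
  · refine ⟨z2, z + z2 + 1, z, z + z2 + 1, mr_off hz (by omega) (by omega), ?_, ?_⟩
    · intro hb
      exact absurd (h (by rw [hb]; rfl)) hz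
    · intro hc
      exact absurd (h (by rw [hc, Bool.or_true])) hz

variable {C : Prop} {G : WG ℕ} {N k : ℕ} {env : ℕ → ℕ × ℕ} {val : ℕ → Bool}

/-- Merging the last two rails. -/
theorem Good.merge (h : Good C G N (k + 2) env val) :
    Good C (G ++ merge (N + 2) (env k).1 (env k).2 (env (k + 1)).1 (env (k + 1)).2 N (N + 1))
      (N + 16) (k + 1) (Function.update env k (N, N + 1))
      (Function.update val k (val k || val (k + 1))) := by
  have a1 := h.lt1 (i := k) (by omega)
  have a2 := h.lt2 (i := k) (by omega)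
  have c1 := h.lt1 (i := k + 1) (by omega)
  have c2 := h.lt2 (i := k + 1) (by omega)
  have hinj := h.inj
  have hI : ∀ i < k + 2, ∀ j < k + 2, (env i).1 ≠ (env j).2 := fun i hi j hj =>
    (hinj i hi j hj).1
  have hI1 : ∀ i < k + 2, ∀ j < k + 2, i ≠ j → (env i).1 ≠ (env j).1 := fun i hi j hj hij =>
    ((hinj i hi j hj).2 hij).1
  have hI2 : ∀ i < k + 2, ∀ j < k + 2, i ≠ j → (env i).2 ≠ (env j).2 := fun i hi j hj hij =>
    ((hinj i hi j hj).2 hij).2
  have e1 : (Function.update env k (N, N + 1)) k = (N, N + 1) := Function.update_self ..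
  have e2 : ∀ j, j ≠ k → (Function.update env k (N, N + 1)) j = env j :=
    fun j hj => Function.update_of_ne hj _ _
  have v1 : (Function.update val k (val k || val (k + 1))) k = (val k || val (k + 1)) :=
    Function.update_self ..
  have v2 : ∀ j, j ≠ k → (Function.update val k (val k || val (k + 1))) j = val j := fun j hj =>
    Function.update_of_ne hj _ _
  set env' := Function.update env k (N, N + 1) with henv
  set val' := Function.update val k (val k || val (k + 1)) with hval
  have hd : (env k).1 ≠ (env k).2 ∧ (env k).1 ≠ (env (k + 1)).1 ∧ (env k).1 ≠ (env (k + 1)).2 ∧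
      (env k).2 ≠ (env (k + 1)).1 ∧ (env k).2 ≠ (env (k + 1)).2 ∧
      (env (k + 1)).1 ≠ (env (k + 1)).2 :=
    ⟨hI _ (by omega) _ (by omega), hI1 _ (by omega) _ (by omega) (by omega),
      hI _ (by omega) _ (by omega), (hI _ (by omega) _ (by omega)).symm,
      hI2 _ (by omega) _ (by omega) (by omega), hI _ (by omega) _ (by omega)⟩
  -- the remaining old open vertices
  have hrest : ∀ i < k, ∀ v, (v = (env i).1 ∨ v = (env i).2) →
      v ≠ (env k).1 ∧ v ≠ (env k).2 ∧ v ≠ (env (k + 1)).1 ∧ v ≠ (env (k + 1)).2 := by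
    rintro i hi v (rfl | rfl)
    · exact ⟨hI1 _ (by omega) _ (by omega) (by omega), hI _ (by omega) _ (by omega),
        hI1 _ (by omega) _ (by omega) (by omega), hI _ (by omega) _ (by omega)⟩
    · exact ⟨(hI _ (by omega) _ (by omega)).symm, hI2 _ (by omega) _ (by omega) (by omega),
        (hI _ (by omega) _ (by omega)).symm, hI2 _ (by omega) _ (by omega) (by omega)⟩
  refine ⟨(glue h.pole (gad_merge a1 a2 c1 c2 hd) ?_).congr ?_ ?_, ?_⟩
  · rintro v (rfl | rfl | rfl | rfl)
    · exact ⟨k, by omega, Or.inl rfl⟩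
    · exact ⟨k, by omega, Or.inr rfl⟩
    · exact ⟨k + 1, by omega, Or.inl rfl⟩
    · exact ⟨k + 1, by omega, Or.inr rfl⟩
  · ext v
    rw [Set.mem_union, Set.mem_sdiff, mem_oset, mem_oset]
    simp only [Set.mem_insert_iff, Set.mem_singleton_iff, not_or]
    constructor
    · rintro (⟨⟨i, hi, h1⟩, h2⟩ | h1)
      · have hik : i < k := by
          by_contra hcon
          have h3 : i = k ∨ i = k + 1 := by omega
          rcases h3 with rfl | rfl
          · exact h1.elim h2.1 h2.2.1
          · exact h1.elim h2.2.2.1 h2.2.2.2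
        exact ⟨i, by omega, by rw [e2 i (by omega)]; exact h1⟩
      · exact ⟨k, by omega, by rw [e1]; exact h1⟩
    · rintro ⟨i, hi, h1⟩
      by_cases hik : i = k
      · rw [hik, e1] at h1
        exact Or.inr h1
      · rw [e2 i hik] at h1
        exact Or.inl ⟨⟨i, by omega, h1⟩, hrest i (by omega) v h1⟩
  · intro κ
    constructor
    · rintro ⟨κ0, h1, h2, ⟨hC, h3⟩, h4⟩
      refine ⟨hC, fun i hi hv => ?_⟩
      by_cases hik : i = k
      · rw [hik, v1, Bool.or_eq_true] at hv
        rw [hik, e1, ← h2 N (by simp), ← h2 (N + 1) (by simp)]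
        have h5 := mr_sound h4
        rcases hv with hv | hv
        · exact h5.1 (h3 k (by omega) hv)
        · exact h5.2 (h3 (k + 1) (by omega) hv)
      · rw [v2 i hik] at hv
        have g1 := hrest i (by omega) (env i).1 (Or.inl rfl)
        have g2 := hrest i (by omega) (env i).2 (Or.inr rfl)
        rw [e2 i hik, ← h1 _ ⟨⟨i, by omega, Or.inl rfl⟩, by simpa using g1⟩,
          ← h1 _ ⟨⟨i, by omega, Or.inr rfl⟩, by simpa using g2⟩]
        exact h3 i (by omega) hv
    · rintro ⟨hC, h1⟩
      obtain ⟨x, y, x2, y2, hM, hb, hc⟩ := mr_ex (val k) (val (k + 1)) (κ N) (κ (N + 1))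
        (fun hv => by
          have := h1 k (by omega) (by rw [v1]; exact hv)
          rw [e1] at this
          exact this)
      obtain ⟨κ0, k1, k2, k3, k4, k5⟩ := upd4 κ hd x y x2 y2
      refine ⟨κ0, ?_, ?_, ⟨hC, ?_⟩, ?_⟩
      · rintro v ⟨_, hv⟩
        simp only [Set.mem_insert_iff, Set.mem_singleton_iff, not_or] at hv
        exact k5 v hv.1 hv.2.1 hv.2.2.1 hv.2.2.2
      · rintro v (rfl | rfl) <;> exact k5 _ (by omega) (by omega) (by omega) (by omega)
      · intro i hi hv
        by_cases hik : i = k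
        · rw [hik, k1, k2]
          rw [hik] at hv
          exact hb hv
        · by_cases hik' : i = k + 1
          · rw [hik', k3, k4]
            rw [hik'] at hv
            exact hc hv
          · have g1 := hrest i (by omega) (env i).1 (Or.inl rfl)
            have g2 := hrest i (by omega) (env i).2 (Or.inr rfl)
            rw [k5 _ g1.1 g1.2.1 g1.2.2.1 g1.2.2.2, k5 _ g2.1 g2.2.1 g2.2.2.1 g2.2.2.2]
            have := h1 i (by omega) (by rw [v2 i hik]; exact hv)
            rw [e2 i hik] at this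
            exact this
      · rw [k1, k2, k3, k4, k5 N (by omega) (by omega) (by omega) (by omega),
          k5 (N + 1) (by omega) (by omega) (by omega) (by omega)]
        exact hM
  · intro i hi j hj
    by_cases hik : i = k
    · rw [hik, e1]
      by_cases hjk : j = k
      · rw [hjk, e1]
        exact ⟨by simp, fun h => absurd rfl h⟩
      · rw [e2 j hjk]
        have b1 := h.lt1 (i := j) (by omega)
        have b2 := h.lt2 (i := j) (by omega)
        simp only
        omega
    · rw [e2 i hik]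
      have b1 := h.lt1 (i := i) (by omega)
      have b2 := h.lt2 (i := i) (by omega)
      by_cases hjk : j = k
      · rw [hjk, e1]
        simp only
        omega
      · rw [e2 j hjk]
        exact hinj i (by omega) j (by omega)

/-- The edges of a tap on the pair `(p, q)`. -/
def tapG (N p q : ℕ) : WG ℕ :=
  piece (N + 4) p q N (N + 1) (N + 2) (N + 3) ++
    piece (N + 12 + 2) (N + 2) (N + 3) 0 0 (N + 12) (N + 12 + 1)

/-- Copying the rail `i`: the copy is the new last rail. -/
theorem Good.tap (h : Good C G N k env val) {i : ℕ} (hi : i < k) :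
    Good C (G ++ tapG N (env i).1 (env i).2) (N + 12 + 10) (k + 1)
      (Function.update (Function.update env i (N + 12, N + 12 + 1)) k (N, N + 1))
      (Function.update val k (val i)) := by
  have hN := h.pole.pos
  have a1 := h.lt1 hi
  have a2 := h.lt2 hi
  have hinj := h.inj
  have hI : ∀ i < k, ∀ j < k, (env i).1 ≠ (env j).2 := fun i hi j hj =>
    (hinj i hi j hj).1
  have hI1 : ∀ i < k, ∀ j < k, i ≠ j → (env i).1 ≠ (env j).1 := fun i hi j hj hij =>
    ((hinj i hi j hj).2 hij).1
  have hI2 : ∀ i < k, ∀ j < k, i ≠ j → (env i).2 ≠ (env j).2 := fun i hi j hj hij =>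
    ((hinj i hi j hj).2 hij).2
  have hpq : (env i).1 ≠ (env i).2 := hI _ hi _ hi
  have hik : i ≠ k := by omega
  obtain ⟨env', henv⟩ : ∃ e, e = Function.update (Function.update env i (N + 12, N + 12 + 1)) k
    (N, N + 1) := ⟨_, rfl⟩
  obtain ⟨val', hval⟩ : ∃ e, e = Function.update val k (val i) := ⟨_, rfl⟩
  rw [← henv, ← hval]
  have e1 : env' k = (N, N + 1) := by rw [henv, Function.update_self]
  have e2 : env' i = (N + 12, N + 12 + 1) := by
    rw [henv, Function.update_of_ne hik, Function.update_self]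
  have e3 : ∀ j, j ≠ k → j ≠ i → env' j = env j := fun j h1 h2 => by
    rw [henv, Function.update_of_ne h1, Function.update_of_ne h2]
  have v1 : val' k = val i := by rw [hval, Function.update_self]
  have v2 : ∀ j, j ≠ k → val' j = val j := fun j hj => by
    rw [hval, Function.update_of_ne hj]
  have hrest : ∀ j < k, j ≠ i → ∀ v, (v = (env j).1 ∨ v = (env j).2) →
      v ≠ (env i).1 ∧ v ≠ (env i).2 := by
    rintro j hj hji v (rfl | rfl)
    · exact ⟨hI1 _ hj _ hi hji, hI _ hj _ hi⟩
    · exact ⟨(hI _ hi _ hj).symm, hI2 _ hj _ hi hji⟩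
  have hlt : ∀ j < k, ∀ v, (v = (env j).1 ∨ v = (env j).2) → 0 < v ∧ v < N := by
    rintro j hj v (rfl | rfl)
    · exact h.lt1 hj
    · exact h.lt2 hj
  have P1 := glue h.pole (gad_piece a1 a2 hpq) (by
    rintro v (rfl | rfl)
    · exact ⟨i, hi, Or.inl rfl⟩
    · exact ⟨i, hi, Or.inr rfl⟩)
  have P2 := glue P1 (gad_piece0 (N := N + 12) (p := N + 2) (q := N + 3) (by omega) (by omega)
    (by omega)) (by
    rintro v (rfl | rfl)
    · exact Or.inr (by simp)
    · exact Or.inr (by simp))
  have hG : G ++ tapG N (env i).1 (env i).2 = (G ++ piece (N + 4) (env i).1 (env i).2 N (N + 1)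
      (N + 2) (N + 3)) ++ piece (N + 12 + 2) (N + 2) (N + 3) 0 0 (N + 12) (N + 12 + 1) := by
    unfold tapG
    rw [List.append_assoc]
  rw [hG]
  refine ⟨P2.congr ?_ ?_, ?_⟩
  · ext v
    rw [Set.mem_union, Set.mem_sdiff, Set.mem_union, Set.mem_sdiff, mem_oset, mem_oset]
    simp only [Set.mem_insert_iff, Set.mem_singleton_iff, not_or]
    constructor
    · rintro (⟨⟨⟨j, hj, h1⟩, h2⟩ | h1, h3⟩ | h1)
      · have hji : j ≠ i := by
          rintro rfl
          exact h1.elim h2.1 h2.2
        exact ⟨j, by omega, by rw [e3 j (by omega) hji]; exact h1⟩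
      · exact ⟨k, by omega, by rw [e1]; omega⟩
      · exact ⟨i, by omega, by rw [e2]; exact h1⟩
    · rintro ⟨j, hj, h1⟩
      by_cases hjk : j = k
      · rw [hjk, e1] at h1
        refine Or.inl ⟨Or.inr ?_, ?_⟩ <;> simp only at h1 <;> omega
      · by_cases hji : j = i
        · rw [hji, e2] at h1
          exact Or.inr h1
        · rw [e3 j hjk hji] at h1
          have g1 := hlt j (by omega) v h1
          exact Or.inl ⟨Or.inl ⟨⟨j, by omega, h1⟩, hrest j (by omega) hji v h1⟩, by omega⟩
  · intro κ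
    constructor
    · rintro ⟨κ1, h1, h2, ⟨κ0, h3, h4, ⟨hC, h5⟩, h6⟩, u, v, h7⟩
      refine ⟨hC, fun j hj hv => ?_⟩
      by_cases hjk : j = k
      · rw [hjk, v1] at hv
        have g := (pr_sound h6 (h5 i hi hv)).1
        rw [hjk, e1, ← h1 N ⟨Or.inr (by simp), by simp⟩, ← h1 (N + 1) ⟨Or.inr (by simp), by simp⟩,
          ← h4 N (by simp), ← h4 (N + 1) (by simp)]
        exact g
      · by_cases hji : j = i
        · rw [hji, v2 i hik] at hv
          have g := (pr_sound h6 (h5 i hi hv)).2
          rw [h4 (N + 2) (by simp), h4 (N + 3) (by simp)] at g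
          have g' := (pr_sound h7 g).2
          rw [hji, e2, ← h2 (N + 12) (by simp), ← h2 (N + 12 + 1) (by simp)]
          exact g'
        · rw [v2 j hjk] at hv
          have g := h5 j (by omega) hv
          have m1 := hlt j (by omega) _ (Or.inl rfl)
          have m2 := hlt j (by omega) _ (Or.inr rfl)
          have r1 := hrest j (by omega) hji _ (Or.inl rfl)
          have r2 := hrest j (by omega) hji _ (Or.inr rfl)
          rw [e3 j hjk hji, ← h1 (env j).1 ⟨Or.inl ⟨⟨j, by omega, Or.inl rfl⟩, by simpa using r1⟩,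
            by simp only [Set.mem_insert_iff, Set.mem_singleton_iff]; omega⟩,
            ← h1 (env j).2 ⟨Or.inl ⟨⟨j, by omega, Or.inr rfl⟩, by simpa using r2⟩,
            by simp only [Set.mem_insert_iff, Set.mem_singleton_iff]; omega⟩,
            ← h3 (env j).1 ⟨⟨j, by omega, Or.inl rfl⟩, by simpa using r1⟩,
            ← h3 (env j).2 ⟨⟨j, by omega, Or.inr rfl⟩, by simpa using r2⟩]
          exact g
    · rintro ⟨hC, h1⟩
      obtain ⟨c, d, z, w, u, v, t1, t2, t3⟩ := tl_complete (val i) (κ N) (κ (N + 1)) (κ (N + 12))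
        (κ (N + 12 + 1)) (fun hv => by
          constructor
          · have := h1 k (by omega) (by rw [v1]; exact hv)
            rw [e1] at this
            exact this
          · have := h1 i (by omega) (by rw [v2 i hik]; exact hv)
            rw [e2] at this
            exact this)
      obtain ⟨κ1, k1, k2, k3⟩ := upd2 κ (p := N + 2) (q := N + 3) (by omega) z w
      obtain ⟨κ0, l1, l2, l3⟩ := upd2 κ1 hpq c d
      refine ⟨κ1, ?_, ?_, ⟨κ0, ?_, ?_, ⟨hC, ?_⟩, ?_⟩, u, v, ?_⟩
      · rintro t ⟨_, ht⟩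
        simp only [Set.mem_insert_iff, Set.mem_singleton_iff, not_or] at ht
        exact k3 t ht.1 ht.2
      · rintro t (rfl | rfl) <;> exact k3 _ (by omega) (by omega)
      · rintro t ⟨_, ht⟩
        simp only [Set.mem_insert_iff, Set.mem_singleton_iff, not_or] at ht
        exact l3 t ht.1 ht.2
      · rintro t (rfl | rfl | rfl | rfl) <;> exact l3 _ (by omega) (by omega)
      · intro j hj hv
        by_cases hji : j = i
        · rw [hji, l1, l2]
          rw [hji] at hv
          exact t1 hv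
        · have m1 := hlt j (by omega) _ (Or.inl rfl)
          have m2 := hlt j (by omega) _ (Or.inr rfl)
          have r1 := hrest j (by omega) hji _ (Or.inl rfl)
          have r2 := hrest j (by omega) hji _ (Or.inr rfl)
          rw [l3 _ r1.1 r1.2, l3 _ r2.1 r2.2, k3 _ (by omega) (by omega),
            k3 _ (by omega) (by omega)]
          have := h1 j (by omega) (by rw [v2 j (by omega)]; exact hv)
          rw [e3 j (by omega) hji] at this
          exact this
      · rw [l1, l2, l3 N (by omega) (by omega), l3 (N + 1) (by omega) (by omega),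
          l3 (N + 2) (by omega) (by omega), l3 (N + 3) (by omega) (by omega), k1, k2,
          k3 N (by omega) (by omega), k3 (N + 1) (by omega) (by omega)]
        exact t2
      · rw [k1, k2, k3 (N + 12) (by omega) (by omega), k3 (N + 12 + 1) (by omega) (by omega)]
        exact t3
  · intro j hj j' hj'
    have fact : ∀ j < k + 1, (j = k ∧ (env' j).1 = N ∧ (env' j).2 = N + 1) ∨
        (j = i ∧ (env' j).1 = N + 12 ∧ (env' j).2 = N + 13) ∨
        (j < k ∧ j ≠ i ∧ env' j = env j ∧ (env j).1 < N ∧ (env j).2 < N) := by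
      intro j hj
      by_cases hjk : j = k
      · left
        rw [hjk, e1]
        simp
      · by_cases hji : j = i
        · right; left
          rw [hji, e2]
          simp
        · right; right
          exact ⟨by omega, hji, e3 j hjk hji, (h.lt1 (i := j) (by omega)).2,
            (h.lt2 (i := j) (by omega)).2⟩
    rcases fact j hj with f1 | f1 | f1 <;> rcases fact j' hj' with f2 | f2 | f2
    all_goals first
      | omega
      | skip
    · obtain ⟨_, _, g3, _, _⟩ := f2
      rw [g3]
      omega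
    · obtain ⟨_, _, g3, _, _⟩ := f2
      rw [g3]
      omega
    · obtain ⟨_, _, g3, _, _⟩ := f1
      rw [g3]
      omega
    · obtain ⟨_, _, g3, _, _⟩ := f1
      rw [g3]
      omega
    · obtain ⟨_, _, g3, _, _⟩ := f1
      obtain ⟨_, _, g4, _, _⟩ := f2
      rw [g3, g4]
      exact hinj j (by omega) j' (by omega)

end Pool.Agent.W_c81d44_h88
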