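import Pool.Agent.W_c81d44_h88.Merge
import Pool.Agent.W_c81d44_h88.Glue

/-!
# The relations of the gadgets
-/

set_option autoImplicit false

namespace Pool.Agent.W_c81d44_h88

open Pool.Agent.W_c81d44_h82

/-- The relation of a piece: entrance `c`, `d`, tap `x`, `y`, exit `z`, `w`. -/
def PR (c d x y z w : ℕ) : Prop := ∃ s t r k l, PS c s x t r y k z l d w

theorem pr_sound {c d x y z w : ℕ} (h : PR c d x y z w) (hc : c = d) : x = y ∧ z = w := by
  obtain ⟨s, t, r, k, l, h1, h2, h3, h4⟩ := h
  unfold Nd at h1 h2 h3 h4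
  rcases h1 with ⟨a1, ⟨a2, a3⟩ | ⟨a2, a3⟩⟩ <;> rcases h2 with ⟨b1, ⟨b2, b3⟩ | ⟨b2, b3⟩⟩ <;>
    rcases h3 with ⟨c1, ⟨c2, c3⟩ | ⟨c2, c3⟩⟩ <;> omega

theorem pr1 {c d v : ℕ} (h1 : v ≠ c) (h2 : v ≠ d) : PR c d c d v v := by
  refine ⟨v, v, d, v, d, ?_⟩
  unfold PS Nd
  omega

theorem pr2 {c d y : ℕ} (h1 : c ≠ d) (h2 : d ≠ y) : PR c d c y d y := by
  refine ⟨d, d, y, d, y, ?_⟩
  unfold PS Nd
  omega

theorem pr3 {c d x : ℕ} (h1 : c ≠ x) (h2 : c ≠ d) : PR c d x x d c := by
  refine ⟨x, c, c, c, d, ?_⟩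
  unfold PS Nd
  omega

theorem pr4 {c x z : ℕ} (h1 : c ≠ x) (h2 : c ≠ z) : PR c c x x z z := by
  refine ⟨x, c, c, c, z, ?_⟩
  unfold PS Nd
  omega

theorem pr5 {c d x : ℕ} (h1 : c ≠ x) (h2 : c ≠ d) (h3 : d ≠ x) : PR c d x c d x := by
  refine ⟨x, c, c, x, d, ?_⟩
  unfold PS Nd
  omega

theorem pr7 {c d x : ℕ} (h1 : c ≠ x) (h2 : c ≠ d) (h3 : d ≠ x) : PR c d x d c x := by
  refine ⟨x, c, d, x, d, ?_⟩
  unfold PS Nd
  omega

/-- Two pieces in series can transmit everything that is not forbidden. -/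
theorem tl_complete (b : Bool) (α β x y : ℕ) (h : b = true → α = β ∧ x = y) :
    ∃ c d z w u v, (b = true → c = d) ∧ PR c d α β z w ∧ PR z w u v x y := by
  obtain ⟨F, hF⟩ : ∃ F, F = α + β + x + y + 1 := ⟨_, rfl⟩
  by_cases hxy : x = y
  · subst hxy
    by_cases hab : α = β
    · subst hab
      exact ⟨F + 1, F + 1, F, F, x, x, fun _ => rfl, pr4 (by omega) (by omega),
        pr4 (by omega) (by omega)⟩
    · refine ⟨α, β, F, F, x, x, fun hb => (h hb).1, pr1 (by omega) (by omega),
        pr4 (by omega) (by omega)⟩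
  · have hb : ¬ b = true := fun hb => hxy (h hb).2
    by_cases hab : α = β
    · subst hab
      by_cases hx : α = x
      · subst hx
        exact ⟨α, F, F, α, F, y, fun h => absurd h hb, pr2 (by omega) (by omega),
          pr2 (by omega) (by omega)⟩
      · by_cases hy : α = y
        · subst hy
          exact ⟨x, F, F, x, F, α, fun h => absurd h hb, pr3 (by omega) (by omega),
            pr2 (by omega) (by omega)⟩
        · exact ⟨α, x, x, α, y, α, fun h => absurd h hb, pr2 (by omega) (by omega),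
            pr7 (by omega) (by omega) (by omega)⟩
    · by_cases hx : β = x
      · subst hx
        exact ⟨α, F, F, β, F, y, fun h => absurd h hb, pr2 (by omega) (by omega),
          pr2 (by omega) (by omega)⟩
      · by_cases hx' : α = x
        · subst hx'
          exact ⟨β, F, F, α, F, y, fun h => absurd h hb, pr5 (by omega) (by omega) (by omega),
            pr2 (by omega) (by omega)⟩
        · by_cases hy : β = y
          · subst hy
            exact ⟨β, x, x, α, β, α, fun h => absurd h hb, pr5 (by omega) (by omega) (by omega),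
              pr7 (by omega) (by omega) (by omega)⟩
          · exact ⟨α, x, x, β, y, β, fun h => absurd h hb, pr2 (by omega) (by omega),
              pr7 (by omega) (by omega) (by omega)⟩

theorem ex6 (p q a b e f c d x y z w : ℕ) (h : p ≠ q ∧ p ≠ a ∧ p ≠ b ∧ p ≠ e ∧ p ≠ f ∧ q ≠ a ∧
    q ≠ b ∧ q ≠ e ∧ q ≠ f ∧ a ≠ b ∧ a ≠ e ∧ a ≠ f ∧ b ≠ e ∧ b ≠ f ∧ e ≠ f) :
    ∃ κ : ℕ → ℕ, κ p = c ∧ κ q = d ∧ κ a = x ∧ κ b = y ∧ κ e = z ∧ κ f = w := by
  refine ⟨fun v => if v = p then c else if v = q then d else if v = a then x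
      else if v = b then y else if v = e then z else w, ?_, ?_, ?_, ?_, ?_, ?_⟩ <;>
    dsimp only <;> split_ifs <;> first | rfl | omega

/-- The piece as a gadget, tap at new vertices. -/
theorem gad_piece {N p q : ℕ} (hp : 0 < p ∧ p < N) (hq : 0 < q ∧ q < N) (hpq : p ≠ q) :
    Gadget (piece (N + 4) p q N (N + 1) (N + 2) (N + 3)) N (N + 12) {p, q}
      {N, N + 1, N + 2, N + 3}
      (fun κ => PR (κ p) (κ q) (κ N) (κ (N + 1)) (κ (N + 2)) (κ (N + 3))) := by
  refine ⟨by omega, ?_, ?_, ?_, ?_, ?_, ?_⟩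
  · rintro v (rfl | rfl)
    · exact hp
    · exact hq
  · rintro v (rfl | rfl | rfl | rfl) <;> omega
  · intro e he
    simp only [piece, List.mem_cons, List.not_mem_nil, or_false] at he
    rcases he with rfl | rfl | rfl | rfl | rfl | rfl | rfl | rfl | rfl | rfl | rfl | rfl | rfl |
      rfl | rfl <;> dsimp only <;> simp only [Set.mem_insert_iff, Set.mem_singleton_iff, true_or,
        or_true, true_and, and_true] <;> omega
  · intro κ κ' h1 h2 h
    have e1 := h1 p (by simp)
    have e2 := h1 q (by simp)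
    have e3 := h2 N (by simp)
    have e4 := h2 (N + 1) (by simp)
    have e5 := h2 (N + 2) (by simp)
    have e6 := h2 (N + 3) (by simp)
    rw [← e1, ← e2, ← e3, ← e4, ← e5, ← e6]
    exact h
  · intro η hη h0
    obtain ⟨c, s, x, t, r, y, k, z, l, d, w, hPS, hs⟩ := piece_sound (by omega) (by omega)
      (by omega) (by omega) (by omega) (by omega) hη (fun i hi => h0 _ (by omega) (by
        simp only [Set.mem_insert_iff, Set.mem_singleton_iff]
        omega))
    obtain ⟨κ, k1, k2, k3, k4, k5, k6⟩ := ex6 p q N (N + 1) (N + 2) (N + 3) c d x y z w (by omega)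
    refine ⟨κ, ?_, ?_, ?_⟩
    · rw [k1, k2, k3, k4, k5, k6]
      exact ⟨s, t, r, k, l, hPS⟩
    · rintro v (rfl | rfl)
      · rw [hs, k1]
        simp (disch := omega) only [Pi.add_apply, st_ne, st_self, add_zero, zero_add]
      · rw [hs, k2]
        simp (disch := omega) only [Pi.add_apply, st_ne, st_self, add_zero, zero_add]
    · rintro v (rfl | rfl | rfl | rfl)
      · rw [hs, k3]
        simp (disch := omega) only [Pi.add_apply, st_ne, st_self, add_zero, zero_add]
      · rw [hs, k4]
        simp (disch := omega) only [Pi.add_apply, st_ne, st_self, add_zero, zero_add]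
      · rw [hs, k5]
        simp (disch := omega) only [Pi.add_apply, st_ne, st_self, add_zero, zero_add]
      · rw [hs, k6]
        simp (disch := omega) only [Pi.add_apply, st_ne, st_self, add_zero, zero_add]
  · rintro κ ⟨s, t, r, k, l, h⟩
    refine ⟨_, piece_complete (N + 4) p q N (N + 1) (N + 2) (N + 3) h, ?_, ?_, ?_⟩
    · rintro v (rfl | rfl)
      · simp (disch := omega) only [Pi.add_apply, st_ne, st_self, add_zero, zero_add]
      · simp (disch := omega) only [Pi.add_apply, st_ne, st_self, add_zero, zero_add]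
    · rintro v (rfl | rfl | rfl | rfl) <;>
        simp (disch := omega) only [Pi.add_apply, st_ne, st_self, add_zero, zero_add]
    · intro v hv hT hW
      simp only [Set.mem_insert_iff, Set.mem_singleton_iff, not_or] at hT hW
      simp (disch := omega) only [Pi.add_apply, st_ne, add_zero]

/-- The piece as a gadget, tap at the hub. -/
theorem gad_piece0 {N p q : ℕ} (hp : 0 < p ∧ p < N) (hq : 0 < q ∧ q < N) (hpq : p ≠ q) :
    Gadget (piece (N + 2) p q 0 0 N (N + 1)) N (N + 10) {p, q} {N, N + 1}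
      (fun κ => ∃ u v, PR (κ p) (κ q) u v (κ N) (κ (N + 1))) := by
  refine ⟨by omega, ?_, ?_, ?_, ?_, ?_, ?_⟩
  · rintro v (rfl | rfl)
    · exact hp
    · exact hq
  · rintro v (rfl | rfl) <;> omega
  · intro e he
    simp only [piece, List.mem_cons, List.not_mem_nil, or_false] at he
    rcases he with rfl | rfl | rfl | rfl | rfl | rfl | rfl | rfl | rfl | rfl | rfl | rfl | rfl |
      rfl | rfl <;> dsimp only <;> simp only [Set.mem_insert_iff, Set.mem_singleton_iff, true_or,
        or_true, true_and, and_true] <;> omega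
  · rintro κ κ' h1 h2 ⟨u, v, h⟩
    have e1 := h1 p (by simp)
    have e2 := h1 q (by simp)
    have e3 := h2 N (by simp)
    have e4 := h2 (N + 1) (by simp)
    refine ⟨u, v, ?_⟩
    rw [← e1, ← e2, ← e3, ← e4]
    exact h
  · intro η hη h0
    obtain ⟨c, s, x, t, r, y, k, z, l, d, w, hPS, hs⟩ := piece_sound (by omega) (by omega)
      (by omega) (by omega) (by omega) (by omega) hη (fun i hi => h0 _ (by omega) (by
        simp only [Set.mem_insert_iff, Set.mem_singleton_iff]
        omega))
    obtain ⟨κ, k1, k2, k3, k4, _, _⟩ := ex6 p q N (N + 1) (N + 2) (N + 3) c d z w 0 0 (by omega)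
    refine ⟨κ, ?_, ?_, ?_⟩
    · refine ⟨x, y, ?_⟩
      rw [k1, k2, k3, k4]
      exact ⟨s, t, r, k, l, hPS⟩
    · rintro v (rfl | rfl)
      · rw [hs, k1]
        simp (disch := omega) only [Pi.add_apply, st_ne, st_self, add_zero]
      · rw [hs, k2]
        simp (disch := omega) only [Pi.add_apply, st_ne, st_self, add_zero, zero_add]
    · rintro v (rfl | rfl)
      · rw [hs, k3]
        simp (disch := omega) only [Pi.add_apply, st_ne, st_self, add_zero, zero_add]
      · rw [hs, k4]
        simp (disch := omega) only [Pi.add_apply, st_ne, st_self, add_zero, zero_add]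
  · rintro κ ⟨u, v, s, t, r, k, l, h⟩
    refine ⟨_, piece_complete (N + 2) p q 0 0 N (N + 1) h, ?_, ?_, ?_⟩
    · rintro v (rfl | rfl)
      · simp (disch := omega) only [Pi.add_apply, st_ne, st_self, add_zero, zero_add]
      · simp (disch := omega) only [Pi.add_apply, st_ne, st_self, add_zero, zero_add]
    · rintro v (rfl | rfl) <;>
        simp (disch := omega) only [Pi.add_apply, st_ne, st_self, add_zero, zero_add]
    · intro v hv hT hW
      simp only [Set.mem_insert_iff, Set.mem_singleton_iff, not_or] at hT hW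
      simp (disch := omega) only [Pi.add_apply, st_ne, add_zero]

end Pool.Agent.W_c81d44_h88
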