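import Pool.Agent.W_c81d44_h88.Rel

/-!
# More gadgets: merging, joining, dropping, sources, the test
-/

set_option autoImplicit false

namespace Pool.Agent.W_c81d44_h88

open Pool.Agent.W_c81d44_h82

/-- The merging gadget. -/
theorem gad_merge {N p q u v : ℕ} (hp : 0 < p ∧ p < N) (hq : 0 < q ∧ q < N) (hu : 0 < u ∧ u < N)
    (hv : 0 < v ∧ v < N) (hd : p ≠ q ∧ p ≠ u ∧ p ≠ v ∧ q ≠ u ∧ q ≠ v ∧ u ≠ v) :
    Gadget (merge (N + 2) p q u v N (N + 1)) N (N + 16) {p, q, u, v} {N, N + 1}
      (fun κ => MR (κ p) (κ q) (κ u) (κ v) (κ N) (κ (N + 1))) := by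
  refine ⟨by omega, ?_, ?_, ?_, ?_, ?_, ?_⟩
  · rintro w (rfl | rfl | rfl | rfl)
    · exact hp
    · exact hq
    · exact hu
    · exact hv
  · rintro w (rfl | rfl) <;> omega
  · intro e he
    simp only [merge, List.mem_cons, List.not_mem_nil, or_false] at he
    rcases he with rfl | rfl | rfl | rfl | rfl | rfl | rfl | rfl | rfl | rfl | rfl | rfl | rfl |
      rfl | rfl | rfl | rfl | rfl | rfl | rfl | rfl | rfl | rfl | rfl <;> dsimp only <;>
      simp only [Set.mem_insert_iff, Set.mem_singleton_iff, true_or, or_true, true_and] <;> omega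
  · intro κ κ' h1 h2 h
    have e1 := h1 p (by simp)
    have e2 := h1 q (by simp)
    have e3 := h1 u (by simp)
    have e4 := h1 v (by simp)
    have e5 := h2 N (by simp)
    have e6 := h2 (N + 1) (by simp)
    rw [← e1, ← e2, ← e3, ← e4, ← e5, ← e6]
    exact h
  · intro η hη h0
    obtain ⟨c, s, x, t, r, y, k, z, l, s2, x2, t2, r2, y2, k2, z2, l2, hMS, hs⟩ :=
      merge_sound (by omega) (by omega) (by omega) (by omega) (by omega) (by omega) hη
      (fun i hi => h0 _ (by omega) (by
        simp only [Set.mem_insert_iff, Set.mem_singleton_iff]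
        omega))
    obtain ⟨κ, k1, k2', k3, k4, k5, k6⟩ := ex6 p q u v N (N + 1) x y x2 y2 z z2 (by omega)
    refine ⟨κ, ?_, ?_, ?_⟩
    · rw [k1, k2', k3, k4, k5, k6]
      exact ⟨c, s, t, r, k, l, s2, t2, r2, k2, l2, hMS⟩
    · rintro w (rfl | rfl | rfl | rfl)
      · rw [hs, k1]
        simp (disch := omega) only [Pi.add_apply, st_ne, st_self, add_zero]
      · rw [hs, k2']
        simp (disch := omega) only [Pi.add_apply, st_ne, st_self, add_zero, zero_add]
      · rw [hs, k3]
        simp (disch := omega) only [Pi.add_apply, st_ne, st_self, add_zero, zero_add]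
      · rw [hs, k4]
        simp (disch := omega) only [Pi.add_apply, st_ne, st_self, add_zero, zero_add]
    · rintro w (rfl | rfl)
      · rw [hs, k5]
        simp (disch := omega) only [Pi.add_apply, st_ne, st_self, add_zero, zero_add]
      · rw [hs, k6]
        simp (disch := omega) only [Pi.add_apply, st_ne, st_self, add_zero, zero_add]
  · rintro κ ⟨c, s, t, r, k, l, s2, t2, r2, k2, l2, h⟩
    refine ⟨_, merge_complete (N + 2) p q u v N (N + 1) h, ?_, ?_, ?_⟩
    · rintro w (rfl | rfl | rfl | rfl) <;>
        simp (disch := omega) only [Pi.add_apply, st_ne, st_self, add_zero, zero_add]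
    · rintro w (rfl | rfl) <;>
        simp (disch := omega) only [Pi.add_apply, st_ne, st_self, add_zero, zero_add]
    · intro w hw hT hW
      simp only [Set.mem_insert_iff, Set.mem_singleton_iff, not_or] at hT hW
      simp (disch := omega) only [Pi.add_apply, st_ne, add_zero]

/-- A light edge joining two open vertices. -/
theorem gad_join {N q r : ℕ} (hq : 0 < q ∧ q < N) (hr : 0 < r ∧ r < N) (hqr : q ≠ r) :
    Gadget [((q, r), false)] N N {q, r} ∅ (fun κ => κ q = κ r) := by
  refine ⟨le_rfl, ?_, by simp, ?_, ?_, ?_, ?_⟩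
  · rintro v (rfl | rfl)
    · exact hq
    · exact hr
  · intro e he
    rw [List.mem_singleton] at he
    subst he
    simp
  · intro κ κ' h1 _ h
    rw [← h1 q (by simp), ← h1 r (by simp)]
    exact h
  · rintro η ⟨S, hS, h⟩ _
    obtain ⟨x, rfl⟩ := Finset.card_eq_one.1 hS
    have h' : η + bdE (q, r) {x} = 0 := h
    rw [bdE_eq] at h'
    have hs : η = dl q x + dl r x := by linear_combination h' - (dl q x + dl r x) * two_bd
    refine ⟨fun _ => x, rfl, ?_, by simp⟩
    rintro v (rfl | rfl)
    · rw [hs]
      simp (disch := omega) only [Pi.add_apply, st_ne, st_self, add_zero]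
    · rw [hs]
      simp (disch := omega) only [Pi.add_apply, st_ne, st_self, zero_add]
  · intro κ h
    refine ⟨dl q (κ q) + dl r (κ q), ⟨{κ q}, rfl, ?_⟩, ?_, by simp, ?_⟩
    · show _ = (0 : Bd)
      rw [bdE_eq]
      linear_combination (dl q (κ q) + dl r (κ q)) * two_bd
    · rintro v (rfl | rfl)
      · simp (disch := omega) only [Pi.add_apply, st_ne, st_self, add_zero]
      · simp (disch := omega) only [Pi.add_apply, st_ne, st_self, zero_add, h]
    · intro v hv hT _
      simp only [Set.mem_insert_iff, Set.mem_singleton_iff, not_or] at hT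
      simp (disch := omega) only [Pi.add_apply, st_ne, add_zero]

/-- Two light edges to the hub. -/
theorem gad_drop {N p q : ℕ} (hp : 0 < p ∧ p < N) (hq : 0 < q ∧ q < N) (hpq : p ≠ q) :
    Gadget [((p, 0), false), ((q, 0), false)] N N {p, q} ∅ (fun _ => True) := by
  refine ⟨le_rfl, ?_, by simp, ?_, fun _ _ _ _ h => h, ?_, ?_⟩
  · rintro v (rfl | rfl)
    · exact hp
    · exact hq
  · intro e he
    simp only [List.mem_cons, List.not_mem_nil, or_false] at he
    rcases he with rfl | rfl <;> simp
  · rintro η ⟨S, hS, S', hS', h⟩ _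
    obtain ⟨x, rfl⟩ := Finset.card_eq_one.1 hS
    obtain ⟨y, rfl⟩ := Finset.card_eq_one.1 hS'
    have h' : η + bdE (p, 0) {x} + bdE (q, 0) {y} = 0 := h
    simp only [bdE_eq] at h'
    have hs : η = dl p x + dl q y + dl 0 x + dl 0 y := by
      linear_combination h' - (dl p x + dl q y + dl 0 x + dl 0 y) * two_bd
    obtain ⟨κ, k1, k2, _⟩ := ex6 p q N (N + 1) (N + 2) (N + 3) x y 0 0 0 0 (by omega)
    refine ⟨κ, trivial, ?_, by simp⟩
    rintro v (rfl | rfl)
    · rw [hs, k1]
      simp (disch := omega) only [Pi.add_apply, st_ne, st_self, add_zero]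
    · rw [hs, k2]
      simp (disch := omega) only [Pi.add_apply, st_ne, st_self, add_zero, zero_add]
  · intro κ _
    refine ⟨dl p (κ p) + dl q (κ q) + dl 0 (κ p) + dl 0 (κ q), ⟨{κ p}, rfl, {κ q}, rfl, ?_⟩, ?_,
      by simp, ?_⟩
    · show _ = (0 : Bd)
      simp only [bdE_eq]
      linear_combination (dl p (κ p) + dl q (κ q) + dl 0 (κ p) + dl 0 (κ q)) * two_bd
    · rintro v (rfl | rfl) <;>
        simp (disch := omega) only [Pi.add_apply, st_ne, st_self, add_zero, zero_add]
    · intro v hv hT _
      simp only [Set.mem_insert_iff, Set.mem_singleton_iff, not_or] at hT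
      simp (disch := omega) only [Pi.add_apply, st_ne, add_zero]

/-- A new pair of strands: forced to be equal if `b` is true. -/
def src (N : ℕ) (b : Bool) : WG ℕ :=
  [((N, if b then N + 2 else 0), false), ((N + 1, if b then N + 2 else 0), false)]

theorem gad_src {N : ℕ} (hN : 0 < N) (b : Bool) :
    Gadget (src N b) N (N + 3) ∅ {N, N + 1} (fun κ => b = true → κ N = κ (N + 1)) := by
  refine ⟨by omega, by simp, ?_, ?_, ?_, ?_, ?_⟩
  · rintro v (rfl | rfl) <;> omega
  · intro e he
    simp only [src, List.mem_cons, List.not_mem_nil, or_false] at he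
    rcases he with rfl | rfl <;> cases b <;> simp
  · intro κ κ' _ h2 h
    rw [← h2 N (by simp), ← h2 (N + 1) (by simp)]
    exact h
  · rintro η ⟨S, hS, S', hS', h⟩ h0
    obtain ⟨x, rfl⟩ := Finset.card_eq_one.1 hS
    obtain ⟨y, rfl⟩ := Finset.card_eq_one.1 hS'
    have h' : η + bdE (N, if b then N + 2 else 0) {x} +
      bdE (N + 1, if b then N + 2 else 0) {y} = 0 := h
    simp only [bdE_eq] at h'
    obtain ⟨m, hm⟩ : ∃ m, m = if b then N + 2 else 0 := ⟨_, rfl⟩
    rw [← hm] at h'
    have hs : η = dl N x + dl (N + 1) y + dl m x + dl m y := by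
      linear_combination h' - (dl N x + dl (N + 1) y + dl m x + dl m y) * two_bd
    have hmN : m = 0 ∨ m = N + 2 := by
      cases b
      · left
        simpa using hm
      · right
        simpa using hm
    refine ⟨fun v => if v = N then x else y, ?_, by simp, ?_⟩
    · intro hb
      subst hb
      have hm' : m = N + 2 := by simpa using hm
      have h2 := h0 (N + 2) (by omega) (by simp)
      rw [hs, hm'] at h2
      simp (disch := omega) only [Pi.add_apply, st_ne, st_self, zero_add] at h2
      have h3 := ch_single_inj (fn_eq h2)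
      simp [h3]
    · rintro v (rfl | rfl)
      · rw [hs]
        simp (disch := omega) only [Pi.add_apply, st_ne, st_self, add_zero, if_true]
      · rw [hs]
        simp (disch := omega) only [Pi.add_apply, st_ne, st_self, add_zero, zero_add]
        simp
  · intro κ h
    obtain ⟨m, hm⟩ : ∃ m, m = if b then N + 2 else 0 := ⟨_, rfl⟩
    refine ⟨dl N (κ N) + dl (N + 1) (κ (N + 1)) + dl m (κ N) + dl m (κ (N + 1)),
      ⟨{κ N}, rfl, {κ (N + 1)}, rfl, ?_⟩, by simp, ?_, ?_⟩
    · show _ = (0 : Bd)
      simp only [bdE_eq]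
      rw [← hm]
      linear_combination (dl N (κ N) + dl (N + 1) (κ (N + 1)) + dl m (κ N) +
        dl m (κ (N + 1))) * two_bd
    · have hmN : m = 0 ∨ m = N + 2 := by
        cases b
        · left
          simpa using hm
        · right
          simpa using hm
      rintro v (rfl | rfl) <;>
        simp (disch := omega) only [Pi.add_apply, st_ne, st_self, add_zero, zero_add]
    · intro v hv _ hW
      simp only [Set.mem_insert_iff, Set.mem_singleton_iff, not_or] at hW
      cases b
      · have hm' : m = 0 := by simpa using hm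
        subst hm'
        simp (disch := omega) only [Pi.add_apply, st_ne, add_zero]
      · have hm' : m = N + 2 := by simpa using hm
        subst hm'
        rw [← h rfl]
        by_cases hv2 : v = N + 2
        · subst hv2
          simp (disch := omega) only [Pi.add_apply, st_ne, st_self, zero_add]
          exact ch_self _
        · simp (disch := omega) only [Pi.add_apply, st_ne, add_zero]

/-- The test: two strands of different colours. -/
theorem gad_check {N p q : ℕ} (hp : 0 < p ∧ p < N) (hq : 0 < q ∧ q < N) (hpq : p ≠ q) :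
    Gadget [((p, N), false), ((q, N), false), ((N, 0), true)] N (N + 1) {p, q} ∅
      (fun κ => κ p ≠ κ q) := by
  refine ⟨by omega, ?_, by simp, ?_, ?_, ?_, ?_⟩
  · rintro v (rfl | rfl)
    · exact hp
    · exact hq
  · intro e he
    simp only [List.mem_cons, List.not_mem_nil, or_false] at he
    rcases he with rfl | rfl | rfl <;> simp
  · intro κ κ' h1 _ h
    rw [← h1 p (by simp), ← h1 q (by simp)]
    exact h
  · rintro η ⟨S, hS, S', hS', A, hA, h⟩ h0
    obtain ⟨x, rfl⟩ := Finset.card_eq_one.1 hS
    obtain ⟨y, rfl⟩ := Finset.card_eq_one.1 hS'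
    have h' : η + bdE (p, N) {x} + bdE (q, N) {y} + bdE (N, 0) A = 0 := h
    simp only [bdE_eq] at h'
    have hs : η = dl p x + dl q y + (st N A + dl N x + dl N y) + st 0 A := by
      linear_combination h' - (dl p x + dl q y + (st N A + dl N x + dl N y) + st 0 A) * two_bd
    have h2 := h0 N le_rfl (by simp)
    rw [hs] at h2
    simp (disch := omega) only [Pi.add_apply, st_ne, st_self, zero_add, add_zero] at h2
    obtain ⟨hxy, _⟩ := node2 hA h2
    obtain ⟨κ, k1, k2, _⟩ := ex6 p q N (N + 1) (N + 2) (N + 3) x y 0 0 0 0 (by omega)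
    refine ⟨κ, by rw [k1, k2]; exact hxy, ?_, by simp⟩
    rintro v (rfl | rfl)
    · rw [hs, k1]
      simp (disch := omega) only [Pi.add_apply, st_ne, st_self, add_zero]
    · rw [hs, k2]
      simp (disch := omega) only [Pi.add_apply, st_ne, st_self, add_zero, zero_add]
  · intro κ h
    refine ⟨dl p (κ p) + dl q (κ q) + st 0 {κ p, κ q}, ⟨{κ p}, rfl, {κ q}, rfl, {κ p, κ q},
      Finset.card_pair h, ?_⟩, ?_, by simp, ?_⟩
    · show _ = (0 : Bd)
      simp only [bdE_eq, st_pair _ h]
      linear_combination (dl p (κ p) + dl q (κ q) + dl 0 (κ p) + dl 0 (κ q) + dl N (κ p) +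
        dl N (κ q)) * two_bd
    · rintro v (rfl | rfl) <;>
        simp (disch := omega) only [Pi.add_apply, st_ne, st_self, add_zero, zero_add]
    · intro v hv hT _
      simp only [Set.mem_insert_iff, Set.mem_singleton_iff, not_or] at hT
      simp (disch := omega) only [Pi.add_apply, st_ne, add_zero]

end Pool.Agent.W_c81d44_h88
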